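import Pool.Agent.Lib.H80C.Defs
import Pool.Agent.Lib.H89D.CS1
import Pool.Agent.Lib.H89D.CS2
import Pool.Agent.Lib.H89D.CS3
import Pool.Agent.Lib.H21AP.DivisorBound

/-!
# CS4: the sum over `c`
-/

namespace Pool.Agent.Lib.H80C

variable {q : QF}

/-- The integer `|ρ|` of `c`: `c + star c = n ρ`. -/
def rhoC (n : ℕ) (c : OK q) : ℕ := (tr c / (n : ℤ)).natAbs

lemma CS4_key {Y : ℝ} {x : ℤ} (hx : |(x : ℝ)| ≤ Y) : x ∈ Finset.Icc (-⌊Y⌋) ⌊Y⌋ := by
  rw [abs_le] at hx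
  rw [Finset.mem_Icc, Int.le_floor]
  refine ⟨?_, hx.2⟩
  have : -x ≤ ⌊Y⌋ := by
    rw [Int.le_floor]
    push_cast
    linarith
  linarith

/-- PROOF. `ab c ≤ H / n`, so the coordinates are bounded (`abs_re_le`, `abs_im_le`). -/
theorem finite_CC (n : ℕ) (hn : 1 ≤ n) (H : ℝ) : (CC q n H).Finite := by
  have hnr : (1 : ℝ) ≤ n := by exact_mod_cast hn
  obtain ⟨Y, hY⟩ : ∃ Y : ℝ, Y = (2 + |(q.t : ℝ)|) * H := ⟨_, rfl⟩
  have hmaps : ∀ c ∈ CC q n H, (c.re, c.im) ∈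
      (↑(Finset.Icc (-⌊Y⌋) ⌊Y⌋ ×ˢ Finset.Icc (-⌊Y⌋) ⌊Y⌋) : Set (ℤ × ℤ)) := by
    rintro c ⟨-, hc⟩
    have h0 : ab c ≤ H := by
      have := ab_nonneg c
      nlinarith
    have ht := abs_nonneg (q.t : ℝ)
    have ha := ab_nonneg c
    rw [Finset.mem_coe, Finset.mem_product]
    refine ⟨CS4_key ((abs_re_le c).trans ?_), CS4_key ((abs_im_le c).trans ?_)⟩
    · rw [hY]
      have h1 : (1 + |(q.t : ℝ)|) * ab c ≤ (1 + |(q.t : ℝ)|) * H :=
        mul_le_mul_of_nonneg_left h0 (by positivity)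
      nlinarith
    · rw [hY]
      have h1 : 0 ≤ |(q.t : ℝ)| * H := mul_nonneg ht (ha.trans h0)
      nlinarith
  have hinj : Set.InjOn (fun z : OK q => (z.re, z.im)) (CC q n H) := by
    intro z _ z' _ h
    have h1 : z.re = z'.re := congrArg Prod.fst h
    have h2 : z.im = z'.im := congrArg Prod.snd h
    exact QuadraticAlgebra.ext h1 h2
  exact Set.Finite.of_injOn hmaps hinj (Finset.finite_toSet _)

lemma CS4_abs_tr (c : OK q) : |(tr c : ℝ)| ≤ 2 * ab c := by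
  have h := Complex.abs_re_le_norm (toC q c)
  have h1 : (tr c : ℝ) = 2 * (toC q c).re := by
    rw [toC_re, tr]
    push_cast
    ring
  rw [h1, abs_mul, abs_two]
  unfold ab
  linarith

lemma CS4_ct_le {c : OK q} (hc : c ≠ 0) : (ct c : ℝ) ≤ ab c := by
  obtain ⟨c', hc'⟩ := dvd_ct.1 (dvd_refl (ct c))
  have h0 : c' ≠ 0 := by
    rintro rfl
    exact hc (by rw [hc', mul_zero])
  have h1 := one_le_ab h0
  have h2 : ab c = ct c * ab c' := by
    conv_lhs => rw [hc']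
    rw [ab_mul, ab_natCast]
  rw [h2]
  have h3 : (0 : ℝ) ≤ ct c := Nat.cast_nonneg _
  nlinarith

/-- the facts on `c` -/
theorem CS4_facts {n : ℕ} (hn : 1 ≤ n) {H : ℝ} {c : OK q} (hc : c ∈ CC q n H) :
    1 ≤ rhoC n c ∧ (tr c).natAbs = n * rhoC n c ∧ ab c ≤ H / n ∧
      |(c.im : ℝ)| ≤ 2 * H / n ∧ (n : ℝ) * rhoC n c ≤ 2 * ab c ∧ c ≠ 0 := by
  obtain ⟨⟨ρ, hρ, h1⟩, h2⟩ := hc
  have hnr : (0 : ℝ) < n := by exact_mod_cast hn
  have hn0 : (n : ℤ) ≠ 0 := by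
    have : n ≠ 0 := by omega
    exact_mod_cast this
  have h3 : tr c = n * ρ := by
    rw [← tr_eq] at h1
    exact_mod_cast h1
  have h5 : rhoC n c = ρ.natAbs := by
    rw [rhoC, h3, Int.mul_ediv_cancel_left _ hn0]
  have h6 : ab c ≤ H / n := by
    rw [le_div_iff₀ hnr]
    linarith
  have h7 : (tr c).natAbs = n * rhoC n c := by
    rw [h5, h3, Int.natAbs_mul, Int.natAbs_natCast]
  refine ⟨?_, h7, h6, ?_, ?_, ?_⟩
  · rw [h5]
    exact Int.natAbs_pos.2 hρ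
  · refine (abs_im_le c).trans ?_
    rw [mul_div_assoc]
    linarith
  · have h8 : (n : ℝ) * rhoC n c = |(tr c : ℝ)| := by
      have h9 : (((tr c).natAbs : ℕ) : ℝ) = |(tr c : ℝ)| := by
        rw [Nat.cast_natAbs, Int.cast_abs]
      rw [← h9, h7]
      push_cast
      rfl
    rw [h8]
    exact CS4_abs_tr c
  · rintro rfl
    have h8 : tr (0 : OK q) = 0 := by simp [tr]
    rw [h8] at h3
    rcases mul_eq_zero.1 h3.symm with h9 | h9
    · exact hn0 h9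
    · exact hρ h9

/-- the sum over `y` -/
theorem CS4_line (m r : ℕ) (hm : 1 ≤ m) (Z : ℝ) (hZ : 0 ≤ Z) (F : Finset (OK q)) (x : ℤ)
    (hF : ∀ c ∈ F, tr c = x) (hx : x.natAbs = m) (hFZ : ∀ c ∈ F, |(c.im : ℝ)| ≤ Z)
    (hFc : ∀ c ∈ F, (ct c : ℝ) ≤ Z) :
    ∑ c ∈ F, (ct c : ℝ) * H89D.RS (ct c) r ≤
      3 * Z * ((∑ e ∈ m.divisors, H89D.RS e r : ℕ) : ℝ) := by
  classical
  have hd : ∀ c ∈ F, ct c ∈ m.divisors := by
    intro c hc
    rw [Nat.mem_divisors]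
    refine ⟨?_, by omega⟩
    have h1 : ((ct c : ℕ) : ℤ) ∣ c.re := Int.gcd_dvd_left _ _
    have h2 : ((ct c : ℕ) : ℤ) ∣ c.im := Int.gcd_dvd_right _ _
    have h3 : ((ct c : ℕ) : ℤ) ∣ x := by
      rw [← hF c hc, tr]
      exact dvd_add (h1.mul_left _) (h2.mul_left _)
    rw [← hx]
    exact Int.natCast_dvd.1 h3
  rw [← Finset.sum_fiberwise_of_maps_to hd, Nat.cast_sum, Finset.mul_sum]
  apply Finset.sum_le_sum
  intro e he
  have he1 : 1 ≤ e := Nat.pos_of_mem_divisors he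
  have her : (0 : ℝ) < e := by exact_mod_cast he1
  have h1 : ∑ c ∈ F.filter (fun c => ct c = e), (ct c : ℝ) * H89D.RS (ct c) r =
      (F.filter (fun c => ct c = e)).card * ((e : ℝ) * H89D.RS e r) := by
    rw [← nsmul_eq_mul, ← Finset.sum_const]
    apply Finset.sum_congr rfl
    intro c hc
    rw [(Finset.mem_filter.1 hc).2]
  rw [h1]
  rcases (F.filter (fun c => ct c = e)).eq_empty_or_nonempty with h0 | ⟨c₀, hc₀⟩
  · rw [h0, Finset.card_empty, Nat.cast_zero, zero_mul]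
    positivity
  have heZ : (e : ℝ) ≤ Z := by
    rw [Finset.mem_filter] at hc₀
    rw [← hc₀.2]
    exact hFc c₀ hc₀.1
  have h2 : (F.filter (fun c => ct c = e)).card ≤
      ((Finset.Icc (-⌊Z⌋) ⌊Z⌋).filter (fun y => (e : ℤ) ∣ y)).card := by
    apply Finset.card_le_card_of_injOn (fun c : OK q => c.im)
    · intro c hc
      rw [Finset.mem_coe, Finset.mem_filter] at hc
      rw [Finset.mem_coe, Finset.mem_filter]
      refine ⟨CS4_key (hFZ c hc.1), ?_⟩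
      rw [← hc.2]
      exact Int.gcd_dvd_right _ _
    · intro c hc c' hc' h
      rw [Finset.mem_coe, Finset.mem_filter] at hc hc'
      have h3 : c.im = c'.im := h
      have h4 := (hF c hc.1).trans (hF c' hc'.1).symm
      unfold tr at h4
      rw [h3] at h4
      exact QuadraticAlgebra.ext (by linarith) h3
  have h3 := H89D.CS3_count e he1 Z heZ
  have h4 : ((F.filter (fun c => ct c = e)).card : ℝ) ≤ 3 * Z / e :=
    le_trans (by exact_mod_cast h2) h3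
  calc ((F.filter (fun c => ct c = e)).card : ℝ) * ((e : ℝ) * H89D.RS e r)
      ≤ 3 * Z / e * ((e : ℝ) * H89D.RS e r) := mul_le_mul_of_nonneg_right h4 (by positivity)
    _ = 3 * Z * (H89D.RS e r : ℕ) := by
      field_simp

/-- The sum over `c`. (Adapt `csum` of `Lib/H89D/CS4.lean`.)

PROOF. For `c = x + y ω ∈ CC q n H`: `2 x + t y = n ρ` (`tr_eq`), `rhoC n c = |ρ| ≥ 1`; `e = ct c` divides
`m = n |ρ|` and `y`; `n |ρ| / 2 ≤ ab c ≤ H / n`, so `H / (n ab c) ≤ 2 H / (n² |ρ|)` and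
`|ρ| ≤ Y := ⌊2 H / n²⌋`; `|y| ≤ 2 ab c ≤ Z := 2 H / n`, and `e ≤ ab c ≤ Z` (`c = e c₁`, `c₁ ≠ 0`);
`e ^ ε ≤ (2 H) ^ ε`. For given `ρ` the map `c ↦ y` is injective, so for given `ρ` and `e` the number of `c`
is at most the number of `y`, `|y| ≤ Z`, divisible by `e ≤ Z`, at most `3 Z / e` (`H89D.CS3_count`). So the
sum is at most `(2 H) ^ ε ∑_{0 < |ρ| ≤ Y} (2 H / (n² |ρ|)) ∑_{e ∣ m} e RS(e, |ρ|) 3 Z / e`, and by
`H89D.cs1` (with `m = n |ρ|`) the inner sum is at most `3 Z d(n |ρ|)² ∑_{e ≤ |ρ|, e² ∣ |ρ|} e`. With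
`divisor_bound` (exponent `ε / 8`; `n |ρ| ≤ 2 H`), `H89D.cs2`, and `1 + log Y ≤ C H ^ (ε / 8)`, the sum is
at most `C H ^ (2 ε) H² / n³`. -/
theorem csum (q : QF) {ε : ℝ} (hε : 0 < ε) : ∃ C : ℝ, 0 < C ∧ ∀ n : ℕ, 1 ≤ n → ∀ H : ℝ,
    (n : ℝ) ≤ H → ∀ S : Finset (OK q), (∀ c ∈ S, c ∈ CC q n H) →
      ∑ c ∈ S, (ct c : ℝ) ^ (1 + ε) * H89D.RS (ct c) (rhoC n c) * (H / (n * ab c)) ≤
        C * H ^ (2 * ε) * (H ^ 2 / (n : ℝ) ^ 3) := by
  classical
  obtain ⟨C₁, hC₁, hdiv⟩ := Pool.Agent.Lib.H21AP.divisor_bound (show 0 < ε / 8 by linarith)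
  refine ⟨24 * C₁ ^ 2 * (1 + 4 / ε) ^ 2 * (2 : ℝ) ^ ε, by positivity, ?_⟩
  intro n hn X hX S hS
  have hnr : (1 : ℝ) ≤ n := by exact_mod_cast hn
  have hX1 : 1 ≤ X := hnr.trans hX
  obtain ⟨Z, hZ⟩ : ∃ Z, Z = 2 * X / n := ⟨_, rfl⟩
  have hZ0 : 0 ≤ Z := by rw [hZ]; positivity
  have hXn : X / n ≤ X := by
    rw [div_le_iff₀ (by linarith)]
    nlinarith
  have hXZ : X / n ≤ Z := by
    have : 0 ≤ X / n := by positivity
    rw [hZ, mul_div_assoc]
    linarith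
  obtain ⟨Y, hY⟩ : ∃ Y, Y = ⌊2 * X / (n : ℝ) ^ 2⌋₊ := ⟨_, rfl⟩
  -- the range of rho
  have hr : ∀ c ∈ S, rhoC n c ∈ Finset.Icc 1 Y := by
    intro c hc
    obtain ⟨h1, h2, h3, -, h5, -⟩ := CS4_facts hn (hS c hc)
    rw [Finset.mem_Icc, hY, Nat.le_floor_iff (by positivity)]
    refine ⟨h1, ?_⟩
    rw [le_div_iff₀ (by positivity)]
    rw [le_div_iff₀ (by linarith)] at h3
    nlinarith
  rw [← Finset.sum_fiberwise_of_maps_to hr]
  obtain ⟨E, hE⟩ : ∃ E : ℕ → ℝ, ∀ r, E r =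
      ∑ e ∈ (Finset.Icc 1 r).filter (fun e => e ^ 2 ∣ r), (e : ℝ) := ⟨_, fun _ => rfl⟩
  have hE0 : ∀ r, 0 ≤ E r := by
    intro r
    rw [hE]
    positivity
  obtain ⟨D, hD⟩ : ∃ D, D = C₁ * (2 * X) ^ (ε / 8) := ⟨_, rfl⟩
  have hD0 : 0 ≤ D := by rw [hD]; positivity
  -- one line
  have hline : ∀ r ∈ Finset.Icc 1 Y, ∀ (x : ℤ) (F : Finset (OK q)),
      (∀ c ∈ F, c ∈ S ∧ rhoC n c = r) →
      (∀ c ∈ F, tr c = x) → ∑ c ∈ F, (ct c : ℝ) * H89D.RS (ct c) r ≤ 3 * Z * (D ^ 2 * E r) := by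
    intro r hr1 x F hF1 hF2
    rw [Finset.mem_Icc] at hr1
    rcases F.eq_empty_or_nonempty with h0 | ⟨c₀, hc₀⟩
    · rw [h0, Finset.sum_empty]
      have := hE0 r
      positivity
    obtain ⟨g1, g2, g3, g4, g5, g6⟩ := CS4_facts hn (hS c₀ (hF1 c₀ hc₀).1)
    rw [hF2 c₀ hc₀, (hF1 c₀ hc₀).2] at g2
    rw [(hF1 c₀ hc₀).2] at g5
    have hnr0 : 1 ≤ n * r := Nat.mul_pos hn hr1.1
    have k1 := CS4_line (n * r) r hnr0 Z hZ0 F x hF2 g2 (by
      intro c hc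
      obtain ⟨-, -, -, h, -⟩ := CS4_facts hn (hS c (hF1 c hc).1)
      rwa [← hZ] at h) (by
      intro c hc
      obtain ⟨-, -, h, -, -, h0⟩ := CS4_facts hn (hS c (hF1 c hc).1)
      exact (CS4_ct_le h0).trans (h.trans hXZ))
    have k3 : ((∑ e ∈ (n * r).divisors, H89D.RS e r : ℕ) : ℝ) ≤
      (((n * r).divisors.card ^ 2 *
      ∑ e ∈ (Finset.Icc 1 r).filter (fun e => e ^ 2 ∣ r), e : ℕ) : ℝ) := by
      exact_mod_cast H89D.cs1 hn hr1.1 (dvd_refl (n * r))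
    have k3' : (((n * r).divisors.card ^ 2 *
      ∑ e ∈ (Finset.Icc 1 r).filter (fun e => e ^ 2 ∣ r), e : ℕ) : ℝ) =
      ((n * r).divisors.card : ℝ) ^ 2 * E r := by
      rw [hE]
      push_cast
      rfl
    rw [k3'] at k3
    have k4 : ((n * r).divisors.card : ℝ) ≤ D := by
      refine (hdiv (n * r) hnr0).trans ?_
      rw [hD]
      have k5 : ((n * r : ℕ) : ℝ) ≤ 2 * X := by
        push_cast
        linarith
      exact mul_le_mul_of_nonneg_left (Real.rpow_le_rpow (Nat.cast_nonneg _) k5 (by linarith)) hC₁.le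
    refine k1.trans (mul_le_mul_of_nonneg_left (k3.trans ?_) (by positivity))
    exact mul_le_mul_of_nonneg_right (pow_le_pow_left₀ (Nat.cast_nonneg _) k4 2) (hE0 r)
  -- the fibre
  have hfib : ∀ r ∈ Finset.Icc 1 Y, ∑ c ∈ S.filter (fun c => rhoC n c = r),
      (ct c : ℝ) ^ (1 + ε) * H89D.RS (ct c) (rhoC n c) * (X / (n * ab c)) ≤
      (X ^ ε * (2 * X / (n : ℝ) ^ 2) * (6 * Z * D ^ 2)) * (1 / (r : ℝ) * E r) := by
    intro r hr1
    have hr1' := hr1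
    rw [Finset.mem_Icc] at hr1'
    have hrr : (1 : ℝ) ≤ r := by exact_mod_cast hr1'.1
    have h1 : ∀ c ∈ S.filter (fun c => rhoC n c = r),
        (ct c : ℝ) ^ (1 + ε) * H89D.RS (ct c) (rhoC n c) * (X / (n * ab c)) ≤
        (X ^ ε * (2 * X / ((n : ℝ) ^ 2 * r))) * ((ct c : ℝ) * H89D.RS (ct c) r) := by
      intro c hc
      rw [Finset.mem_filter] at hc
      obtain ⟨g1, g2, g3, g4, g5, g6⟩ := CS4_facts hn (hS c hc.1)
      rw [hc.2] at g2 g5 ⊢
      have hct : (ct c : ℝ) ≤ X := (CS4_ct_le g6).trans (g3.trans hXn)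
      have hct0 : 0 < (ct c : ℝ) := by
        have : 0 < ct c := Nat.pos_of_ne_zero (ct_ne_zero g6)
        exact_mod_cast this
      have h4 : (ct c : ℝ) ^ (1 + ε) ≤ ct c * X ^ ε := by
        rw [Real.rpow_add hct0, Real.rpow_one]
        exact mul_le_mul_of_nonneg_left (Real.rpow_le_rpow hct0.le hct hε.le) hct0.le
      have h5 : X / (n * ab c) ≤ 2 * X / ((n : ℝ) ^ 2 * r) := by
        have h6 : (n : ℝ) ^ 2 * r = 2 * (n * (n * r / 2)) := by ring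
        rw [h6, mul_div_mul_left _ _ (by norm_num : (2 : ℝ) ≠ 0)]
        have h8 : (n : ℝ) * r / 2 ≤ ab c := by linarith
        have h9 : 0 < (n : ℝ) * r / 2 := by positivity
        gcongr
      have h7 : 0 ≤ X / (n * ab c) := by
        have := ab_nonneg c
        positivity
      calc (ct c : ℝ) ^ (1 + ε) * H89D.RS (ct c) r * (X / (n * ab c))
          ≤ (ct c * X ^ ε) * H89D.RS (ct c) r * (2 * X / ((n : ℝ) ^ 2 * r)) := by gcongr
        _ = _ := by ring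
    refine (Finset.sum_le_sum h1).trans ?_
    rw [← Finset.mul_sum]
    have h2 : ∑ c ∈ S.filter (fun c => rhoC n c = r), (ct c : ℝ) * H89D.RS (ct c) r ≤
        6 * Z * (D ^ 2 * E r) := by
      rw [← Finset.sum_filter_add_sum_filter_not _ (fun c : OK q => 0 < tr c)]
      have key : ∀ c ∈ S.filter (fun c => rhoC n c = r), (tr c).natAbs = n * r := by
        intro c hc
        rw [Finset.mem_filter] at hc
        have := (CS4_facts hn (hS c hc.1)).2.1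
        rwa [hc.2] at this
      have p1 := hline r hr1 ((n * r : ℕ) : ℤ)
        ((S.filter (fun c => rhoC n c = r)).filter (fun c : OK q => 0 < tr c)) (by
        intro c hc
        rw [Finset.mem_filter, Finset.mem_filter] at hc
        exact hc.1) (by
        intro c hc
        rw [Finset.mem_filter] at hc
        have h3 := key c hc.1
        have h4 := hc.2
        omega)
      have p2 := hline r hr1 (-((n * r : ℕ) : ℤ))
        ((S.filter (fun c => rhoC n c = r)).filter (fun c : OK q => ¬ 0 < tr c)) (by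
        intro c hc
        rw [Finset.mem_filter, Finset.mem_filter] at hc
        exact hc.1) (by
        intro c hc
        rw [Finset.mem_filter] at hc
        have h3 := key c hc.1
        have h4 := hc.2
        omega)
      linarith
    have h3 : 0 ≤ X ^ ε * (2 * X / ((n : ℝ) ^ 2 * r)) := by positivity
    refine (mul_le_mul_of_nonneg_left h2 h3).trans (le_of_eq ?_)
    field_simp
  refine (Finset.sum_le_sum hfib).trans ?_
  rw [← Finset.mul_sum]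
  rcases Nat.eq_zero_or_pos Y with hY0 | hY0
  · rw [hY0]
    simp
    positivity
  have hcs := H89D.cs2 Y hY0
  simp only [← hE] at hcs
  have hYX : (Y : ℝ) ≤ 2 * X := by
    rw [hY]
    refine (Nat.floor_le (by positivity)).trans ?_
    rw [div_le_iff₀ (by positivity)]
    have h1 : 1 ≤ (n : ℝ) ^ 2 := by nlinarith
    have h2 : 0 ≤ 2 * X := by linarith
    nlinarith
  have hYr : (1 : ℝ) ≤ Y := by exact_mod_cast hY0
  have hlog : 1 + Real.log Y ≤ (1 + 4 / ε) * (2 * X) ^ (ε / 4) := by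
    have h1 : Real.log Y ≤ Real.log (2 * X) := Real.log_le_log (by linarith) hYX
    have h2 := Real.log_le_rpow_div (show 0 ≤ 2 * X by linarith) (show 0 < ε / 4 by linarith)
    have h3 : 1 ≤ (2 * X) ^ (ε / 4) := Real.one_le_rpow (by linarith) (by linarith)
    have h4 : (2 * X) ^ (ε / 4) / (ε / 4) = 4 / ε * (2 * X) ^ (ε / 4) := by
      field_simp
    rw [h4] at h2
    linarith
  have hlog0 : 0 ≤ 1 + Real.log Y := by
    have := Real.log_nonneg hYr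
    linarith
  have hlog2 : (1 + Real.log Y) ^ 2 ≤ ((1 + 4 / ε) * (2 * X) ^ (ε / 4)) ^ 2 :=
    pow_le_pow_left₀ hlog0 hlog 2
  have hK : 0 ≤ X ^ ε * (2 * X / (n : ℝ) ^ 2) * (6 * Z * D ^ 2) := by positivity
  refine (mul_le_mul_of_nonneg_left (hcs.trans hlog2) hK).trans ?_
  have h2X : 0 < 2 * X := by linarith
  have e1 : D ^ 2 = C₁ ^ 2 * (2 * X) ^ (ε / 4) := by
    rw [hD, mul_pow, ← Real.rpow_natCast ((2 * X) ^ (ε / 8)), ← Real.rpow_mul h2X.le]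
    congr 2
    push_cast
    ring
  have e2 : ((2 * X) ^ (ε / 4)) ^ 2 = (2 * X) ^ (ε / 2) := by
    rw [← Real.rpow_natCast, ← Real.rpow_mul h2X.le]
    congr 1
    push_cast
    ring
  have e3 : (2 * X) ^ (ε / 4) * (2 * X) ^ (ε / 2) ≤ (2 : ℝ) ^ ε * X ^ ε := by
    rw [← Real.rpow_add h2X, ← Real.mul_rpow (by norm_num) (by linarith)]
    exact Real.rpow_le_rpow_of_exponent_le (by linarith) (by linarith)
  have e4 : X ^ (2 * ε) = X ^ ε * X ^ ε := by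
    rw [← Real.rpow_add (by linarith)]
    congr 1
    ring
  rw [mul_pow, e2, e1, e4, hZ]
  calc X ^ ε * (2 * X / (n : ℝ) ^ 2) * (6 * (2 * X / n) * (C₁ ^ 2 * (2 * X) ^ (ε / 4))) *
        ((1 + 4 / ε) ^ 2 * (2 * X) ^ (ε / 2))
      = 24 * C₁ ^ 2 * (1 + 4 / ε) ^ 2 * X ^ ε * (X ^ 2 / (n : ℝ) ^ 3) *
        ((2 * X) ^ (ε / 4) * (2 * X) ^ (ε / 2)) := by
        field_simp
        ring
    _ ≤ 24 * C₁ ^ 2 * (1 + 4 / ε) ^ 2 * X ^ ε * (X ^ 2 / (n : ℝ) ^ 3) *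
        ((2 : ℝ) ^ ε * X ^ ε) := by gcongr
    _ = _ := by ring

end Pool.Agent.Lib.H80C
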