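import Pool.Agent.Lib.H80C.Defs

/-!
# TC: the number of `τ`
-/

namespace Pool.Agent.Lib.H80C

variable {q : QF}

/-- The possible values of `τ`. -/
def TT (q : QF) (n : ℕ) (X : ℝ) : Set (OK q) :=
  {τ | (n : ℝ) ^ 2 * ab τ ≤ 4 * X ∧ ∃ m : OK q, τ - star τ = n * m}

/-- (Adapt `Lib/H89D/TC.lean`.)
PROOF. `3 P + n² τ` is the trace of `P + n M` (`hτ`), so `n² ab τ ≤ X + 3 P ≤ 4 X`; `hi`. -/
theorem mem_TT {n P : ℕ} {X : ℝ} (hX : (P : ℝ) ≤ X) {M : M3 q} {ρ η : ℤ} {τ : OK q}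
    (h : RelsM n P M ρ η τ) (hB : Tdd n P X M) : τ ∈ TT q n X := by
  refine ⟨?_, h.hi⟩
  have h1 : (n : OK q) ^ 2 * τ = (gm n P M).trace - 3 * (P : OK q) := by
    rw [Matrix.trace_fin_three]
    simp only [gm, Matrix.add_apply, Matrix.one_apply_eq, Matrix.smul_apply, smul_eq_mul, mul_one]
    have := h.hτ
    linear_combination (-(n : OK q)) * this
  have h2 : (n : ℝ) ^ 2 * ab τ = ab ((n : OK q) ^ 2 * τ) := by
    rw [ab_mul, sq (n : OK q), ab_mul, ab_natCast]; ring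
  rw [h2, h1]
  have h3 := ab_sub_le (gm n P M).trace (3 * (P : OK q))
  have h4 : ab (3 * (P : OK q)) = 3 * P := by
    rw [ab_mul, ab_natCast]
    have : ab (3 : OK q) = 3 := by
      have := ab_natCast (q := q) 3
      exact_mod_cast this
    rw [this]
  have h5 : ab (gm n P M).trace ≤ X := hB
  linarith

/-- PROOF. `|τ.im| ≤ 2 ab τ ≤ 8 X / n²`, `|τ.re| ≤ (1 + |t|) 4 X / n²`; `τ - star τ = τ.im dl`, so `n`
divides `2 τ.im = n m`, `|m| ≤ 16 X / n³`; an interval `[-Y, Y]` contains at most `2 Y + 1` integers. -/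
theorem tau_count (q : QF) : ∃ K : ℝ, 0 < K ∧ ∀ n : ℕ, 1 ≤ n → ∀ X : ℝ, 0 ≤ X →
    (TT q n X).Finite ∧
      ((TT q n X).ncard : ℝ) ≤ (1 + K * X / (n : ℝ) ^ 2) * (1 + K * X / (n : ℝ) ^ 3) := by
  refine ⟨8 * (1 + |(q.t : ℝ)|) + 32, by positivity, ?_⟩
  intro n hn X hX
  have ht := abs_nonneg (q.t : ℝ)
  have hn1 : (1:ℝ) ≤ n := by exact_mod_cast hn
  have hn0 : (0:ℝ) < n := by linarith
  set Y1 : ℝ := (4 * (1 + |(q.t : ℝ)|)) * X / (n : ℝ) ^ 2 with hY1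
  set Y2 : ℝ := 16 * X / (n : ℝ) ^ 3 with hY2
  have hY1p : 0 ≤ Y1 := by positivity
  have hY2p : 0 ≤ Y2 := by positivity
  let B : Finset (ℤ × ℤ) := Finset.Icc (-⌊Y1⌋) ⌊Y1⌋ ×ˢ Finset.Icc (-⌊Y2⌋) ⌊Y2⌋
  let φ : ℤ × ℤ → OK q := fun p => ⟨p.1, (n : ℤ) * p.2 / 2⟩
  have habs : ∀ (k : ℤ) (Y : ℝ), |(k : ℝ)| ≤ Y → k ∈ Finset.Icc (-⌊Y⌋) ⌊Y⌋ := by
    intro k Y hk
    have h1 := abs_le.1 hk
    rw [Finset.mem_Icc]
    refine ⟨?_, Int.le_floor.2 h1.2⟩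
    have h2 : -k ≤ ⌊Y⌋ := Int.le_floor.2 (by push_cast; linarith)
    linarith
  have hsub : TT q n X ⊆ ((B.image φ : Finset (OK q)) : Set (OK q)) := by
    rintro τ ⟨h1, m, hm⟩
    rw [Finset.coe_image]
    have hm2 : 2 * τ.im = n * m.im := by
      have := congrArg QuadraticAlgebra.im hm
      simp at this
      linarith
    refine ⟨(τ.re, m.im), ?_, ?_⟩
    · have h2 : ab τ ≤ 4 * X / (n : ℝ) ^ 2 := by
        rw [le_div_iff₀ (by positivity)]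
        linarith
      have h3 : |(τ.re : ℝ)| ≤ Y1 := by
        refine (abs_re_le τ).trans ?_
        rw [hY1, show (4 * (1 + |(q.t : ℝ)|)) * X / (n : ℝ) ^ 2 =
          (1 + |(q.t : ℝ)|) * (4 * X / (n : ℝ) ^ 2) by ring]
        exact mul_le_mul_of_nonneg_left h2 (by positivity)
      have h4 : |(m.im : ℝ)| ≤ Y2 := by
        have h5 := (abs_im_le τ)
        have h6 : (2 : ℝ) * τ.im = n * m.im := by exact_mod_cast hm2
        have h7 : (n : ℝ) * |(m.im : ℝ)| = 2 * |(τ.im : ℝ)| := by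
          rw [← abs_of_pos hn0, ← abs_mul, ← h6, abs_mul]
          norm_num
        have h8 : (n : ℝ) * |(m.im : ℝ)| ≤ 16 * X / (n : ℝ) ^ 2 := by
          rw [h7, show 16 * X / (n : ℝ) ^ 2 = 4 * (4 * X / (n : ℝ) ^ 2) by ring]
          linarith
        rw [hY2, le_div_iff₀ (by positivity)]
        rw [le_div_iff₀ (by positivity)] at h8
        nlinarith
      exact Finset.mem_coe.2 (Finset.mem_product.2 ⟨habs _ _ h3, habs _ _ h4⟩)
    · apply QuadraticAlgebra.ext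
      · rfl
      · change (n : ℤ) * m.im / 2 = τ.im
        rw [← hm2]
        exact Int.mul_ediv_cancel_left _ (by norm_num)
  have hfin : (TT q n X).Finite := (Finset.finite_toSet _).subset hsub
  refine ⟨hfin, ?_⟩
  have h1 : (TT q n X).ncard ≤ B.card := by
    refine (Set.ncard_le_ncard hsub (Finset.finite_toSet _)).trans ?_
    rw [Set.ncard_coe_finset]
    exact Finset.card_image_le
  have hcard : ∀ Y : ℝ, 0 ≤ Y → ((Finset.Icc (-⌊Y⌋) ⌊Y⌋).card : ℝ) ≤ 1 + 2 * Y := by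
    intro Y hY
    rw [Int.card_Icc]
    have h2 : 0 ≤ ⌊Y⌋ := Int.floor_nonneg.2 hY
    have h3 : (((⌊Y⌋ + 1 - -⌊Y⌋).toNat : ℤ) : ℝ) = 2 * (⌊Y⌋ : ℝ) + 1 := by
      rw [Int.toNat_of_nonneg (by linarith)]
      push_cast; ring
    have h4 : (((⌊Y⌋ + 1 - -⌊Y⌋).toNat : ℕ) : ℝ) = 2 * (⌊Y⌋ : ℝ) + 1 := by
      rw [← h3]; norm_cast
    rw [h4]
    have := Int.floor_le Y
    linarith
  have h2 : ((TT q n X).ncard : ℝ) ≤ (B.card : ℝ) := by exact_mod_cast h1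
  refine h2.trans ?_
  rw [Finset.card_product, Nat.cast_mul]
  have e1 : 1 + 2 * Y1 ≤ 1 + (8 * (1 + |(q.t : ℝ)|) + 32) * X / (n : ℝ) ^ 2 := by
    rw [hY1]
    have : 0 ≤ 32 * X / (n : ℝ) ^ 2 := by positivity
    have e : (8 * (1 + |(q.t : ℝ)|) + 32) * X / (n : ℝ) ^ 2 =
      2 * ((4 * (1 + |(q.t : ℝ)|)) * X / (n : ℝ) ^ 2) + 32 * X / (n : ℝ) ^ 2 := by ring
    linarith
  have e2 : 1 + 2 * Y2 ≤ 1 + (8 * (1 + |(q.t : ℝ)|) + 32) * X / (n : ℝ) ^ 3 := by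
    rw [hY2]
    have : 0 ≤ 8 * (1 + |(q.t : ℝ)|) * X / (n : ℝ) ^ 3 := by positivity
    have e : (8 * (1 + |(q.t : ℝ)|) + 32) * X / (n : ℝ) ^ 3 =
      2 * (16 * X / (n : ℝ) ^ 3) + 8 * (1 + |(q.t : ℝ)|) * X / (n : ℝ) ^ 3 := by ring
    linarith
  exact mul_le_mul ((hcard _ hY1p).trans e1) ((hcard _ hY2p).trans e2) (by positivity)
    (by positivity)

end Pool.Agent.Lib.H80C
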