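import Pool.Agent.Lib.H80C.Defs

/-!
# WI: the norm of `w`
-/

namespace Pool.Agent.Lib.H80C

variable {q : QF}

/-- The norm of `w` (a Gram determinant) in terms of `c`, `τ`. (Adapt `Lib/H89D/WI.lean`.)

PROOF. `w star w = c star c (b star b + d star d) - b d (star c)² - star (b d) c²`. Insert
`b d = P ρ + c h`, `b star b = -P ρ - (a star c + star a c)`, `d star d = -P ρ - (e star c + star e c)`,
`a + e = n τ - h`: the terms with `h` cancel, and
`w star w = -P ρ (c + star c)² - n c star c (τ star c + star τ c)`; finally `c + star c = n ρ`. -/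
theorem w_identity {n P : ℕ} {M : M3 q} {ρ η : ℤ} {τ : OK q} (h : RelsM n P M ρ η τ) :
    nm (ww M) = -((n : ℤ) ^ 2 * P * ρ ^ 3) - n * nm (M 2 0) * tr (τ * star (M 2 0)) := by
  have h1 : ((nm (ww M) : ℤ) : OK q) = ww M * star (ww M) := nm_eq _
  have h2 : ((nm (M 2 0) : ℤ) : OK q) = M 2 0 * star (M 2 0) := nm_eq _
  have h3 : ((tr (τ * star (M 2 0)) : ℤ) : OK q) =
      τ * star (M 2 0) + star τ * M 2 0 := by
    rw [tr_eq, star_mul', star_star]
  have e1 := h.hρ
  have e1' := congrArg star h.hρ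
  have e2 := h.hc
  have e3 := h.ha
  have e4 := h.he
  have e5 := h.hτ
  have e5' := congrArg star h.hτ
  have h4 : ((nm (ww M) : ℤ) : OK q) = ((-((n : ℤ) ^ 2 * P * ρ ^ 3) -
      n * nm (M 2 0) * tr (τ * star (M 2 0)) : ℤ) : OK q) := by
    rw [h1]
    simp only [ww, star_sub, star_mul', star_star, star_add, star_intCast, star_natCast] at *
    rw [Int.cast_sub, Int.cast_neg, Int.cast_mul, Int.cast_mul, Int.cast_mul, Int.cast_mul,
      Int.cast_pow, Int.cast_pow, h2, h3, Int.cast_natCast, Int.cast_natCast]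
    linear_combination (-(star (M 2 0)) ^ 2) * e1 + (-(M 2 0) ^ 2) * e1' +
      (M 2 0 * star (M 2 0)) * e3 + (M 2 0 * star (M 2 0)) * e4 -
      (M 2 0 * star (M 2 0) ^ 2) * e5 - (M 2 0 ^ 2 * star (M 2 0)) * e5' -
      (P * ρ * (M 2 0 + star (M 2 0) + n * ρ)) * e2
  exact_mod_cast h4

end Pool.Agent.Lib.H80C
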