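import Pool.Agent.Lib.H80C.R2C
import Pool.Agent.Lib.H80C.WI

/-!
# WC: the number of `w` for given `c`, `τ`
-/

namespace Pool.Agent.Lib.H80C

variable {q : QF}

/-- The number of `w` for given `c`, `τ`. (Adapt `Lib/H89D/WC.lean`.)

PROOF. `ρ` is determined by `c` (`n ρ = c + star c`), so by `w_identity` all these `w` have the same
norm; and `n ab b, n ab c, n ab d ≤ H` give `ab w ≤ 2 H²`, norm at most `4 H⁴`. Apply `r2_eps` with
`ε / 4` to `4 H⁴`. -/
theorem w_count (q : QF) {ε : ℝ} (hε : 0 < ε) : ∃ C : ℝ, 0 < C ∧ ∀ (B : ℝ) (n P : ℕ) (H X : ℝ),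
    1 ≤ n → 1 ≤ H → ∀ c τ : OK q, {w : OK q | ∃ b a, PP B n P H X c τ w b a}.Finite ∧
      ({w : OK q | ∃ b a, PP B n P H X c τ w b a}.ncard : ℝ) ≤ C * H ^ ε := by
  obtain ⟨C, hC, hr⟩ := r2_eps q (ε := ε / 4) (by positivity)
  refine ⟨C * 4 ^ (ε / 4), by positivity, ?_⟩
  intro B n P H X hn hH c τ
  by_cases hem : {w : OK q | ∃ b a, PP B n P H X c τ w b a} = ∅
  · rw [hem]
    refine ⟨Set.finite_empty, ?_⟩
    simp
    positivity
  obtain ⟨w0, b0, a0, M0, ρ0, η0, hR0, -, -, hB0, -, hc0, hw0, -, -⟩ :=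
    Set.nonempty_iff_ne_empty.2 hem
  have hn0 : (n : OK q) ≠ 0 := by
    have : n ≠ 0 := by omega
    exact_mod_cast this
  have hH0 : (0:ℝ) < H := by linarith
  have hsub : {w : OK q | ∃ b a, PP B n P H X c τ w b a} ⊆ {w : OK q | nm w = nm w0} := by
    rintro w ⟨b, a, M, ρ, η, hR, -, -, -, -, hc, hw, -, -⟩
    have h1 := w_identity hR
    have h2 := w_identity hR0
    have hρ : ρ = ρ0 := by
      have h3 : (n : OK q) * ρ = n * ρ0 := by
        rw [← hR.hc, ← hR0.hc, hc, hc0]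
      have h4 := mul_left_cancel₀ hn0 h3
      exact_mod_cast h4
    rw [Set.mem_setOf_eq, ← hw, ← hw0, h1, h2, hρ, hc, hc0]
  have hn1 : (1:ℝ) ≤ n := by exact_mod_cast hn
  have hoff : ∀ i j, i ≠ j → ab (M0 i j) ≤ H := by
    intro i j hij
    have h1 := hB0 i j
    unfold gm at h1
    rw [Matrix.add_apply, Matrix.smul_apply, Matrix.one_apply_ne hij, smul_zero, zero_add,
      Matrix.smul_apply, smul_eq_mul, ab_mul, ab_natCast] at h1
    nlinarith [ab_nonneg (M0 i j)]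
  have hb : ab (M0 1 0) ≤ H := hoff 1 0 (by decide)
  have hc' : ab (M0 2 0) ≤ H := hoff 2 0 (by decide)
  have hd : ab (M0 2 1) ≤ H := hoff 2 1 (by decide)
  have hw : ab w0 ≤ 2 * H ^ 2 := by
    rw [← hw0]
    unfold ww
    refine (ab_sub_le _ _).trans ?_
    rw [ab_mul, ab_mul, ab_star, ab_star]
    nlinarith [ab_nonneg (M0 1 0), ab_nonneg (M0 2 0), ab_nonneg (M0 2 1)]
  have hnorm : ((nm w0 : ℤ) : ℝ) ≤ 4 * H ^ 4 := by
    rw [← ab_sq]
    have := pow_le_pow_left₀ (ab_nonneg w0) hw 2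
    nlinarith
  have h4 : (1:ℝ) ≤ 4 * H ^ 4 := by
    have := one_le_pow₀ hH (n := 4)
    linarith
  obtain ⟨hf, hcard⟩ := hr (4 * H ^ 4) h4 (nm w0) hnorm
  refine ⟨hf.subset hsub, ?_⟩
  have h5 : ({w : OK q | ∃ b a, PP B n P H X c τ w b a}.ncard : ℝ) ≤
      ({w : OK q | nm w = nm w0}.ncard : ℝ) := by
    exact_mod_cast Set.ncard_le_ncard hsub hf
  refine h5.trans (hcard.trans (le_of_eq ?_))
  rw [Real.mul_rpow (by norm_num) (by positivity), ← Real.rpow_natCast H 4, ← Real.rpow_mul hH0.le,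
    mul_assoc]
  congr 3
  push_cast
  ring

end Pool.Agent.Lib.H80C
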