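import Pool.Agent.Lib.H80C.FB
import Pool.Agent.Lib.H80C.WC
import Pool.Agent.Lib.H80C.TC
import Pool.Agent.Lib.H80C.INJ
import Pool.Agent.Lib.H80C.CS4

/-!
# N1: the number of elements of `SB`
-/

namespace Pool.Agent.Lib.H80C

variable {q : QF}

/-- a set as a finset, when it is finite -/
noncomputable def N1_fs {α : Type} (s : Set α) : Finset α := by
  classical exact if h : s.Finite then h.toFinset else ∅

lemma N1_mem {α : Type} {s : Set α} (h : s.Finite) (x : α) : x ∈ N1_fs s ↔ x ∈ s := by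
  unfold N1_fs
  rw [dif_pos h, Set.Finite.mem_toFinset]

lemma N1_card {α : Type} {s : Set α} (h : s.Finite) : (N1_fs s).card = s.ncard := by
  unfold N1_fs
  rw [dif_pos h, Set.ncard_eq_toFinset_card _ h]

lemma N1_rho {n : ℕ} (hn : 1 ≤ n) {c : OK q} {ρ : ℤ} (h : c + star c = n * ρ) :
    tr c = n * ρ ∧ rhoC n c = ρ.natAbs := by
  have h1 : tr c = n * ρ := by
    rw [← tr_eq] at h
    exact_mod_cast h
  refine ⟨h1, ?_⟩
  unfold rhoC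
  rw [h1, Int.mul_ediv_cancel_left _ (by omega)]

/-- The number of elements of `SB`. (Adapt `Lib/H89D/N1.lean`.)

PROOF. `M ↦ (c, τ, w, (b, a))` is injective on `SB` (`inj`; `c ≠ 0` since `n ρ = c + star c ≠ 0`), with
`c ∈ CC q n H` (`hc`, `Bdd`: entry `2 0` of `P + n M` is `n c`), `τ ∈ TT q n X` (`mem_TT`), `w` in the set of
`w_count` and `(b, a)` in the set of `fib`. So the number is at most
`∑_{c ∈ CC q n H} |TT q n X| C₁ H ^ δ C₂ (ct c) ^ (1 + δ) RS (ct c) |ρ| (H / (n ab c))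
 ≤ C H ^ (3 δ) (1 + K X / n²) (1 + K X / n³) H² / n³` by `csum` (with `δ = ε / 3`; if `CC q n H` is not
empty then `n ≤ H`). -/
theorem sb_count (q : QF) {ε B : ℝ} (hε : 0 < ε) (hB : 0 < B) : ∃ C : ℝ, 0 < C ∧
    ∀ n P : ℕ, 1 ≤ n → 1 ≤ P → Nat.Coprime n P → ∀ H X : ℝ, 1 ≤ H → (P : ℝ) ≤ X →
    (SB q B n P H X).Finite ∧
      ((SB q B n P H X).ncard : ℝ) ≤
        C * H ^ ε * ((1 + X / (n : ℝ) ^ 2) * (1 + X / (n : ℝ) ^ 3) * (H ^ 2 / (n : ℝ) ^ 3)) := by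
  classical
  obtain ⟨C1, hC1, H1⟩ := w_count q (ε := ε / 3) (by positivity)
  obtain ⟨C2, hC2, H2⟩ := fib q (ε := ε / 3) (B := B) (by positivity) hB
  obtain ⟨C3, hC3, H3⟩ := csum q (ε := ε / 3) (by positivity)
  obtain ⟨K, hK, HK⟩ := tau_count q
  refine ⟨C1 * C2 * C3 * (1 + K) ^ 2, by positivity, ?_⟩
  intro n P hn hP hcop H X hH hPX
  have hH0 : 0 < H := by linarith
  have hX0 : 0 ≤ X := le_trans (Nat.cast_nonneg _) hPX
  have hn1 : (1 : ℝ) ≤ n := by exact_mod_cast hn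
  by_cases hemp : SB q B n P H X = ∅
  · rw [hemp]
    refine ⟨Set.finite_empty, ?_⟩
    rw [Set.ncard_empty, Nat.cast_zero]
    positivity
  obtain ⟨M0, hM0⟩ := Set.nonempty_iff_ne_empty.2 hemp
  -- sizes
  have hsz : ∀ M ρ η τ, RelsM (q := q) n P M ρ η τ → ρ ≠ 0 → Bdd n P H M →
      M 2 0 ≠ 0 ∧ n * ab (M 2 0) ≤ H := by
    intro M ρ η τ hR hρ hB'
    constructor
    · intro h0
      have h1 := hR.hc
      rw [h0, star_zero, add_zero] at h1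
      rcases mul_eq_zero.1 h1.symm with h2 | h2
      · have h3 : n = 0 := by exact_mod_cast h2
        omega
      · exact hρ (by exact_mod_cast h2)
    · have h1 := hB' 2 0
      have h2 : gm n P M 2 0 = n * M 2 0 := by
        rw [gm, Matrix.add_apply, Matrix.smul_apply, Matrix.smul_apply,
          Matrix.one_apply_ne (by decide : (2 : Fin 3) ≠ 0)]
        simp only [smul_eq_mul, mul_zero, zero_add]
      rw [h2, ab_mul, ab_natCast] at h1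
      exact h1
  have hnH : (n : ℝ) ≤ H := by
    obtain ⟨ρ, η, τ, hR, hρ, -, hB', -⟩ := hM0
    obtain ⟨s1, s2⟩ := hsz M0 ρ η τ hR hρ hB'
    have hone := one_le_ab s1
    nlinarith
  -- the finsets
  set Cs := N1_fs (CC q n H) with hCs
  set Ts := N1_fs (TT q n X) with hTs
  have hCf := finite_CC (q := q) n hn H
  obtain ⟨hTf, hTc⟩ := HK n hn X hX0
  let Ws : OK q → OK q → Finset (OK q) := fun c τ => N1_fs {w : OK q | ∃ b a, PP B n P H X c τ w b a}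
  let Ps : OK q → OK q → OK q → Finset (OK q × OK q) := fun c τ w =>
    N1_fs {p : OK q × OK q | (∃ ρ : ℤ, ρ ≠ 0 ∧ c + star c = n * ρ) ∧ PP B n P H X c τ w p.1 p.2}
  let T : Finset ((_ : OK q) × (_ : OK q) × (_ : OK q) × (OK q × OK q)) :=
    Cs.sigma (fun c => Ts.sigma (fun τ => (Ws c τ).sigma (fun w => Ps c τ w)))
  let φ : M3 q → ((_ : OK q) × (_ : OK q) × (_ : OK q) × (OK q × OK q)) := fun M =>
    ⟨M 2 0, if h : ∃ τ, ∃ ρ η, RelsM n P M ρ η τ ∧ ρ ≠ 0 ∧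
        ab (M 1 0 + star (M 2 1)) ≤ B * n * |(ρ : ℝ)| then h.choose else 0, ww M,
      (M 1 0, M 0 0)⟩
  have hτ : ∀ M ∈ SB q B n P H X, ∃ τ ρ η, RelsM n P M ρ η τ ∧ ρ ≠ 0 ∧
      ab (M 1 0 + star (M 2 1)) ≤ B * n * |(ρ : ℝ)| ∧
      (if h : ∃ τ, ∃ ρ η, RelsM n P M ρ η τ ∧ ρ ≠ 0 ∧
        ab (M 1 0 + star (M 2 1)) ≤ B * n * |(ρ : ℝ)| then h.choose else 0) = τ := by
    intro M hM
    obtain ⟨ρ, η, τ, hR, hρ, hb, hB', hT'⟩ := hM
    have h : ∃ τ, ∃ ρ η, RelsM n P M ρ η τ ∧ ρ ≠ 0 ∧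
        ab (M 1 0 + star (M 2 1)) ≤ B * n * |(ρ : ℝ)| := ⟨τ, ρ, η, hR, hρ, hb⟩
    obtain ⟨ρ', η', hR', hρ', hb'⟩ := h.choose_spec
    exact ⟨h.choose, ρ', η', hR', hρ', hb', dif_pos h⟩
  have hBT : ∀ M ∈ SB q B n P H X, Bdd n P H M ∧ Tdd n P X M := by
    rintro M ⟨ρ, η, τ, hR, hρ, hb, hB', hT'⟩
    exact ⟨hB', hT'⟩
  have hPf : ∀ c τ w : OK q, {p : OK q × OK q | (∃ ρ : ℤ, ρ ≠ 0 ∧ c + star c = n * ρ) ∧
      PP B n P H X c τ w p.1 p.2}.Finite := by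
    intro c τ w
    by_cases h : ∃ ρ : ℤ, ρ ≠ 0 ∧ c + star c = n * ρ
    · obtain ⟨ρ, hρ, hcρ⟩ := h
      exact (H2 n P hn hP hcop H X hH c τ w ρ hρ hcρ).1.subset (fun p hp => hp.2)
    · refine Set.finite_empty.subset ?_
      rintro p ⟨h1, -⟩
      exact absurd h1 h
  have hmaps : ∀ M ∈ SB q B n P H X, φ M ∈ T := by
    intro M hM
    obtain ⟨τ, ρ, η, hR, hρ, hb, hτe⟩ := hτ M hM
    obtain ⟨hB', hT'⟩ := hBT M hM
    obtain ⟨s1, s2⟩ := hsz M ρ η τ hR hρ hB'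
    have hPP : PP B n P H X (M 2 0) τ (ww M) (M 1 0) (M 0 0) :=
      ⟨M, ρ, η, hR, hρ, hb, hB', hT', rfl, rfl, rfl, rfl⟩
    change (⟨M 2 0, if h : ∃ τ, ∃ ρ η, RelsM n P M ρ η τ ∧ ρ ≠ 0 ∧
        ab (M 1 0 + star (M 2 1)) ≤ B * n * |(ρ : ℝ)| then h.choose else 0, ww M,
      (M 1 0, M 0 0)⟩ : ((_ : OK q) × (_ : OK q) × (_ : OK q) × (OK q × OK q))) ∈ T
    rw [hτe]
    simp only [T, Finset.mem_sigma]
    refine ⟨?_, ?_, ?_, ?_⟩
    · rw [hCs, N1_mem hCf]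
      exact ⟨⟨ρ, hρ, hR.hc⟩, s2⟩
    · rw [hTs, N1_mem hTf]
      exact mem_TT hPX hR hT'
    · exact (N1_mem (H1 B n P H X hn hH _ _).1 _).2 ⟨_, _, hPP⟩
    · exact (N1_mem (hPf _ _ _) _).2 ⟨⟨ρ, hρ, hR.hc⟩, hPP⟩
  have hinj : Set.InjOn φ (SB q B n P H X) := by
    intro M hM M' hM' hMM
    obtain ⟨τ, ρ, η, hR, hρ, hb, hτe⟩ := hτ M hM
    obtain ⟨τ', ρ', η', hR', hρ', hb', hτe'⟩ := hτ M' hM'
    obtain ⟨s1, -⟩ := hsz M ρ η τ hR hρ (hBT M hM).1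
    have hMM2 : (⟨M 2 0, if h : ∃ τ, ∃ ρ η, RelsM n P M ρ η τ ∧ ρ ≠ 0 ∧
        ab (M 1 0 + star (M 2 1)) ≤ B * n * |(ρ : ℝ)| then h.choose else 0, ww M,
      (M 1 0, M 0 0)⟩ : ((_ : OK q) × (_ : OK q) × (_ : OK q) × (OK q × OK q))) =
      ⟨M' 2 0, if h : ∃ τ, ∃ ρ η, RelsM n P M' ρ η τ ∧ ρ ≠ 0 ∧
        ab (M' 1 0 + star (M' 2 1)) ≤ B * n * |(ρ : ℝ)| then h.choose else 0, ww M',
      (M' 1 0, M' 0 0)⟩ := hMM
    rw [hτe, hτe'] at hMM2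
    obtain ⟨q1, q2⟩ := Sigma.mk.inj hMM2
    obtain ⟨q3, q4⟩ := Sigma.mk.inj (eq_of_heq q2)
    obtain ⟨q5, q6⟩ := Sigma.mk.inj (eq_of_heq q4)
    obtain ⟨q7, q8⟩ := Prod.mk.inj (eq_of_heq q6)
    subst q3
    exact inj hn hR hR' q1 s1 q5 q7 q8
  have hfin : (SB q B n P H X).Finite :=
    Set.Finite.of_injOn (t := (T : Set _)) (fun M hM => Finset.mem_coe.2 (hmaps M hM)) hinj
      T.finite_toSet
  refine ⟨hfin, ?_⟩
  have hcard : (SB q B n P H X).ncard ≤ T.card := by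
    rw [← Set.ncard_coe_finset T]
    exact Set.ncard_le_ncard_of_injOn φ (fun M hM => Finset.mem_coe.2 (hmaps M hM)) hinj
      T.finite_toSet
  -- the sum
  have hsum : (T.card : ℝ) ≤ ∑ c ∈ Cs, (Ts.card : ℝ) * (C1 * H ^ (ε / 3) *
      (C2 * ((ct c : ℝ) ^ (1 + ε / 3) * H89D.RS (ct c) (rhoC n c) * (H / (n * ab c))))) := by
    simp only [T, Finset.card_sigma]
    push_cast
    apply Finset.sum_le_sum
    intro c hc
    rw [hCs, N1_mem hCf] at hc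
    obtain ⟨⟨ρ, hρ, hcρ⟩, hcX⟩ := hc
    obtain ⟨-, hrho⟩ := N1_rho hn hcρ
    rw [← nsmul_eq_mul, ← Finset.sum_const]
    apply Finset.sum_le_sum
    intro τ _
    obtain ⟨w1, w2⟩ := H1 B n P H X hn hH c τ
    have hw : ∀ w ∈ Ws c τ, ((Ps c τ w).card : ℝ) ≤
        C2 * ((ct c : ℝ) ^ (1 + ε / 3) * H89D.RS (ct c) (rhoC n c) * (H / (n * ab c))) := by
      intro w _
      obtain ⟨f1, f2⟩ := H2 n P hn hP hcop H X hH c τ w ρ hρ hcρ
      change ((N1_fs {p : OK q × OK q | (∃ ρ : ℤ, ρ ≠ 0 ∧ c + star c = n * ρ) ∧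
        PP B n P H X c τ w p.1 p.2}).card : ℝ) ≤ _
      rw [N1_card (hPf c τ w), hrho]
      have hsub : ({p : OK q × OK q | (∃ ρ : ℤ, ρ ≠ 0 ∧ c + star c = n * ρ) ∧
        PP B n P H X c τ w p.1 p.2}.ncard : ℝ) ≤
        ({p : OK q × OK q | PP B n P H X c τ w p.1 p.2}.ncard : ℝ) := by
        have hs : {p : OK q × OK q | (∃ ρ : ℤ, ρ ≠ 0 ∧ c + star c = n * ρ) ∧
            PP B n P H X c τ w p.1 p.2} ⊆ {p : OK q × OK q | PP B n P H X c τ w p.1 p.2} :=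
          fun p hp => hp.2
        exact_mod_cast Set.ncard_le_ncard hs f1
      refine hsub.trans ?_
      calc _ ≤ _ := f2
        _ = _ := by ring
    have hnn : 0 ≤ C2 * ((ct c : ℝ) ^ (1 + ε / 3) * H89D.RS (ct c) (rhoC n c) * (H / (n * ab c))) := by
      have := ab_nonneg c
      positivity
    calc ∑ w ∈ Ws c τ, ((Ps c τ w).card : ℝ)
        ≤ ∑ _w ∈ Ws c τ,
          C2 * ((ct c : ℝ) ^ (1 + ε / 3) * H89D.RS (ct c) (rhoC n c) * (H / (n * ab c))) :=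
          Finset.sum_le_sum hw
      _ = ((Ws c τ).card : ℝ) *
          (C2 * ((ct c : ℝ) ^ (1 + ε / 3) * H89D.RS (ct c) (rhoC n c) * (H / (n * ab c)))) := by
          rw [Finset.sum_const, nsmul_eq_mul]
      _ ≤ C1 * H ^ (ε / 3) *
          (C2 * ((ct c : ℝ) ^ (1 + ε / 3) * H89D.RS (ct c) (rhoC n c) * (H / (n * ab c)))) := by
          apply mul_le_mul_of_nonneg_right _ hnn
          change ((N1_fs {w : OK q | ∃ b a, PP B n P H X c τ w b a}).card : ℝ) ≤ _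
          rw [N1_card w1]
          exact w2
  have hsum2 : (T.card : ℝ) ≤ (Ts.card : ℝ) * C1 * H ^ (ε / 3) * C2 *
      (C3 * H ^ (2 * (ε / 3)) * (H ^ 2 / (n : ℝ) ^ 3)) := by
    refine hsum.trans ?_
    have e : ∑ c ∈ Cs, (Ts.card : ℝ) * (C1 * H ^ (ε / 3) *
      (C2 * ((ct c : ℝ) ^ (1 + ε / 3) * H89D.RS (ct c) (rhoC n c) * (H / (n * ab c))))) =
      (Ts.card : ℝ) * C1 * H ^ (ε / 3) * C2 *
        ∑ c ∈ Cs, (ct c : ℝ) ^ (1 + ε / 3) * H89D.RS (ct c) (rhoC n c) * (H / (n * ab c)) := by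
      rw [Finset.mul_sum]
      apply Finset.sum_congr rfl
      intro c _
      ring
    rw [e]
    apply mul_le_mul_of_nonneg_left _ (by positivity)
    apply H3 n hn H hnH Cs
    intro c hc
    rwa [hCs, N1_mem hCf] at hc
  have hTcard : (Ts.card : ℝ) ≤ (1 + K * X / (n : ℝ) ^ 2) * (1 + K * X / (n : ℝ) ^ 3) := by
    rw [hTs, N1_card hTf]; exact hTc
  have hTcard2 : (Ts.card : ℝ) ≤
      (1 + K) ^ 2 * ((1 + X / (n : ℝ) ^ 2) * (1 + X / (n : ℝ) ^ 3)) := by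
    have hone : ∀ y : ℝ, 0 ≤ y → 1 + K * y ≤ (1 + K) * (1 + y) := by
      intro y hy
      nlinarith
    have h2 := hone (X / (n : ℝ) ^ 2) (by positivity)
    have h3 := hone (X / (n : ℝ) ^ 3) (by positivity)
    rw [← mul_div_assoc] at h2 h3
    have h4 : 0 ≤ X / (n : ℝ) ^ 2 := by positivity
    have h5 : 0 ≤ K * X / (n : ℝ) ^ 3 := by positivity
    calc (Ts.card : ℝ) ≤ (1 + K * X / (n : ℝ) ^ 2) * (1 + K * X / (n : ℝ) ^ 3) := hTcard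
      _ ≤ ((1 + K) * (1 + X / (n : ℝ) ^ 2)) * ((1 + K) * (1 + X / (n : ℝ) ^ 3)) :=
        mul_le_mul h2 h3 (by linarith) (by positivity)
      _ = _ := by ring
  have hpow : H ^ (ε / 3) * H ^ (2 * (ε / 3)) = H ^ ε := by
    rw [← Real.rpow_add hH0]; congr 1; ring
  have hc' : ((SB q B n P H X).ncard : ℝ) ≤ (T.card : ℝ) := by exact_mod_cast hcard
  calc ((SB q B n P H X).ncard : ℝ) ≤ (T.card : ℝ) := hc'
    _ ≤ (Ts.card : ℝ) * C1 * H ^ (ε / 3) * C2 *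
      (C3 * H ^ (2 * (ε / 3)) * (H ^ 2 / (n : ℝ) ^ 3)) := hsum2
    _ = (C1 * C2 * C3 * (H ^ (ε / 3) * H ^ (2 * (ε / 3))) * (H ^ 2 / (n : ℝ) ^ 3)) *
        (Ts.card : ℝ) := by ring
    _ ≤ (C1 * C2 * C3 * (H ^ (ε / 3) * H ^ (2 * (ε / 3))) * (H ^ 2 / (n : ℝ) ^ 3)) *
        ((1 + K) ^ 2 * ((1 + X / (n : ℝ) ^ 2) * (1 + X / (n : ℝ) ^ 3))) := by
        apply mul_le_mul_of_nonneg_left hTcard2 (by positivity)
    _ = C1 * C2 * C3 * (1 + K) ^ 2 * H ^ ε *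
        ((1 + X / (n : ℝ) ^ 2) * (1 + X / (n : ℝ) ^ 3) * (H ^ 2 / (n : ℝ) ^ 3)) := by
        rw [hpow]; ring

end Pool.Agent.Lib.H80C
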