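import Pool.Agent.Lib.H80C.Defs

/-!
# U1: unipotent elements
-/

namespace Pool.Agent.Lib.H80C

open Matrix

variable {q : QF}

lemma U1_adj (M : M3 q) : adjugate M = M * M - M.trace • M + (adjugate M).trace • (1 : M3 q) := by
  rw [Matrix.adjugate_fin_three, Matrix.trace_fin_three, Matrix.trace_fin_three]
  refine Matrix.ext fun i j => ?_
  fin_cases i <;> fin_cases j <;>
    simp [Matrix.mul_apply, Fin.sum_univ_three] <;> ring

lemma U1_e2 (M : M3 q) : 2 * (adjugate M).trace = M.trace ^ 2 - (M * M).trace := by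
  rw [Matrix.adjugate_fin_three, Matrix.trace_fin_three, Matrix.trace_fin_three,
    Matrix.trace_fin_three]
  simp [Matrix.mul_apply, Fin.sum_univ_three]
  ring

lemma U1_dl_sq (q : QF) : dl q * dl q = -((dd q : ℤ) : OK q) := by
  have h := dl_mul q
  rw [star_dl] at h
  linear_combination -h

lemma U1_two : (2 : OK q) ≠ 0 := by
  intro h
  have h1 : ((2 : ℕ) : OK q) = 0 := by exact_mod_cast h
  rw [Nat.cast_eq_zero] at h1
  omega

/-- Entries of `M` with `M² = 0`, `Mᴴ J = -J M`. (Compare `uni_rels` of `Lib/H89D/U1.lean`.)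

PROOF. `J M` is skew-Hermitian: `star c = -c`, `star h = -h`, `star g = -g`, `a = -star e`,
`b = -star d`, `f = -star k` (entries `a f g; b h k; c d e`). `M² = 0` gives trace zero (a nilpotent
element of a domain is zero; Mathlib `Matrix.isNilpotent_trace_of_isNilpotent`), and all `2 × 2` minors
vanish: the adjugate is `M² - (trace M) M + e₂(M) = e₂(M)`, and `2 e₂(M) = (trace M)² - trace M² = 0`. So
`g c = a e = -e star e`, `h c = b d = -d star d`, `g h = f k = -k star k`, `b e = k c`,
`h = star e - e = -e.im dl`. By `star_eq_neg` `2 c = c.im dl`, `2 g = g.im dl`, `2 h = h.im dl`, and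
`dl² = -dd q`. -/
theorem uni_rels {M : M3 q} (h1 : M * M = 0) (h2 : Mᴴ * JZ q = -(JZ q * M)) :
    star (M 2 0) = -M 2 0 ∧ star (M 0 2) = -M 0 2 ∧ star (M 1 1) = -M 1 1 ∧
      M 0 0 = -star (M 2 2) ∧ M 1 0 = -star (M 2 1) ∧ M 0 1 = -star (M 1 2) ∧
      (M 1 1).im = -2 * (M 2 2).im ∧ dd q * ((M 2 0).im * (M 0 2).im) = 4 * nm (M 2 2) ∧
      dd q * ((M 2 0).im * (M 1 1).im) = 4 * nm (M 2 1) ∧
      dd q * ((M 0 2).im * (M 1 1).im) = 4 * nm (M 1 2) ∧ M 1 0 * M 2 2 = M 1 2 * M 2 0 := by
  have htr : M.trace = 0 := by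
    have hn : IsNilpotent M := ⟨2, by rw [pow_two, h1]⟩
    exact (Matrix.isNilpotent_trace_of_isNilpotent hn).eq_zero
  have he2 : (adjugate M).trace = 0 := by
    have h3 := U1_e2 M
    rw [htr, h1, Matrix.trace_zero] at h3
    have h4 : (2 : OK q) * (adjugate M).trace = 0 := by rw [h3]; ring
    rcases mul_eq_zero.mp h4 with h5 | h5
    · exact absurd h5 U1_two
    · exact h5
  have hadj : adjugate M = 0 := by
    rw [U1_adj, h1, htr, he2]
    simp
  have ent : ∀ i j, (Mᴴ * JZ q) i j = (-(JZ q * M)) i j := fun i j => by rw [h2]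
  have s00 := ent 0 0
  have s01 := ent 0 1
  have s02 := ent 0 2
  have s11 := ent 1 1
  have s12 := ent 1 2
  have s22 := ent 2 2
  simp [JZ, Matrix.mul_apply, Matrix.vecMul, dotProduct, Fin.sum_univ_three] at s00 s01 s02 s11 s12 s22
  have ad : ∀ i j, (adjugate M) i j = 0 := fun i j => by rw [hadj]; rfl
  have a02 := ad 0 2
  have a11 := ad 1 1
  have a20 := ad 2 0
  have a10 := ad 1 0
  have a01 := ad 0 1
  have a00 := ad 0 0
  have a22 := ad 2 2
  rw [Matrix.adjugate_fin_three] at a02 a11 a20 a10 a01 a00 a22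
  simp at a02 a11 a20 a10 a01 a00 a22
  rw [Matrix.trace_fin_three] at htr
  have hc := s00
  have hh := s11
  have hg := s22
  have ha : M 0 0 = -star (M 2 2) := by rw [← star_neg, ← s02, star_star]
  have hb : M 1 0 = -star (M 2 1) := by rw [← star_neg, ← s01, star_star]
  have hf : M 0 1 = -star (M 1 2) := by rw [← star_neg, ← s12, star_star]
  have hprod : ∀ x y z : OK q, star x = -x → star y = -y → x * y + z * star z = 0 →
      dd q * (x.im * y.im) = 4 * nm z := by
    intro x y z hx hy hxy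
    have e1 := star_eq_neg hx
    have e2 := star_eq_neg hy
    have e3 := U1_dl_sq q
    have e4 := nm_eq z
    have : ((dd q * (x.im * y.im) : ℤ) : OK q) = ((4 * nm z : ℤ) : OK q) := by
      rw [Int.cast_mul, Int.cast_mul, Int.cast_mul, e4]
      push_cast
      linear_combination ((x.im : OK q) * (y.im : OK q)) * e3 + (2 * y) * e1 +
        ((x.im : OK q) * dl q) * e2 - 4 * hxy
    exact_mod_cast this
  refine ⟨hc, hg, hh, ha, hb, hf, ?_, ?_, ?_, ?_, ?_⟩
  · have h3 := congrArg QuadraticAlgebra.im htr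
    rw [ha] at h3
    simp at h3
    linarith
  · apply hprod _ _ _ hc hg
    have h3 := a11
    rw [ha] at h3
    linear_combination -h3
  · apply hprod _ _ _ hc hh
    have h3 := a20
    rw [hb] at h3
    linear_combination -h3
  · apply hprod _ _ _ hg hh
    have h3 := a02
    rw [hf] at h3
    linear_combination -h3
  · linear_combination -a10

end Pool.Agent.Lib.H80C
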