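import Pool.Agent.Lib.H80C.CA1
import Pool.Agent.Lib.H80C.N1
import Pool.Agent.Lib.H80C.U2

/-!
# CA2: the count for matrices
-/

namespace Pool.Agent.Lib.H80C

open Matrix

variable {q : QF}

lemma CA2_list {α β : Type*} (L : List β) (P : β → Set α) (B : ℕ)
    (h : ∀ D ∈ L, (P D).Finite ∧ (P D).ncard ≤ B) :
    {M | ∃ D ∈ L, M ∈ P D}.Finite ∧ {M | ∃ D ∈ L, M ∈ P D}.ncard ≤ L.length * B := by
  induction L with
  | nil => simp
  | cons D L ih =>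
    obtain ⟨h1, h2⟩ := ih (fun D' hD' => h D' (List.mem_cons_of_mem _ hD'))
    obtain ⟨h3, h4⟩ := h D List.mem_cons_self
    have he : {M | ∃ D' ∈ D :: L, M ∈ P D'} = P D ∪ {M | ∃ D' ∈ L, M ∈ P D'} := by
      ext M
      simp
    rw [he]
    refine ⟨h3.union h1, (Set.ncard_union_le _ _).trans ?_⟩
    rw [List.length_cons]
    calc (P D).ncard + {M | ∃ D' ∈ L, M ∈ P D'}.ncard ≤ B + L.length * B := Nat.add_le_add h4 h2
      _ = _ := by ring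

/-- **The count.** (Compare `Lib/H89D/CA2.lean`.)

PROOF. `dichotomy`. The unipotent elements: `n ab (M i j) ≤ H + P ≤ 2 H`, so `ab (M i j) ≤ Y := 2 H / n`; if
`Y ≥ 1`: `uni_count`, at most `C (2 H / n) ^ (2 + ε) ≤ C' H ^ ε H² / n²`; if `Y < 1` then `M = 0`
(`one_le_ab`): at most one. `ZS q n P`: at most two (`zs_count`). The others: for each of the eleven `D ∈ EL q`
(`EL_unitary`, entries of absolute value at most `K`, `EL_bound`) the elements with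
`cj D M ∈ SB q B n P (9 K² H) X` (`cj_bdd`, `cj_tdd`), `cj D` is injective, `sb_count`. -/
theorem count_all (q : QF) {ε : ℝ} (hε : 0 < ε) : ∃ C : ℝ, 0 < C ∧
    ∀ n P : ℕ, 1 ≤ n → 1 ≤ P → Nat.Coprime n P → ∀ H X : ℝ, (P : ℝ) ≤ H → (P : ℝ) ≤ X →
    {M : M3 q | Elt n P M ∧ Bdd n P H M ∧ Tdd n P X M}.Finite ∧
      ({M : M3 q | Elt n P M ∧ Bdd n P H M ∧ Tdd n P X M}.ncard : ℝ) ≤
        C * H ^ ε * (1 + H ^ 2 / (n : ℝ) ^ 2 +
          (1 + X / (n : ℝ) ^ 2) * (1 + X / (n : ℝ) ^ 3) * (H ^ 2 / (n : ℝ) ^ 3)) := by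
  obtain ⟨B, hB, hdi⟩ := dichotomy q
  obtain ⟨K, hK, hKE⟩ := EL_bound q
  obtain ⟨C1, hC1, h1⟩ := uni_count q hε
  obtain ⟨C2, hC2, h2⟩ := sb_count q hε hB
  refine ⟨C1 * (2 : ℝ) ^ (2 + ε) + C1 + 2 + 11 * (C2 * (9 * K ^ 2) ^ ε * (9 * K ^ 2) ^ 2),
    by positivity, fun n P hn hP hnP H X hPH hPX => ?_⟩
  have hP1 : (1 : ℝ) ≤ P := by exact_mod_cast hP
  have hH : 1 ≤ H := hP1.trans hPH
  have hX : 1 ≤ X := hP1.trans hPX
  have hH0 : 0 < H := by linarith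
  have hX0 : 0 < X := by linarith
  have hn' : (1 : ℝ) ≤ n := by exact_mod_cast hn
  have hn0 : (0 : ℝ) < n := by linarith
  have hK1 : 1 ≤ 9 * K ^ 2 := by nlinarith
  have hKH : 1 ≤ 9 * K ^ 2 * H := by nlinarith
  obtain ⟨hf1, hb1⟩ := h1 (max (2 * H / n) 1) (le_max_right _ _)
  obtain ⟨hf2, hb2⟩ := h2 n P hn hP hnP (9 * K ^ 2 * H) X hKH hPX
  obtain ⟨hf0, hb0⟩ := zs_count (q := q) (P := P) hn
  set L : List (M3 q) := EL q with hL
  set U : Set (M3 q) := {M : M3 q | M * M = 0 ∧ Mᴴ * JZ q = -(JZ q * M) ∧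
    ∀ i j, ab (M i j) ≤ max (2 * H / n) 1} with hU
  set S : Set (M3 q) := SB q B n P (9 * K ^ 2 * H) X with hS
  set PD : M3 q → Set (M3 q) := fun D => cj D ⁻¹' S with hPD
  have hPf : ∀ D ∈ L, (PD D).Finite ∧ (PD D).ncard ≤ S.ncard := by
    intro D hD
    have hinj := cj_injective (EL_unitary hD)
    refine ⟨hf2.preimage hinj.injOn, ?_⟩
    rw [← Set.ncard_image_of_injective _ hinj]
    exact Set.ncard_le_ncard (Set.image_preimage_subset _ _) hf2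
  obtain ⟨hf3, hb3⟩ := CA2_list L PD _ hPf
  have hsub : {M : M3 q | Elt n P M ∧ Bdd n P H M ∧ Tdd n P X M} ⊆
      U ∪ (ZS q n P ∪ {M | ∃ D ∈ L, M ∈ PD D}) := by
    rintro M ⟨hM, hBd, hT⟩
    rcases hdi n P hn hP hnP M hM with ⟨h3, h4⟩ | h3 | ⟨D, hD, ρ, η, τ, h3, h4, h5⟩
    · refine Or.inl ⟨h3, h4, fun i j => ?_⟩
      have h5 := hBd i j
      have h6 : (n : OK q) * M i j = gm n P M i j - (P : OK q) * (1 : M3 q) i j := by
        rw [gm, Matrix.add_apply, Matrix.smul_apply, Matrix.smul_apply, smul_eq_mul, smul_eq_mul]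
        ring
      have h7 : (n : ℝ) * ab (M i j) ≤ H + P := by
        rw [← ab_natCast (q := q) n, ← ab_mul, h6]
        refine (ab_sub_le _ _).trans (add_le_add h5 ?_)
        rw [ab_mul, ab_natCast]
        rcases eq_or_ne i j with rfl | hij
        · rw [Matrix.one_apply_eq, ab_one, mul_one]
        · rw [Matrix.one_apply_ne hij, ab_zero, mul_zero]; linarith
      refine le_max_of_le_left ?_
      rw [le_div_iff₀ hn0]
      linarith
    · exact Or.inr (Or.inl h3)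
    · refine Or.inr (Or.inr ⟨D, hD, ⟨ρ, η, τ, h3, h4, h5, ?_, ?_⟩⟩)
      · exact cj_bdd (EL_unitary hD) (fun i j => hKE D hD i j) hBd
      · exact cj_tdd (EL_unitary hD) hT
  have hfin : (U ∪ (ZS q n P ∪ {M | ∃ D ∈ L, M ∈ PD D})).Finite := hf1.union (hf0.union hf3)
  refine ⟨hfin.subset hsub, ?_⟩
  have h8 : L.length = 11 := rfl
  rw [h8] at hb3
  have h9 : ({M : M3 q | Elt n P M ∧ Bdd n P H M ∧ Tdd n P X M}.ncard : ℝ) ≤
      U.ncard + (2 + 11 * S.ncard) := by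
    have := (Set.ncard_le_ncard hsub hfin).trans
      ((Set.ncard_union_le _ _).trans (Nat.add_le_add_left ((Set.ncard_union_le _ _).trans
        (Nat.add_le_add hb0 hb3)) _))
    exact_mod_cast this
  have hHe : 1 ≤ H ^ ε := Real.one_le_rpow hH hε.le
  have hHe0 : 0 < H ^ ε := by linarith
  have hw : 0 ≤ (1 + X / (n : ℝ) ^ 2) * (1 + X / (n : ℝ) ^ 3) * (H ^ 2 / (n : ℝ) ^ 3) := by
    positivity
  set W := (1 + X / (n : ℝ) ^ 2) * (1 + X / (n : ℝ) ^ 3) * (H ^ 2 / (n : ℝ) ^ 3) with hW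
  have h10 : (U.ncard : ℝ) ≤ C1 * (2 : ℝ) ^ (2 + ε) * (H ^ ε * (H ^ 2 / (n : ℝ) ^ 2)) +
      C1 * H ^ ε := by
    refine hb1.trans ?_
    have hp : (2 * H / n) ^ (2 + ε) ≤ (2 : ℝ) ^ (2 + ε) * (H ^ ε * (H ^ 2 / (n : ℝ) ^ 2)) := by
      rw [mul_div_assoc, Real.mul_rpow (by norm_num) (by positivity),
        Real.rpow_add (by positivity : (0 : ℝ) < H / n), Real.rpow_two, div_pow]
      have h12 : (H / n) ^ ε ≤ H ^ ε :=
        Real.rpow_le_rpow (by positivity) (div_le_self hH0.le hn') hε.le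
      have h13 : (0 : ℝ) ≤ H ^ 2 / (n : ℝ) ^ 2 := by positivity
      have h14 : (0 : ℝ) ≤ (2 : ℝ) ^ (2 + ε) := by positivity
      refine mul_le_mul_of_nonneg_left ?_ h14
      rw [mul_comm]
      exact mul_le_mul_of_nonneg_right h12 h13
    have hm : (max (2 * H / n) 1 : ℝ) ^ (2 + ε) ≤ (2 * H / n) ^ (2 + ε) + 1 := by
      rcases le_total (2 * H / n) 1 with h | h
      · rw [max_eq_right h, Real.one_rpow]
        have : (0 : ℝ) ≤ (2 * H / n) ^ (2 + ε) := by positivity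
        linarith
      · rw [max_eq_left h]
        linarith
    calc C1 * (max (2 * H / n) 1 : ℝ) ^ (2 + ε)
        ≤ C1 * ((2 : ℝ) ^ (2 + ε) * (H ^ ε * (H ^ 2 / (n : ℝ) ^ 2)) + H ^ ε) :=
          mul_le_mul_of_nonneg_left (by linarith) hC1.le
      _ = _ := by ring
  have h11 : (S.ncard : ℝ) ≤ C2 * (9 * K ^ 2) ^ ε * (9 * K ^ 2) ^ 2 * (H ^ ε * W) := by
    refine hb2.trans (le_of_eq ?_)
    rw [Real.mul_rpow (by positivity) hH0.le, hW]
    ring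
  have h12 : 0 ≤ H ^ 2 / (n : ℝ) ^ 2 := by positivity
  have hc1 : 0 ≤ C1 * (2 : ℝ) ^ (2 + ε) := by positivity
  have hc2 : 0 ≤ C2 * (9 * K ^ 2) ^ ε * (9 * K ^ 2) ^ 2 := by positivity
  generalize C1 * (2 : ℝ) ^ (2 + ε) = c1 at *
  generalize C2 * (9 * K ^ 2) ^ ε * (9 * K ^ 2) ^ 2 = c2 at *
  generalize H ^ 2 / (n : ℝ) ^ 2 = V at *
  have e0 : (c1 + C1 + 2 + 11 * c2) * H ^ ε * (1 + V + W) =
      (c1 * (H ^ ε * V) + C1 * H ^ ε) + (2 * H ^ ε + 11 * (c2 * (H ^ ε * W))) +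
      H ^ ε * ((c1 + 11 * c2) + (C1 + 2 + 11 * c2) * V + (c1 + C1 + 2) * W) := by ring
  have e1 : 0 ≤ H ^ ε * ((c1 + 11 * c2) + (C1 + 2 + 11 * c2) * V + (c1 + C1 + 2) * W) := by
    positivity
  rw [e0]
  linarith

end Pool.Agent.Lib.H80C
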