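import Pool.Agent.Lib.H80C.CA2
import Pool.Agent.Lib.H89D.CE
import Pool.Agent.Lib.H56.Gen.LevelGroup

/-!
# BR: the count for the principal congruence subgroups, general order
-/

namespace Pool.Agent.Lib.H80C

open Matrix
open Pool.Agent.Lib.H56.Gen (QD el Gam GamN el_re el_im sd OO)
open Pool.Agent.Lib.H56.Picard (mat SU21)

/-- The parameters of the order in the notation of this folder. -/
def qf (q : QD) : QF := ⟨q.t, q.n, q.pos⟩

/-- PROOF. Both sides are `a + b ω`. -/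
theorem toC_el (q : QD) (a b : ℤ) : toC (qf q) ⟨a, b⟩ = el q a b := by
  apply Complex.ext
  · rw [toC_re, el_re]
    rfl
  · rw [toC_im, el_im]
    rfl

/-- Elements of `Γ(n)` as matrices over the order. (Compare `exists_M3` of `Lib/H89D/TR.lean`.)

PROOF. `mat g i j - δ_ij = n x_ij` with `x_ij = el q u v`; put `M i j = ⟨u, v⟩`. The equations hold since
`toC` is an injective homomorphism compatible with `star` (`mat g` is unitary for `J`: see
`Pool.Agent.Lib.H56.Picard.mat_unitary`, and has determinant one). -/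
theorem exists_M3 (q : QD) {n : ℕ} {g : Gam q} (hg : g ∈ GamN q (n : ℂ)) :
    ∃ M : M3 (qf q), Elt n 1 M ∧ ∀ i j, mat g.1 i j = toC (qf q) (gm n 1 M i j) := by
  have h1 : ∀ i j, ∃ z : OK (qf q), mat g.1 i j - (1 : Matrix (Fin 3) (Fin 3) ℂ) i j =
      n * toC (qf q) z := by
    intro i j
    obtain ⟨x, ⟨u, v, rfl⟩, hx⟩ := hg i j
    refine ⟨⟨u, v⟩, ?_⟩
    rw [hx, toC_el]
  choose M hM using h1
  have h2 : ∀ i j, mat g.1 i j = toC (qf q) (gm n 1 (Matrix.of M) i j) := by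
    intro i j
    have h3 := hM i j
    rw [gm, Matrix.add_apply, Matrix.smul_apply, Matrix.smul_apply, Matrix.of_apply, map_add,
      smul_eq_mul, smul_eq_mul, map_mul, map_mul, map_natCast, map_natCast, ← h3]
    have h4 : toC (qf q) ((1 : M3 (qf q)) i j) = (1 : Matrix (Fin 3) (Fin 3) ℂ) i j := by
      rcases eq_or_ne i j with rfl | h
      · rw [Matrix.one_apply_eq, Matrix.one_apply_eq, map_one]
      · rw [Matrix.one_apply_ne h, Matrix.one_apply_ne h, map_zero]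
    rw [h4]
    push_cast
    ring
  refine ⟨Matrix.of M, ?_, h2⟩
  set G : M3 (qf q) := gm n 1 (Matrix.of M) with hG
  have hf : Function.Injective (toC (qf q)) := toC_injective
  have h5 : mat g.1 = G.map (toC (qf q)) := by
    ext i j
    rw [Matrix.map_apply]
    exact h2 i j
  have h6 : (Pool.Agent.Lib.H56.Picard.J : Matrix (Fin 3) (Fin 3) ℂ) =
      (JZ (qf q)).map (toC (qf q)) := by
    ext i j
    fin_cases i <;> fin_cases j <;> simp [JZ, Pool.Agent.Lib.H56.Picard.J]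
  have h7 : (G.map (toC (qf q)))ᴴ = Gᴴ.map (toC (qf q)) := by
    ext i j
    rw [Matrix.conjTranspose_apply, Matrix.map_apply, Matrix.map_apply,
      Matrix.conjTranspose_apply, toC_star]
  constructor
  · have h8 := Pool.Agent.Lib.H56.Picard.mat_unitary g.1
    rw [h5, h6, h7, ← Matrix.map_mul, ← Matrix.map_mul] at h8
    have h9 := Matrix.map_injective hf h8
    rw [← hG, h9]
    simp
  · have h8 := g.1.2.2
    have h9 : (mat g.1).det = 1 := h8
    rw [h5] at h9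
    have h10 : toC (qf q) G.det = (G.map (toC (qf q))).det :=
      RingHom.map_det _ _
    rw [← h10] at h9
    apply hf
    rw [← hG, h9, map_pow, map_natCast]
    simp

/-- **COUNT** for every imaginary quadratic order.

PROOF. `exists_M3` gives an injection into the set of `count_all` with `P = 1`, `H = T`, `X = 3 T`; and
`1 + T² / n² + (1 + 3 T / n²) (1 + 3 T / n³) T² / n³ ≤ 3 T² + 6 T³ / n⁴ + 9 T⁴ / n⁸ ≤ 15 (T² + T⁴ / n⁸)`
(`n ≥ 1`, `T ≥ 1`; `2 T³ / n⁴ ≤ T² + T⁴ / n⁸`). -/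
theorem count_gam (q : QD) : H89D.Count q := by
  intro ε hε
  obtain ⟨C, hC, h⟩ := count_all (qf q) hε
  refine ⟨C * 15, by positivity, fun n hn T hT => ?_⟩
  obtain ⟨hfin, hcard⟩ := h n 1 hn le_rfl (Nat.coprime_one_right n) T (3 * T) (by simpa using hT)
    (by push_cast; linarith)
  have hex : ∀ g : Gam q, ∃ M : M3 (qf q), g ∈ GamN q (n : ℂ) → Elt n 1 M ∧
      ∀ i j, mat g.1 i j = toC (qf q) (gm n 1 M i j) := by
    intro g
    by_cases hg : g ∈ GamN q (n : ℂ)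
    · obtain ⟨M, hM⟩ := exists_M3 q hg
      exact ⟨M, fun _ => hM⟩
    · exact ⟨0, fun h => absurd h hg⟩
  choose F hF using hex
  have hmaps : ∀ g ∈ {g : Gam q | g ∈ GamN q (n : ℂ) ∧ g ≠ 1 ∧ ∀ i j, ‖mat g.1 i j‖ ≤ T},
      F g ∈ {M : M3 (qf q) | Elt n 1 M ∧ Bdd n 1 T M ∧ Tdd n 1 (3 * T) M} := by
    rintro g ⟨hg, -, hb⟩
    obtain ⟨h1, h2⟩ := hF g hg
    have h3 : ∀ i j, ab (gm n 1 (F g) i j) ≤ T := by
      intro i j
      unfold ab
      rw [← h2]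
      exact hb i j
    refine ⟨h1, h3, ?_⟩
    unfold Tdd
    rw [Matrix.trace_fin_three]
    have h4 := ab_add_le (gm n 1 (F g) 0 0 + gm n 1 (F g) 1 1) (gm n 1 (F g) 2 2)
    have h5 := ab_add_le (gm n 1 (F g) 0 0) (gm n 1 (F g) 1 1)
    have h6 := h3 0 0
    have h7 := h3 1 1
    have h8 := h3 2 2
    linarith
  have hinj : Set.InjOn F {g : Gam q | g ∈ GamN q (n : ℂ) ∧ g ≠ 1 ∧ ∀ i j, ‖mat g.1 i j‖ ≤ T} := by
    rintro g ⟨hg, -⟩ g' ⟨hg', -⟩ hgg
    obtain ⟨-, h2⟩ := hF g hg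
    obtain ⟨-, h2'⟩ := hF g' hg'
    apply Subtype.ext
    apply Pool.Agent.Lib.H56.Picard.mat_injective
    ext i j
    rw [h2, h2', hgg]
  refine ⟨hfin.of_injOn hmaps hinj, le_trans ?_ (le_trans hcard ?_)⟩
  · exact_mod_cast Set.ncard_le_ncard_of_injOn F hmaps hinj hfin
  · have hn1 : (1 : ℝ) ≤ n := by exact_mod_cast hn
    have hn0 : (0 : ℝ) < n := by linarith
    have hT0 : (0 : ℝ) < T := by linarith
    have hTe : 0 ≤ C * T ^ ε := by positivity
    have key : (1 + T ^ 2 / (n : ℝ) ^ 2 +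
        (1 + 3 * T / (n : ℝ) ^ 2) * (1 + 3 * T / (n : ℝ) ^ 3) * (T ^ 2 / (n : ℝ) ^ 3)) ≤
        15 * (T ^ 2 + T ^ 4 / (n : ℝ) ^ 8) := by
      set y : ℝ := 1 / (n : ℝ) with hy
      have hy0 : 0 < y := by positivity
      have hy1 : y ≤ 1 := by
        rw [hy, div_le_one hn0]; exact hn1
      have e2 : T ^ 2 / (n : ℝ) ^ 2 = T ^ 2 * y ^ 2 := by rw [hy]; field_simp
      have e3 : 3 * T / (n : ℝ) ^ 2 = 3 * T * y ^ 2 := by rw [hy]; field_simp
      have e4 : 3 * T / (n : ℝ) ^ 3 = 3 * T * y ^ 3 := by rw [hy]; field_simp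
      have e5 : T ^ 2 / (n : ℝ) ^ 3 = T ^ 2 * y ^ 3 := by rw [hy]; field_simp
      have e6 : T ^ 4 / (n : ℝ) ^ 8 = T ^ 4 * y ^ 8 := by rw [hy]; field_simp
      rw [e2, e3, e4, e5, e6]
      have p2 : y ^ 2 ≤ 1 := pow_le_one₀ hy0.le hy1
      have p3 : y ^ 3 ≤ 1 := pow_le_one₀ hy0.le hy1
      have p5 : y ^ 5 ≤ y ^ 4 := pow_le_pow_of_le_one hy0.le hy1 (by norm_num)
      have p6 : y ^ 6 ≤ y ^ 4 := pow_le_pow_of_le_one hy0.le hy1 (by norm_num)
      have a1 : 1 ≤ T ^ 2 := one_le_pow₀ hT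
      have a2 : T ^ 2 * y ^ 2 ≤ T ^ 2 := by nlinarith [sq_nonneg T]
      have a3 : T ^ 2 * y ^ 3 ≤ T ^ 2 := by nlinarith [sq_nonneg T]
      have a4 : T ^ 3 * y ^ 5 ≤ T ^ 3 * y ^ 4 := mul_le_mul_of_nonneg_left p5 (by positivity)
      have a5 : T ^ 3 * y ^ 6 ≤ T ^ 3 * y ^ 4 := mul_le_mul_of_nonneg_left p6 (by positivity)
      have a6 : 2 * (T ^ 3 * y ^ 4) ≤ T ^ 2 + T ^ 4 * y ^ 8 := by
        nlinarith [sq_nonneg (T - T ^ 2 * y ^ 4)]
      have e7 : (1 + 3 * T * y ^ 2) * (1 + 3 * T * y ^ 3) * (T ^ 2 * y ^ 3) =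
          T ^ 2 * y ^ 3 + 3 * (T ^ 3 * y ^ 5) + 3 * (T ^ 3 * y ^ 6) + 9 * (T ^ 4 * y ^ 8) := by ring
      rw [e7]
      have a8 : 0 ≤ T ^ 4 * y ^ 8 := by positivity
      linarith
    calc C * T ^ ε * _ ≤ C * T ^ ε * (15 * (T ^ 2 + T ^ 4 / (n : ℝ) ^ 8)) :=
          mul_le_mul_of_nonneg_left key hTe
      _ = C * 15 * T ^ ε * (T ^ 2 + T ^ 4 / (n : ℝ) ^ 8) := by ring

end Pool.Agent.Lib.H80C
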