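import Pool.Agent.Lib.H80C.Defs

/-!
# AC: the number of `a` for given `b` and `c`
-/

namespace Pool.Agent.Lib.H80C

variable {q : QF}

theorem AC_gcd {N r x y : ℤ} (hx : N ∣ r * x) (hy : N ∣ r * y) : N ∣ r * (Int.gcd x y : ℤ) := by
  rw [Int.gcd_eq_gcd_ab, mul_add, ← mul_assoc, ← mul_assoc]
  exact dvd_add (hx.mul_right _) (hy.mul_right _)

/-- if `r z` is divisible by the integer `N`, then `N ∣ r ct z` -/
theorem AC_ct {N r : ℤ} {z u : OK q} (h : (r : OK q) * z = N * u) : N ∣ r * (ct z : ℤ) := by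
  have h1 := congrArg QuadraticAlgebra.re h
  have h2 := congrArg QuadraticAlgebra.im h
  simp [QuadraticAlgebra.re_mul, QuadraticAlgebra.im_mul] at h1 h2
  apply AC_gcd
  · exact ⟨u.re, h1⟩
  · exact ⟨u.im, h2⟩

theorem AC_int {Z : ℝ} (hZ : 0 ≤ Z) : {s : ℤ | |(s : ℝ)| ≤ Z}.Finite ∧
    ({s : ℤ | |(s : ℝ)| ≤ Z}.ncard : ℝ) ≤ 1 + 2 * Z := by
  have h1 : {s : ℤ | |(s : ℝ)| ≤ Z} = ↑(Finset.Icc (-⌊Z⌋) ⌊Z⌋) := by
    ext s
    rw [Set.mem_ofPred_eq, Finset.coe_Icc, Set.mem_Icc, abs_le, Int.le_floor]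
    constructor
    · rintro ⟨h1, h2⟩
      refine ⟨?_, h2⟩
      have : -s ≤ ⌊Z⌋ := by
        rw [Int.le_floor]
        push_cast
        linarith
      linarith
    · rintro ⟨h1, h2⟩
      refine ⟨?_, h2⟩
      have : -s ≤ ⌊Z⌋ := by linarith
      rw [Int.le_floor] at this
      push_cast at this
      linarith
  rw [h1]
  refine ⟨Finset.finite_toSet _, ?_⟩
  rw [Set.ncard_coe_finset, Int.card_Icc]
  have h2 : 0 ≤ ⌊Z⌋ := Int.floor_nonneg.2 hZ
  have h3 : ((⌊Z⌋ + 1 - -⌊Z⌋).toNat : ℝ) = 2 * (⌊Z⌋ : ℝ) + 1 := by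
    have : (((⌊Z⌋ + 1 - -⌊Z⌋).toNat : ℤ) : ℝ) = ((⌊Z⌋ + 1 - -⌊Z⌋ : ℤ) : ℝ) := by
      rw [Int.toNat_of_nonneg (by omega)]
    push_cast at this
    rw [this]
    ring
  rw [h3]
  have := Int.floor_le Z
  linarith

/-- The number of `a` for given `b`, `c`, `d`. (Adapt `a_count` of `Lib/H89D/AC.lean`.)

PROOF. Fix an element `a₁` of the set (with `f₁`, `k₁`). For another element `a` put `β = a - a₁`,
`ab β ≤ 2 Y`: `β star c + star β c = 0`, so (`star_eq_neg`) `2 β star c = y dl` with an integer `y`;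
`β d = c (f - f₁)`, `β b = c (k - k₁)`. Let `N = nm c = c star c`. Then `y dl c = 2 N β`,
`y dl d = 2 N (f - f₁)`, `y dl b = 2 N (k - k₁)`; multiply by `star dl`: with `D = dd q` the integer
`2 N` divides `y D c`, `y D d`, `y D b` in the order, hence divides `y D` times their coordinates and so
`y D μ`, `μ = gcd` of the contents: `y D μ = 2 N s`, and
`2 N D μ β = D μ y dl c = 2 N s dl c`, i.e. `D μ β = s dl c`. Hence
`|s| = D μ ab β / (√D ab c) ≤ 2 D Y μ / ab c` (`ab dl = √D ≥ 1`), so at most `1 + 4 D Y μ / ab c` values of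
`s`, and `a ↦ s` is injective. -/
theorem a_count (b c d : OK q) (hc : c ≠ 0) (R D B : OK q) (a₀ : OK q) (Y : ℝ) (hY : 0 ≤ Y) :
    {a : OK q | ab (a - a₀) ≤ Y ∧ a * star c + star a * c = R ∧ (∃ f, a * d - c * f = D) ∧
      ∃ k, a * b - c * k = B}.Finite ∧
    ({a : OK q | ab (a - a₀) ≤ Y ∧ a * star c + star a * c = R ∧ (∃ f, a * d - c * f = D) ∧
      ∃ k, a * b - c * k = B}.ncard : ℝ) ≤
      1 + 4 * dd q * Y * (Nat.gcd (Nat.gcd (ct b) (ct c)) (ct d) : ℕ) / ab c := by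
  obtain ⟨S, hS⟩ : ∃ S : Set (OK q), S = {a : OK q | ab (a - a₀) ≤ Y ∧ a * star c + star a * c = R ∧
    (∃ f, a * d - c * f = D) ∧ ∃ k, a * b - c * k = B} := ⟨_, rfl⟩
  rw [← hS]
  obtain ⟨μ, hμ⟩ : ∃ μ : ℕ, μ = Nat.gcd (Nat.gcd (ct b) (ct c)) (ct d) := ⟨_, rfl⟩
  rw [← hμ]
  have hcab : 0 < ab c := ab_pos hc
  have hctc : ct c ≠ 0 := ct_ne_zero hc
  have hμ0 : μ ≠ 0 := by
    rw [hμ]
    intro h
    rw [Nat.gcd_eq_zero_iff, Nat.gcd_eq_zero_iff] at h
    exact hctc h.1.2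
  have hDpos : (0 : ℝ) < dd q := by exact_mod_cast dd_pos q
  rcases S.eq_empty_or_nonempty with h0 | ⟨a₁, ha₁⟩
  · rw [h0]
    refine ⟨Set.finite_empty, ?_⟩
    rw [Set.ncard_empty, Nat.cast_zero]
    positivity
  have hN0 : (nm c : ℤ) ≠ 0 := fun h => hc (nm_eq_zero.1 h)
  have hNc : ((nm c : ℤ) : OK q) = c * star c := nm_eq c
  have hdl := dl_mul q
  -- the integer `s`
  have key : ∀ a ∈ S, ∃ s : ℤ, ((dd q : ℤ) : OK q) * μ * (a - a₁) = dl q * s * c := by
    intro a ha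
    rw [hS] at ha ha₁
    obtain ⟨-, h1, ⟨f, h2⟩, k, h3⟩ := ha
    obtain ⟨-, h1', ⟨f₀, h2'⟩, k₀, h3'⟩ := ha₁
    have e1 : star ((a - a₁) * star c) = -((a - a₁) * star c) := by
      rw [star_mul', star_star, star_sub]
      linear_combination h1 - h1'
    obtain ⟨r, hr⟩ : ∃ r : ℤ, 2 * ((a - a₁) * star c) = (r : ℤ) * dl q := ⟨_, star_eq_neg e1⟩
    have e4 : (((r * dd q : ℤ)) : OK q) * c = ((2 * nm c : ℤ) : OK q) * (star (dl q) * (a - a₁)) := by
      push_cast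
      rw [← hdl, hNc]
      linear_combination -c * star (dl q) * hr
    have e5 : (((r * dd q : ℤ)) : OK q) * d = ((2 * nm c : ℤ) : OK q) * (star (dl q) * (f - f₀)) := by
      have e6 : (a - a₁) * d = c * (f - f₀) := by linear_combination h2 - h2'
      push_cast
      rw [← hdl, hNc]
      linear_combination -d * star (dl q) * hr + 2 * star c * star (dl q) * e6
    have e7 : (((r * dd q : ℤ)) : OK q) * b = ((2 * nm c : ℤ) : OK q) * (star (dl q) * (k - k₀)) := by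
      have e6 : (a - a₁) * b = c * (k - k₀) := by linear_combination h3 - h3'
      push_cast
      rw [← hdl, hNc]
      linear_combination -b * star (dl q) * hr + 2 * star c * star (dl q) * e6
    have e8 : (2 * nm c : ℤ) ∣ (r * dd q) * (μ : ℤ) := by
      rw [hμ, ← Int.gcd_natCast_natCast]
      apply AC_gcd
      · rw [← Int.gcd_natCast_natCast]
        exact AC_gcd (AC_ct e7) (AC_ct e4)
      · exact AC_ct e5
    obtain ⟨s, hs⟩ := e8
    refine ⟨s, ?_⟩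
    have hN0' : ((2 * nm c : ℤ) : OK q) ≠ 0 := by
      have : (2 * nm c : ℤ) ≠ 0 := mul_ne_zero two_ne_zero hN0
      exact_mod_cast this
    apply mul_left_cancel₀ hN0'
    have hs' : ((r : OK q) * (dd q : ℤ)) * μ = ((2 * nm c : ℤ) : OK q) * s := by
      exact_mod_cast congrArg (Int.cast : ℤ → OK q) hs
    push_cast at hs' ⊢
    rw [hNc] at hs' ⊢
    linear_combination (((dd q : ℤ) : OK q) * μ * c) * hr + c * dl q * hs'
  choose! s hs using key
  have hZ : 0 ≤ 2 * dd q * Y * μ / ab c := by positivity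
  obtain ⟨hf, hn⟩ := AC_int hZ
  have hmaps : ∀ a ∈ S, s a ∈ {s : ℤ | |(s : ℝ)| ≤ 2 * dd q * Y * μ / ab c} := by
    intro a ha
    have h1 := congrArg ab (hs a ha)
    rw [ab_mul, ab_mul, ab_mul, ab_mul, ab_natCast, ab_intCast, ab_intCast] at h1
    have h2 : 1 ≤ ab (dl q) := by
      apply one_le_ab
      intro h
      have := congrArg QuadraticAlgebra.im h
      simp [dl] at this
    have h3 : ab (a - a₁) ≤ 2 * Y := by
      have h4 := ab_sub_le (a - a₀) (a₁ - a₀)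
      have h5 : a - a₀ - (a₁ - a₀) = a - a₁ := by ring
      rw [h5] at h4
      rw [hS] at ha ha₁
      linarith [ha.1, ha₁.1]
    rw [abs_of_pos hDpos] at h1
    rw [Set.mem_ofPred_eq, le_div_iff₀ hcab]
    have h6 : (0 : ℝ) ≤ μ := Nat.cast_nonneg _
    have h7 : (0 : ℝ) ≤ |(s a : ℝ)| * ab c := by positivity
    calc |(s a : ℝ)| * ab c = 1 * (|(s a : ℝ)| * ab c) := by ring
      _ ≤ ab (dl q) * (|(s a : ℝ)| * ab c) := mul_le_mul_of_nonneg_right h2 h7
      _ = dd q * μ * ab (a - a₁) := by rw [h1]; ring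
      _ ≤ dd q * μ * (2 * Y) := mul_le_mul_of_nonneg_left h3 (by positivity)
      _ = 2 * dd q * Y * μ := by ring
  have hinj : Set.InjOn s S := by
    intro a ha a' ha' h
    have h1 := hs a ha
    have h2 := hs a' ha'
    rw [h, ← h2] at h1
    have hμ0' : (((dd q : ℤ) : OK q) * μ) ≠ 0 := by
      apply mul_ne_zero
      · have := (dd_pos q).ne'
        exact_mod_cast this
      · exact_mod_cast hμ0
    have h3 := mul_left_cancel₀ hμ0' h1
    exact sub_left_injective h3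
  refine ⟨Set.Finite.of_injOn hmaps hinj hf, ?_⟩
  have h1 := Set.ncard_le_ncard_of_injOn s hmaps hinj hf
  calc (S.ncard : ℝ) ≤ _ := by exact_mod_cast h1
    _ ≤ 1 + 2 * (2 * dd q * Y * μ / ab c) := hn
    _ = 1 + 4 * dd q * Y * μ / ab c := by ring

end Pool.Agent.Lib.H80C
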