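import Pool.Agent.Lib.H80C.R2C

/-!
# CQ: circles modulo `m`
-/

namespace Pool.Agent.Lib.H80C

variable {q : QF}

/-- The congruence `dd q * (nm κ + tr (κ α)) = 0` modulo `m`, in terms of the residues `(x, y)` of
the coordinates of `κ = x + y ω`. -/
def Circ (q : QF) (m : ℕ) (α : OK q) : Set (ZMod m × ZMod m) :=
  {p | ((dd q : ℤ) : ZMod m) * (p.1 ^ 2 + (q.t : ZMod m) * p.1 * p.2 + (q.n : ZMod m) * p.2 ^ 2 +
    (tr α : ZMod m) * p.1 + (tr (om q * α) : ZMod m) * p.2) = 0}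

/-- PROOF. Expand: `nm κ = x² + t x y + n y²`, `tr (κ α) = x tr α + y tr (ω α)`. -/
theorem mem_circ {m : ℕ} {α κ : OK q} (h : (m : ℤ) ∣ dd q * (nm κ + tr (κ * α))) :
    ((κ.re : ZMod m), (κ.im : ZMod m)) ∈ Circ q m α := by
  have h1 : tr (κ * α) = κ.re * tr α + κ.im * tr (om q * α) := by
    unfold tr om
    simp only [QuadraticAlgebra.re_mul, QuadraticAlgebra.im_mul]
    ring
  rw [h1, ← ZMod.intCast_zmod_eq_zero_iff_dvd] at h
  show ((dd q : ℤ) : ZMod m) * ((κ.re : ZMod m) ^ 2 + (q.t : ZMod m) * (κ.re : ZMod m) * (κ.im : ZMod m) +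
    (q.n : ZMod m) * (κ.im : ZMod m) ^ 2 + (tr α : ZMod m) * (κ.re : ZMod m) +
    (tr (om q * α) : ZMod m) * (κ.im : ZMod m)) = 0
  rw [← h]
  unfold nm
  push_cast
  ring

/-- Number of residues on a circle. (Adapt `circle_count` of `Lib/H89D/CQ.lean`.)

PROOF. With `star α = (u', v')` (coordinates) the translation `(x, y) ↦ (x + u', y + v')` maps the set
to `{dd q * (x² + t x y + n y²) = r}` in `ZMod m`, `r = dd q * nm α`, because
`nm (κ + star α) = nm κ + tr (κ α) + nm α`. For a pair take the representatives `0 ≤ x, y < m`,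
`0 ≤ r < m`: `dd q * nm (x + y ω) = r + m k` with an integer `k`; `nm ≥ 0` gives `k ≥ 0` and
`nm (x + y ω) ≤ (1 + |t| + |n|) m²` gives `k ≤ K₁ m` with `K₁ = dd q (1 + |t| + |n|)`. For each of the at
most `2 K₁ m` values of `k` the number of `(x, y)` is at most the number of elements of the order of norm
`(r + m k) / dd q ≤ K₂ m²`, which by `r2_eps` (with `ε / 2`) is at most `C (K₂ m²) ^ (ε / 2)`. -/
theorem circle_count (q : QF) {ε : ℝ} (hε : 0 < ε) : ∃ C : ℝ, 0 < C ∧ ∀ m : ℕ, 1 ≤ m →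
    ∀ α : OK q, ((Circ q m α).ncard : ℝ) ≤ C * (m : ℝ) ^ (1 + ε) := by
  classical
  obtain ⟨C, hC, hr⟩ := r2_eps q (show 0 < ε / 2 by linarith)
  have hD := dd_pos q
  obtain ⟨K, hK⟩ : ∃ K : ℕ, (K : ℤ) = dd q * (1 + |q.t| + |q.n|) := by
    refine ⟨(dd q * (1 + |q.t| + |q.n|)).toNat, Int.toNat_of_nonneg ?_⟩
    have := abs_nonneg q.t
    have := abs_nonneg q.n
    positivity
  have hK1 : 1 ≤ K := by
    have h1 := abs_nonneg q.t
    have h2 := abs_nonneg q.n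
    have : (1 : ℤ) ≤ K := by rw [hK]; nlinarith
    exact_mod_cast this
  have hK1r : (1 : ℝ) ≤ K := by exact_mod_cast hK1
  refine ⟨2 * K * C * (2 * K : ℝ) ^ (ε / 2), by positivity, ?_⟩
  intro m hm α
  have hne : NeZero m := ⟨by omega⟩
  obtain ⟨r, hrdef⟩ : ∃ r : ℕ, r = (((dd q * nm α : ℤ)) : ZMod m).val := ⟨_, rfl⟩
  have hrq : r < m := by rw [hrdef]; exact ZMod.val_lt _
  have hqr : (1 : ℝ) ≤ m := by exact_mod_cast hm
  obtain ⟨T, hT⟩ : ∃ T : ℕ → Set (OK q), ∀ k, T k = {w : OK q | dd q * nm w = (r + m * k : ℤ)} :=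
    ⟨_, fun _ => rfl⟩
  have hX : (1 : ℝ) ≤ 2 * K * (m : ℝ) ^ 2 := by nlinarith
  have hTb : ∀ k ∈ Finset.range (K * m + 1), (T k).Finite ∧
      ((T k).ncard : ℝ) ≤ C * (2 * K * (m : ℝ) ^ 2) ^ (ε / 2) := by
    intro k hk
    rw [Finset.mem_range] at hk
    have hsub : T k ⊆ {w : OK q | nm w = (r + m * k : ℤ) / dd q} := by
      intro w hw
      rw [hT, Set.mem_ofPred_eq] at hw
      rw [Set.mem_ofPred_eq, ← hw, Int.mul_ediv_cancel_left _ hD.ne']
    have hXk : (((r + m * k : ℤ) / dd q : ℤ) : ℝ) ≤ 2 * K * (m : ℝ) ^ 2 := by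
      have h1 : (r + m * k : ℤ) / dd q ≤ (r + m * k : ℤ) := Int.ediv_le_self _ (by positivity)
      have h2 : (((r + m * k : ℤ) / dd q : ℤ) : ℝ) ≤ (r : ℝ) + m * k := by exact_mod_cast h1
      have h3 : (k : ℝ) ≤ K * m := by exact_mod_cast (by omega : k ≤ K * m)
      have h4 : (r : ℝ) ≤ m := by exact_mod_cast hrq.le
      nlinarith
    obtain ⟨h1, h2⟩ := hr _ hX _ hXk
    refine ⟨h1.subset hsub, ?_⟩
    exact le_trans (by exact_mod_cast Set.ncard_le_ncard hsub h1) h2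
  have hU : (⋃ k ∈ Finset.range (K * m + 1), T k).Finite :=
    Set.Finite.biUnion (Finset.finite_toSet _) (fun k hk => (hTb k hk).1)
  obtain ⟨u', hu'⟩ : ∃ u' : ZMod m, u' = ((star α).re : ZMod m) := ⟨_, rfl⟩
  obtain ⟨v', hv'⟩ : ∃ v' : ZMod m, v' = ((star α).im : ZMod m) := ⟨_, rfl⟩
  -- the map
  have hmaps : ∀ p ∈ Circ q m α,
      (⟨(p.1 + u').val, (p.2 + v').val⟩ : OK q) ∈ ⋃ k ∈ Finset.range (K * m + 1), T k := by
    rintro ⟨x, y⟩ hp
    have hp' : ((dd q : ℤ) : ZMod m) * (x ^ 2 + (q.t : ZMod m) * x * y + (q.n : ZMod m) * y ^ 2 +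
        (tr α : ZMod m) * x + (tr (om q * α) : ZMod m) * y) = 0 := hp
    obtain ⟨u, hu⟩ : ∃ u : ℕ, u = (x + u').val := ⟨_, rfl⟩
    obtain ⟨v, hv⟩ : ∃ v : ℕ, v = (y + v').val := ⟨_, rfl⟩
    have huq : u < m := by rw [hu]; exact ZMod.val_lt _
    have hvq : v < m := by rw [hv]; exact ZMod.val_lt _
    have hnm : nm (⟨(u : ℤ), (v : ℤ)⟩ : OK q) = (u : ℤ) ^ 2 + q.t * (u * v) + q.n * (v : ℤ) ^ 2 := rfl
    have h1 : (m : ℤ) ∣ dd q * nm (⟨(u : ℤ), (v : ℤ)⟩ : OK q) - r := by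
      rw [← ZMod.intCast_zmod_eq_zero_iff_dvd, hnm]
      push_cast
      rw [hu, hv, hrdef, ZMod.natCast_zmod_val, ZMod.natCast_zmod_val, ZMod.natCast_zmod_val,
        hu', hv']
      unfold tr om at hp'
      unfold nm
      simp only [QuadraticAlgebra.re_mul, QuadraticAlgebra.im_mul, QuadraticAlgebra.re_star,
        QuadraticAlgebra.im_star] at hp' ⊢
      push_cast at hp' ⊢
      linear_combination hp'
    obtain ⟨k, hk⟩ := h1
    have hq0 : (0 : ℤ) < m := by exact_mod_cast hm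
    have hnn := nm_nonneg (⟨(u : ℤ), (v : ℤ)⟩ : OK q)
    have hk0 : 0 ≤ k := by
      by_contra hcon
      push Not at hcon
      have h2 : (m : ℤ) * k ≤ m * (-1) := mul_le_mul_of_nonneg_left (by omega) hq0.le
      have h3 : (r : ℤ) < m := by exact_mod_cast hrq
      have h4 : 0 ≤ dd q * nm (⟨(u : ℤ), (v : ℤ)⟩ : OK q) := mul_nonneg hD.le hnn
      linarith
    have hkK : k ≤ K * m := by
      have h2 : nm (⟨(u : ℤ), (v : ℤ)⟩ : OK q) ≤ (1 + |q.t| + |q.n|) * (m : ℤ) ^ 2 := by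
        rw [hnm]
        have h3 : (0 : ℤ) ≤ u := Nat.cast_nonneg _
        have h4 : (0 : ℤ) ≤ v := Nat.cast_nonneg _
        have h5 : (u : ℤ) ≤ m := by exact_mod_cast huq.le
        have h6 : (v : ℤ) ≤ m := by exact_mod_cast hvq.le
        have h7 : (u : ℤ) ^ 2 ≤ (m : ℤ) ^ 2 := pow_le_pow_left₀ h3 h5 2
        have h8 : (v : ℤ) ^ 2 ≤ (m : ℤ) ^ 2 := pow_le_pow_left₀ h4 h6 2
        have h9 : (u : ℤ) * v ≤ (m : ℤ) ^ 2 := by
          rw [sq]
          exact mul_le_mul h5 h6 h4 hq0.le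
        have h10 : q.t * (u * v) ≤ |q.t| * (m : ℤ) ^ 2 :=
          mul_le_mul (le_abs_self _) h9 (mul_nonneg h3 h4) (abs_nonneg _)
        have h11 : q.n * (v : ℤ) ^ 2 ≤ |q.n| * (m : ℤ) ^ 2 :=
          mul_le_mul (le_abs_self _) h8 (by positivity) (abs_nonneg _)
        linarith
      have h3 : (m : ℤ) * k ≤ m * (K * m) := by
        have h4 := mul_le_mul_of_nonneg_left h2 hD.le
        have h5 : (0 : ℤ) ≤ r := Nat.cast_nonneg _
        rw [hK]
        nlinarith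
      exact le_of_mul_le_mul_left h3 hq0
    obtain ⟨k, rfl⟩ := Int.eq_ofNat_of_zero_le hk0
    rw [Set.mem_iUnion₂]
    refine ⟨k, ?_, ?_⟩
    · rw [Finset.mem_range]
      have : (k : ℤ) ≤ ((K * m : ℕ) : ℤ) := by push_cast; exact hkK
      have : k ≤ K * m := by exact_mod_cast this
      omega
    · rw [hT, Set.mem_ofPred_eq]
      show dd q * nm (⟨(((x + u').val : ℕ) : ℤ), (((y + v').val : ℕ) : ℤ)⟩ : OK q) = _
      rw [← hu, ← hv]
      linarith
  have hinj : Set.InjOn (fun p : ZMod m × ZMod m => (⟨(p.1 + u').val, (p.2 + v').val⟩ : OK q))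
      (Circ q m α) := by
    intro p _ p' _ h
    have h1 : ((p.1 + u').val : ℤ) = ((p'.1 + u').val : ℤ) := congrArg QuadraticAlgebra.re h
    have h2 : ((p.2 + v').val : ℤ) = ((p'.2 + v').val : ℤ) := congrArg QuadraticAlgebra.im h
    have h3 : (p.1 + u').val = (p'.1 + u').val := by exact_mod_cast h1
    have h4 : (p.2 + v').val = (p'.2 + v').val := by exact_mod_cast h2
    have h5 := add_right_cancel (ZMod.val_injective m h3)
    have h6 := add_right_cancel (ZMod.val_injective m h4)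
    exact Prod.ext h5 h6
  have h1 := Set.ncard_le_ncard_of_injOn _ hmaps hinj hU
  have h2 : ((⋃ k ∈ Finset.range (K * m + 1), T k).ncard : ℝ) ≤
      ∑ k ∈ Finset.range (K * m + 1), ((T k).ncard : ℝ) := by
    exact_mod_cast Finset.set_ncard_biUnion_le _ _
  have h3 : ((⋃ k ∈ Finset.range (K * m + 1), T k).ncard : ℝ) ≤
      ((K * m + 1 : ℕ) : ℝ) * (C * (2 * K * (m : ℝ) ^ 2) ^ (ε / 2)) := by
    refine h2.trans ((Finset.sum_le_sum fun m hm => (hTb m hm).2).trans (le_of_eq ?_))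
    rw [Finset.sum_const, Finset.card_range, nsmul_eq_mul]
  have h4 : (2 * K * (m : ℝ) ^ 2) ^ (ε / 2) = (2 * K : ℝ) ^ (ε / 2) * (m : ℝ) ^ ε := by
    rw [Real.mul_rpow (by positivity) (by positivity), ← Real.rpow_natCast, ← Real.rpow_mul (by positivity)]
    congr 2
    push_cast
    ring
  calc ((Circ q m α).ncard : ℝ) ≤ ((⋃ k ∈ Finset.range (K * m + 1), T k).ncard : ℝ) := by exact_mod_cast h1
    _ ≤ ((K * m + 1 : ℕ) : ℝ) * (C * (2 * K * (m : ℝ) ^ 2) ^ (ε / 2)) := h3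
    _ ≤ (2 * K * (m : ℝ)) * (C * ((2 * K : ℝ) ^ (ε / 2) * (m : ℝ) ^ ε)) := by
      rw [h4]
      apply mul_le_mul_of_nonneg_right _ (by positivity)
      push_cast
      nlinarith
    _ = 2 * K * C * (2 * K : ℝ) ^ (ε / 2) * (m : ℝ) ^ (1 + ε) := by
      rw [Real.rpow_add (by positivity), Real.rpow_one]
      ring

end Pool.Agent.Lib.H80C
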