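import Pool.Agent.Lib.H80C.Defs
import Pool.Agent.Lib.H89D.LAT

/-!
# LAT: elements of the order in a disc with given residues
-/

namespace Pool.Agent.Lib.H80C

/-- Elements in a disc with residues in `S`. (Adapt `lat2` of `Lib/H89D/LAT.lean`; `lat1` there is
about integers and can be cited.)

PROOF. `|z.re| ≤ (1 + |t|) ab z`, `|z.im| ≤ 2 ab z` (`abs_re_le`, `abs_im_le`); for each of the residue
pairs in `S` (a finite set) the number of `(z.re, z.im)` is at most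
`(2 (1 + |t|) Y / m + 1) (4 Y / m + 1) ≤ (K Y / m + 1)²`, `K = 4 (1 + |t|)`. -/
theorem lat2 (q : QF) : ∃ K : ℝ, 0 < K ∧ ∀ m : ℕ, 1 ≤ m → ∀ (S : Set (ZMod m × ZMod m)) (Y : ℝ),
    0 ≤ Y → {z : OK q | ab z ≤ Y ∧ ((z.re : ZMod m), (z.im : ZMod m)) ∈ S}.Finite ∧
      ({z : OK q | ab z ≤ Y ∧ ((z.re : ZMod m), (z.im : ZMod m)) ∈ S}.ncard : ℝ) ≤
        S.ncard * (K * Y / m + 1) ^ 2 := by
  classical
  refine ⟨4 * (1 + |(q.t : ℝ)|), by positivity, ?_⟩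
  intro m hm S Y hY
  have hne : NeZero m := ⟨by omega⟩
  have hS : S.Finite := Set.toFinite S
  obtain ⟨Z, hZ⟩ : ∃ Z : ℝ, Z = 2 * (1 + |(q.t : ℝ)|) * Y := ⟨_, rfl⟩
  have hZ0 : 0 ≤ Z := by rw [hZ]; positivity
  obtain ⟨K, hK⟩ : ∃ K : ℝ, K = 2 * Z / m + 1 := ⟨_, rfl⟩
  have hK' : 4 * (1 + |(q.t : ℝ)|) * Y / m + 1 = K := by rw [hK, hZ]; ring
  rw [hK']
  have h0 : 0 ≤ K := by rw [hK]; positivity
  obtain ⟨I, hI⟩ : ∃ I : ZMod m → Set ℤ, ∀ x, I x = {s : ℤ | |(s : ℝ)| ≤ Z ∧ (s : ZMod m) = x} :=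
    ⟨_, fun _ => rfl⟩
  have hIb : ∀ x, (I x).Finite ∧ ((I x).ncard : ℝ) ≤ K := by
    intro x
    rw [hI, hK]
    exact H89D.LAT_one m hm x Z hZ0
  obtain ⟨P, hP⟩ : ∃ P : ZMod m × ZMod m → Set (OK q),
      ∀ p, P p = {z : OK q | z.re ∈ I p.1 ∧ z.im ∈ I p.2} := ⟨_, fun _ => rfl⟩
  have hPb : ∀ p, (P p).Finite ∧ ((P p).ncard : ℝ) ≤ K ^ 2 := by
    intro p
    have hmaps : ∀ z ∈ P p, (z.re, z.im) ∈ (I p.1) ×ˢ (I p.2) := by
      intro z hz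
      rw [hP] at hz
      exact hz
    have hinj : Set.InjOn (fun z : OK q => (z.re, z.im)) (P p) := by
      intro z _ z' _ h
      have h1 : z.re = z'.re := congrArg Prod.fst h
      have h2 : z.im = z'.im := congrArg Prod.snd h
      exact QuadraticAlgebra.ext h1 h2
    have hf : ((I p.1) ×ˢ (I p.2)).Finite := (hIb _).1.prod (hIb _).1
    refine ⟨Set.Finite.of_injOn hmaps hinj hf, ?_⟩
    have h1 := Set.ncard_le_ncard_of_injOn _ hmaps hinj hf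
    rw [Set.ncard_prod] at h1
    calc ((P p).ncard : ℝ) ≤ ((I p.1).ncard * (I p.2).ncard : ℕ) := by exact_mod_cast h1
      _ = ((I p.1).ncard : ℝ) * (I p.2).ncard := by push_cast; ring
      _ ≤ K * K := mul_le_mul (hIb _).2 (hIb _).2 (Nat.cast_nonneg _) h0
      _ = _ := by ring
  have hsub : {z : OK q | ab z ≤ Y ∧ ((z.re : ZMod m), (z.im : ZMod m)) ∈ S} ⊆
      ⋃ p ∈ hS.toFinset, P p := by
    rintro z ⟨h1, h2⟩
    rw [Set.mem_iUnion₂]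
    refine ⟨_, (Set.Finite.mem_toFinset hS).2 h2, ?_⟩
    rw [hP, Set.mem_ofPred_eq, hI, hI]
    have ht := abs_nonneg (q.t : ℝ)
    have h3 := abs_re_le z
    have h4 := abs_im_le z
    have h5 : (1 + |(q.t : ℝ)|) * ab z ≤ (1 + |(q.t : ℝ)|) * Y :=
      mul_le_mul_of_nonneg_left h1 (by positivity)
    have h6 : 0 ≤ (1 + |(q.t : ℝ)|) * Y := by positivity
    have h7 : 2 * Y ≤ Z := by rw [hZ]; nlinarith
    have h8 : (1 + |(q.t : ℝ)|) * Y ≤ Z := by rw [hZ]; linarith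
    exact ⟨⟨by linarith, rfl⟩, ⟨by linarith, rfl⟩⟩
  have hU : (⋃ p ∈ hS.toFinset, P p).Finite :=
    Set.Finite.biUnion (Finset.finite_toSet _) fun p _ => (hPb p).1
  refine ⟨hU.subset hsub, ?_⟩
  have h1 := (Set.ncard_le_ncard hsub hU).trans (Finset.set_ncard_biUnion_le hS.toFinset P)
  calc _ ≤ ((∑ p ∈ hS.toFinset, (P p).ncard : ℕ) : ℝ) := by exact_mod_cast h1
    _ = ∑ p ∈ hS.toFinset, ((P p).ncard : ℝ) := by push_cast; rfl
    _ ≤ ∑ p ∈ hS.toFinset, K ^ 2 := Finset.sum_le_sum fun p _ => (hPb p).2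
    _ = S.ncard * K ^ 2 := by
      rw [Finset.sum_const, nsmul_eq_mul, Set.ncard_eq_toFinset_card _ hS]

end Pool.Agent.Lib.H80C
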