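import Pool.Agent.Lib.H80C.BD
import Pool.Agent.Lib.H80C.CQ
import Pool.Agent.Lib.H80C.LAT

/-!
# BC: the number of `b` for given `c` and `w`
-/

namespace Pool.Agent.Lib.H80C

variable {q : QF}

/-- PROOF. `c = ct c * c1` (`dvd_ct`) and `gcd (c1.re, c1.im) = 1`, so `u c1.re + v c1.im = 1`. -/
theorem prim {c : OK q} (hc : c ≠ 0) : ∃ (c1 : OK q) (u v : ℤ), c = ct c * c1 ∧
    u * c1.re + v * c1.im = 1 := by
  have hctc := ct_ne_zero hc
  obtain ⟨c1, hc1⟩ := dvd_ct.1 (dvd_refl (ct c))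
  refine ⟨c1, Int.gcdA c.re c.im, Int.gcdB c.re c.im, hc1, ?_⟩
  have h1 := Int.gcd_eq_gcd_ab c.re c.im
  have h2 : c.re = ct c * c1.re := by
    have := congrArg QuadraticAlgebra.re hc1
    simpa using this
  have h3 : c.im = ct c * c1.im := by
    have := congrArg QuadraticAlgebra.im hc1
    simpa using this
  have h4 : (ct c : ℤ) ≠ 0 := by exact_mod_cast hctc
  apply mul_left_cancel₀ h4
  have h5 : (Int.gcd c.re c.im : ℤ) = ct c := rfl
  rw [h5] at h1
  generalize Int.gcdA c.re c.im = u at *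
  generalize Int.gcdB c.re c.im = v at *
  linear_combination -h1 - u * h2 - v * h3

/-- PROOF. Put `A = (v - u star ω) star dl`. Then `A c1 + star (A c1) = dd q`: indeed
`(c1 - star c1) = c1.im dl`, `star ω c1 - ω star c1 = -c1.re dl`, `dl star dl = dd q`, and
`star A = (v - u ω) dl = (u ω - v) star dl`, so
`A c1 + star A star c1 = v (c1 - star c1) star dl - u (star ω c1 - ω star c1) star dl
= (v c1.im + u c1.re) dd q`. -/
theorem bez {c1 : OK q} {u v : ℤ} (h : u * c1.re + v * c1.im = 1) :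
    ∃ A : OK q, A * c1 + star (A * c1) = (dd q : ℤ) := by
  refine ⟨⟨v * q.t - u * q.t ^ 2 + 2 * u * q.n, -2 * v + u * q.t⟩, ?_⟩
  rw [← tr_eq]
  congr 1
  unfold tr dd
  rw [QuadraticAlgebra.re_mul, QuadraticAlgebra.im_mul]
  simp only
  linear_combination (4 * q.n - q.t ^ 2) * h

/-- PROOF. Put `κ = A β + star A star δ`, where `A` is as in `bez`. Then `dd β = (A c1 + star A star c1) β
= c1 (A β + star A star δ) = κ c1`, using `β star c1 = star δ c1`. And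
`dd star δ c1 = dd β star c1 = κ c1 star c1`, so `dd star δ = κ star c1`; conjugate. -/
theorem kappa {β δ c1 A : OK q} (hA : A * c1 + star (A * c1) = (dd q : ℤ)) (hc1 : c1 ≠ 0)
    (h : β * star c1 = star δ * c1) :
    ∃ κ : OK q, (dd q : ℤ) * β = κ * c1 ∧ (dd q : ℤ) * δ = star κ * c1 := by
  rw [star_mul'] at hA
  have e1 : ((dd q : ℤ) : OK q) * β = (A * β + star A * star δ) * c1 := by
    rw [← hA]
    linear_combination star A * h
  refine ⟨A * β + star A * star δ, e1, ?_⟩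
  generalize A * β + star A * star δ = κ at e1
  have e2 : ((dd q : ℤ) : OK q) * star δ = κ * star c1 := by
    apply mul_right_cancel₀ hc1
    linear_combination star c1 * e1 - ((dd q : ℤ) : OK q) * h
  have e3 := congrArg star e2
  rw [star_mul', star_mul', star_star, star_star, star_intCast] at e3
  exact e3

/-- PROOF. Multiply `h3` by `D²`, `D = dd q`; `D b = D b₀ + κ c1`, `D d = D d₀ + star κ c1` give
`μ₁ c1 (κ star κ c1 + D (κ d₀ + star κ b₀)) = D² q₁ c1 H`; cancel `c1`. Since `gcd (μ₁, q₁) = 1`, the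
bracket is divisible by `q₁` in the order (Bézout). Multiply by `A` and add the conjugate:
`D (nm κ + tr (κ (A d₀ + star A star b₀)))` is divisible by `q₁`
(`A c1 + star (A c1) = D`; `tr (A (κ d₀ + star κ b₀)) = tr (κ (A d₀ + star A star b₀))`). -/
theorem cong {b b₀ d d₀ c1 κ H A : OK q} (hA : A * c1 + star (A * c1) = (dd q : ℤ)) (hc1 : c1 ≠ 0)
    (h1 : (dd q : ℤ) * (b - b₀) = κ * c1) (h2 : (dd q : ℤ) * (d - d₀) = star κ * c1) {μ1 q1 : ℕ}
    (hco : Nat.Coprime μ1 q1) (h3 : (μ1 : OK q) * (b * d - b₀ * d₀) = q1 * c1 * H) :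
    (q1 : ℤ) ∣ dd q * (nm κ + tr (κ * (A * d₀ + star A * star b₀))) := by
  obtain ⟨D, hD⟩ : ∃ D : OK q, D = ((dd q : ℤ) : OK q) := ⟨_, rfl⟩
  have hDs : star D = D := by rw [hD, star_intCast]
  rw [← hD] at hA h1 h2
  have e1 : (μ1 : OK q) * (κ * star κ * c1 + D * (κ * d₀ + star κ * b₀)) = q1 * (D ^ 2 * H) := by
    apply mul_right_cancel₀ hc1
    have hb : D * b = D * b₀ + κ * c1 := by linear_combination h1
    have hd : D * d = D * d₀ + star κ * c1 := by linear_combination h2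
    have e2 : D ^ 2 * ((μ1 : OK q) * (b * d - b₀ * d₀)) = D ^ 2 * (q1 * c1 * H) := by rw [h3]
    have e3 : D ^ 2 * (b * d) = (D * b₀ + κ * c1) * (D * d₀ + star κ * c1) := by
      rw [← hb, ← hd]
      ring
    linear_combination e2 - (μ1 : OK q) * e3
  obtain ⟨u, v, huv⟩ : ∃ u v : ℤ, u * μ1 + v * q1 = 1 := by
    have := Nat.isCoprime_iff_coprime.2 hco
    exact this
  have huv' : (u : OK q) * μ1 + v * q1 = 1 := by
    exact_mod_cast congrArg (Int.cast : ℤ → OK q) huv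
  have e2 : κ * star κ * c1 + D * (κ * d₀ + star κ * b₀) =
      q1 * (u * (D ^ 2 * H) + v * (κ * star κ * c1 + D * (κ * d₀ + star κ * b₀))) := by
    linear_combination (u : OK q) * e1 - (κ * star κ * c1 + D * (κ * d₀ + star κ * b₀)) * huv'
  generalize u * (D ^ 2 * H) + v * (κ * star κ * c1 + D * (κ * d₀ + star κ * b₀)) = t at e2
  have e3 : A * (κ * star κ * c1 + D * (κ * d₀ + star κ * b₀)) +
      star (A * (κ * star κ * c1 + D * (κ * d₀ + star κ * b₀))) =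
      D * (κ * star κ + (κ * (A * d₀ + star A * star b₀) +
        star (κ * (A * d₀ + star A * star b₀)))) := by
    simp only [star_mul', star_add, star_star, hDs] at hA ⊢
    linear_combination κ * star κ * hA
  rw [e2] at e3
  have e4 : ((q1 * tr (A * t) : ℤ) : OK q) =
      ((dd q * (nm κ + tr (κ * (A * d₀ + star A * star b₀))) : ℤ) : OK q) := by
    push_cast
    rw [tr_eq, nm_eq, tr_eq, ← hD, ← e3, star_mul', star_mul', star_mul', star_natCast]
    ring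
  refine ⟨tr (A * t), ?_⟩
  exact_mod_cast e4.symm

/-- The number of `b` for given `c`, `w`, `r`, `μ`. (Adapt `b_count` of `Lib/H89D/BC.lean`.)

PROOF. Let `e = ct c ≥ 1`, `c = e c₁` (`prim`), `A` as in `bez`. Put `e' = e / μ`, `g = gcd (μ, e')`,
`μ = g μ₁`, `e' = g q₁`, `gcd (μ₁, q₁) = 1`. If the set is empty there is nothing to prove; otherwise fix
an element `b₁` with `d₁`, `h₁` and let `b` (with `d`, `h`) be another one; write `b = μ b'`, `d = μ d'`,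
and so on; `c = μ e' c₁`. From `(b - b₁) star c = star (d - d₁) c`:
`(b' - b₁') star c₁ = star (d' - d₁') c₁`; `kappa` gives `κ` with `dd q (b' - b₁') = κ c₁`,
`dd q (d' - d₁') = star κ c₁`. From `b d - b₁ d₁ = c (h - h₁)`:
`μ (b' d' - b₁' d₁') = e' c₁ (h - h₁)`, so `μ₁ (b' d' - b₁' d₁') = q₁ c₁ (h - h₁)` and by `cong`,
`mem_circ` the residues of `κ` modulo `q₁` lie in `Circ q q₁ α`, `α` depending only on `b₁`, `d₁`. By
`circle_count` at most `C q₁ ^ (1 + ε)` residues. And `ab κ = dd q ab (b' - b₁') / ab c₁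
≤ 2 dd q Y e' / ab c`, so `lat2` (modulus `q₁`, `e' = g q₁`) gives the factor
`(2 K dd q Y g / ab c + 1)² ≤ K' g² (1 + Y / ab c)²`. The map `b ↦ κ` is injective, and
`q₁ ^ (1 + ε) g² ≤ e' ^ (1 + ε) g`. -/
theorem b_count (q : QF) {ε : ℝ} (hε : 0 < ε) : ∃ C : ℝ, 0 < C ∧ ∀ c w : OK q, c ≠ 0 →
    ∀ (r : ℤ) (μ : ℕ), 1 ≤ μ → μ ∣ ct c → ∀ (b₀ : OK q) (Y : ℝ), 0 ≤ Y →
    (BS c w r μ b₀ Y).Finite ∧
    ((BS c w r μ b₀ Y).ncard : ℝ) ≤ C * ((ct c / μ : ℕ) : ℝ) ^ (1 + ε) * Nat.gcd μ (ct c / μ) *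
      (1 + Y / ab c) ^ 2 := by
  classical
  obtain ⟨C, hC, hcirc⟩ := circle_count q hε
  obtain ⟨K, hK, hlat⟩ := lat2 q
  have hDr : (1 : ℝ) ≤ (dd q : ℝ) := by
    have := three_le_dd q
    exact_mod_cast (by omega : (1 : ℤ) ≤ dd q)
  obtain ⟨K', hK'⟩ : ∃ K' : ℝ, K' = 1 + 2 * K * dd q := ⟨_, rfl⟩
  have hK'1 : 1 ≤ K' := by rw [hK']; nlinarith
  refine ⟨C * K' ^ 2, by positivity, ?_⟩
  intro c w hc r μ hμ hμc b₀ Y hY
  have hct := ct_ne_zero hc
  obtain ⟨c1, x, y, hc1, hxy⟩ := prim hc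
  obtain ⟨A, hA⟩ := bez hxy
  obtain ⟨e, he⟩ : ∃ e, e = ct c := ⟨_, rfl⟩
  rw [← he] at hct hc1 hμc ⊢
  obtain ⟨e', he'⟩ := hμc
  have hed : e / μ = e' := by
    rw [he', Nat.mul_div_cancel_left _ hμ]
  rw [hed]
  have he'0 : e' ≠ 0 := by
    rintro rfl
    exact hct (by rw [he', mul_zero])
  obtain ⟨g, hg⟩ : ∃ g, g = Nat.gcd μ e' := ⟨_, rfl⟩
  have hg0 : 0 < g := by
    rw [hg]
    exact Nat.gcd_pos_of_pos_left _ hμ
  obtain ⟨μ1, hμ1⟩ := Nat.gcd_dvd_left μ e'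
  obtain ⟨q1, hq1⟩ := Nat.gcd_dvd_right μ e'
  have hgcd := Nat.coprime_div_gcd_div_gcd (m := μ) (n := e') (by rw [← hg]; exact hg0)
  rw [← hg] at hμ1 hq1 hgcd ⊢
  have hco : Nat.Coprime μ1 q1 := by
    have f1 : μ / g = μ1 := by
      conv_lhs => rw [hμ1]
      exact Nat.mul_div_cancel_left _ hg0
    have f2 : e' / g = q1 := by
      conv_lhs => rw [hq1]
      exact Nat.mul_div_cancel_left _ hg0
    rwa [f1, f2] at hgcd
  have hq10 : 1 ≤ q1 := by
    rcases Nat.eq_zero_or_pos q1 with h | h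
    · rw [h, mul_zero] at hq1
      exact absurd hq1 he'0
    · exact h
  have hc10 : c1 ≠ 0 := by
    rintro rfl
    exact hc (by rw [hc1, mul_zero])
  have hμr : (0 : ℝ) < μ := by exact_mod_cast hμ
  have hab1 : 0 < ab c1 := ab_pos hc10
  have habc : ab c = e * ab c1 := by
    conv_lhs => rw [hc1]
    rw [ab_mul, ab_natCast]
  have habc0 : 0 < ab c := ab_pos hc
  rcases (BS c w r μ b₀ Y).eq_empty_or_nonempty with h0 | ⟨b₁, hb₁⟩
  · rw [h0]
    refine ⟨Set.finite_empty, ?_⟩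
    rw [Set.ncard_empty, Nat.cast_zero]
    positivity
  obtain ⟨hb₁Y, d₁, h₁, e1, e2, e3, e4⟩ := hb₁
  obtain ⟨b₁', hb₁'⟩ := dvd_ct.1 e3
  obtain ⟨d₁', hd₁'⟩ := dvd_ct.1 e4
  obtain ⟨α, hα⟩ : ∃ α : OK q, α = A * d₁' + star A * star b₁' := ⟨_, rfl⟩
  obtain ⟨S, hS⟩ : ∃ S : Set (ZMod q1 × ZMod q1), S = Circ q q1 α := ⟨_, rfl⟩
  have hScard : (S.ncard : ℝ) ≤ C * (q1 : ℝ) ^ (1 + ε) := by
    rw [hS]
    exact hcirc q1 hq10 α
  have hY' : 0 ≤ 2 * dd q * Y * e' / ab c := by positivity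
  obtain ⟨hfin, hcard⟩ := hlat q1 hq10 S (2 * dd q * Y * e' / ab c) hY'
  have hμ0 : (μ : OK q) ≠ 0 := by
    have : μ ≠ 0 := by omega
    exact_mod_cast this
  have hg0' : (g : OK q) ≠ 0 := by
    have : g ≠ 0 := by omega
    exact_mod_cast this
  have heZ : (e : OK q) = μ * e' := by exact_mod_cast congrArg (Nat.cast : ℕ → OK q) he'
  have hμZ : (μ : OK q) = g * μ1 := by exact_mod_cast congrArg (Nat.cast : ℕ → OK q) hμ1
  have he'Z : (e' : OK q) = g * q1 := by exact_mod_cast congrArg (Nat.cast : ℕ → OK q) hq1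
  have heZ0 : (e : OK q) ≠ 0 := by exact_mod_cast hct
  have hDZ : ((dd q : ℤ) : OK q) ≠ 0 := by
    have := dd_pos q
    exact_mod_cast this.ne'
  have key : ∀ b ∈ BS c w r μ b₀ Y, ∃ κ : OK q, (dd q : ℤ) * (b - b₁) = μ * κ * c1 ∧
      ab κ ≤ 2 * dd q * Y * e' / ab c ∧ ((κ.re : ZMod q1), (κ.im : ZMod q1)) ∈ S := by
    rintro b ⟨hbY, d, h, f1, f2, f3, f4⟩
    obtain ⟨b', hb'⟩ := dvd_ct.1 f3
    obtain ⟨d', hd'⟩ := dvd_ct.1 f4
    have g1 : (b' - b₁') * star c1 = star (d' - d₁') * c1 := by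
      apply mul_left_cancel₀ hμ0
      apply mul_left_cancel₀ heZ0
      have g2 : (b - b₁) * star c = star (d - d₁) * c := by
        rw [star_sub]
        linear_combination f2 - e2
      rw [hb', hb₁', hd', hd₁', hc1, star_mul', star_natCast] at g2
      rw [star_sub, star_mul', star_mul', star_natCast] at g2
      rw [star_sub]
      linear_combination g2
    obtain ⟨κ, k1, k2⟩ := kappa hA hc10 g1
    have g3 : (μ1 : OK q) * (b' * d' - b₁' * d₁') = q1 * c1 * (h - h₁) := by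
      apply mul_left_cancel₀ hg0'
      apply mul_left_cancel₀ hμ0
      have g4 : b * d - b₁ * d₁ = c * (h - h₁) := by linear_combination f1 - e1
      rw [hb', hb₁', hd', hd₁', hc1, heZ] at g4
      have g5 : (μ : OK q) * ((g : OK q) * ((μ1 : OK q) * (b' * d' - b₁' * d₁'))) =
          μ * (μ * (b' * d' - b₁' * d₁')) := by
        conv_rhs => rw [show (μ : OK q) * (μ * (b' * d' - b₁' * d₁')) =
          μ * ((g * μ1) * (b' * d' - b₁' * d₁')) by rw [← hμZ]]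
        ring
      have g6 : (μ : OK q) * ((g : OK q) * (q1 * c1 * (h - h₁))) = μ * (e' * c1 * (h - h₁)) := by
        rw [he'Z]
        ring
      rw [g5, g6]
      linear_combination g4
    refine ⟨κ, ?_, ?_, ?_⟩
    · rw [hb', hb₁']
      linear_combination (μ : OK q) * k1
    · have g7 := congrArg ab k1
      rw [ab_mul, ab_mul, ab_intCast, abs_of_pos (by linarith)] at g7
      have g9 : (μ : ℝ) * ab (b' - b₁') ≤ 2 * Y := by
        rw [← ab_natCast μ, ← ab_mul]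
        have g10 : (μ : OK q) * (b' - b₁') = (b - b₀) - (b₁ - b₀) := by rw [hb', hb₁']; ring
        rw [g10]
        exact (ab_sub_le (b - b₀) (b₁ - b₀)).trans (by linarith)
      rw [le_div_iff₀ habc0, habc]
      have g11 : (e : ℝ) = μ * e' := by exact_mod_cast he'
      rw [g11]
      have he'r : (0 : ℝ) ≤ e' := Nat.cast_nonneg _
      calc ab κ * ((μ : ℝ) * e' * ab c1) = e' * (μ * (ab κ * ab c1)) := by ring
        _ = dd q * e' * (μ * ab (b' - b₁')) := by rw [← g7]; ring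
        _ ≤ dd q * e' * (2 * Y) := by gcongr
        _ = 2 * dd q * Y * e' := by ring
    · rw [hS, hα]
      exact mem_circ (cong hA hc10 k1 k2 hco g3)
  choose! κ hκ using key
  have hmaps : ∀ b ∈ BS c w r μ b₀ Y, κ b ∈ {z : OK q | ab z ≤ 2 * dd q * Y * e' / ab c ∧
      ((z.re : ZMod q1), (z.im : ZMod q1)) ∈ S} := fun b hb => ⟨(hκ b hb).2.1, (hκ b hb).2.2⟩
  have hinj : Set.InjOn κ (BS c w r μ b₀ Y) := by
    intro b hb b' hb' h
    have h1 := (hκ b hb).1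
    have h2 := (hκ b' hb').1
    rw [h, ← h2] at h1
    exact sub_left_injective (mul_left_cancel₀ hDZ h1)
  refine ⟨Set.Finite.of_injOn hmaps hinj hfin, ?_⟩
  have h1 := Set.ncard_le_ncard_of_injOn κ hmaps hinj hfin
  have h2 : ((BS c w r μ b₀ Y).ncard : ℝ) ≤
      S.ncard * (K * (2 * dd q * Y * e' / ab c) / q1 + 1) ^ 2 :=
    le_trans (by exact_mod_cast h1) hcard
  have hgr : (1 : ℝ) ≤ g := by exact_mod_cast hg0
  have hq1r : (1 : ℝ) ≤ q1 := by exact_mod_cast hq10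
  have he'r : (e' : ℝ) = g * q1 := by exact_mod_cast hq1
  have hYc : 0 ≤ Y / ab c := by positivity
  have h3 : K * (2 * dd q * Y * e' / ab c) / q1 + 1 ≤ K' * g * (1 + Y / ab c) := by
    have h4 : K * (2 * dd q * Y * e' / ab c) / q1 = (2 * K * dd q) * g * (Y / ab c) := by
      rw [he'r]
      field_simp
    rw [h4, hK']
    have h5 : 0 ≤ 2 * K * (dd q : ℝ) := by positivity
    have h6 : 0 ≤ (g : ℝ) * (Y / ab c) := by positivity
    have h7 : 0 ≤ 2 * K * (dd q : ℝ) * g := by positivity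
    nlinarith
  have h5 : (K * (2 * dd q * Y * e' / ab c) / q1 + 1) ^ 2 ≤ (K' * g * (1 + Y / ab c)) ^ 2 :=
    pow_le_pow_left₀ (by positivity) h3 2
  have h6 : (q1 : ℝ) ^ (1 + ε) * (g : ℝ) ^ 2 ≤ (e' : ℝ) ^ (1 + ε) * g := by
    rw [he'r, Real.mul_rpow (by positivity) (by positivity)]
    have h7 : (g : ℝ) ≤ (g : ℝ) ^ (1 + ε) := by
      conv_lhs => rw [← Real.rpow_one (g : ℝ)]
      exact Real.rpow_le_rpow_of_exponent_le hgr (by linarith)
    have h8 : 0 ≤ (q1 : ℝ) ^ (1 + ε) := by positivity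
    calc (q1 : ℝ) ^ (1 + ε) * (g : ℝ) ^ 2 = (q1 : ℝ) ^ (1 + ε) * g * g := by ring
      _ ≤ (q1 : ℝ) ^ (1 + ε) * (g : ℝ) ^ (1 + ε) * g := by gcongr
      _ = _ := by ring
  have h9 : 0 ≤ (1 + Y / ab c) ^ 2 := by positivity
  calc ((BS c w r μ b₀ Y).ncard : ℝ)
      ≤ S.ncard * (K * (2 * dd q * Y * e' / ab c) / q1 + 1) ^ 2 := h2
    _ ≤ (C * (q1 : ℝ) ^ (1 + ε)) * (K' * g * (1 + Y / ab c)) ^ 2 :=
      mul_le_mul hScard h5 (by positivity) (by positivity)
    _ = C * K' ^ 2 * ((q1 : ℝ) ^ (1 + ε) * (g : ℝ) ^ 2) * (1 + Y / ab c) ^ 2 := by ring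
    _ ≤ C * K' ^ 2 * ((e' : ℝ) ^ (1 + ε) * g) * (1 + Y / ab c) ^ 2 := by gcongr
    _ = C * K' ^ 2 * (e' : ℝ) ^ (1 + ε) * g * (1 + Y / ab c) ^ 2 := by ring

end Pool.Agent.Lib.H80C
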