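import Pool.Agent.Lib.H80C.Defs

/-!
# BD: divisibility
-/

namespace Pool.Agent.Lib.H80C

variable {q : QF}

/-- The elements `b` for given `c`, `w`, `r`, with `b`, `d` divisible by the integer `μ`, in a disc. -/
def BS (c w : OK q) (r : ℤ) (μ : ℕ) (b₀ : OK q) (Y : ℝ) : Set (OK q) :=
  {b : OK q | ab (b - b₀) ≤ Y ∧ ∃ d h : OK q, b * d = r + c * h ∧ b * star c - star d * c = w ∧
    μ ∣ ct b ∧ μ ∣ ct d}

theorem BD_int {g : ℕ} {r : ℤ} {z : OK q} (h : (r : OK q) = g * z) : (g : ℤ) ∣ r := by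
  refine ⟨z.re, ?_⟩
  have := congrArg QuadraticAlgebra.re h
  simpa using this

/-- (Adapt `b_dvd` of `Lib/H89D/BD.lean`.)
PROOF. `c`, `b`, `d` are divisible by `μ` (`dvd_ct`), `b = μ b'`, `d = μ d'`, `c = μ c'`, and
`g = gcd (μ, ct c / μ)` divides `c'`. So `μ` divides `r = μ r'` and `μ b' d' = r' + c' h`, hence
`g ∣ r'`. -/
theorem b_dvd {c w : OK q} {r : ℤ} {μ : ℕ} {b₀ : OK q} {Y : ℝ} (hμ : μ ∣ ct c) (hμ0 : 1 ≤ μ)
    (hne : (BS c w r μ b₀ Y).Nonempty) : μ * Nat.gcd μ (ct c / μ) ∣ r.natAbs := by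
  obtain ⟨b, -, d, h, h1, -, h3, h4⟩ := hne
  obtain ⟨b', rfl⟩ := dvd_ct.1 h3
  obtain ⟨d', rfl⟩ := dvd_ct.1 h4
  obtain ⟨q', hq'⟩ := hμ
  have hc : ∃ c1 : OK q, c = μ * (q' * c1) := by
    obtain ⟨c1, hc1⟩ := dvd_ct.1 (dvd_refl (ct c))
    refine ⟨c1, ?_⟩
    rw [← mul_assoc, ← Nat.cast_mul, ← hq']
    exact hc1
  obtain ⟨c1, hc1⟩ := hc
  have hq : ct c / μ = q' := by
    rw [hq', Nat.mul_div_cancel_left _ hμ0]
  rw [hq]
  obtain ⟨g, hg⟩ : ∃ g, g = Nat.gcd μ q' := ⟨_, rfl⟩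
  obtain ⟨u, hu⟩ := Nat.gcd_dvd_left μ q'
  obtain ⟨v, hv⟩ := Nat.gcd_dvd_right μ q'
  rw [← hg] at hu hv ⊢
  have h5 : (r : OK q) = ((μ * g : ℕ) : OK q) * (u * (b' * d') - v * c1 * h) := by
    have h6 : (μ : OK q) = g * u := by exact_mod_cast congrArg (Nat.cast : ℕ → OK q) hu
    have h7 : (q' : OK q) = g * v := by exact_mod_cast congrArg (Nat.cast : ℕ → OK q) hv
    push_cast
    linear_combination -h1 - h * hc1 + μ * b' * d' * h6 - μ * c1 * h * h7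
  have h6 := BD_int h5
  rw [← Int.natCast_dvd]
  exact h6

/-- PROOF. `b_dvd` with `r = P ρ`: `μ g` divides `P |ρ|`, `g = gcd (μ, ct c / μ)`. Moreover `μ g` divides
`μ (ct c / μ) = ct c`, and `ct c` divides `c + star c = n ρ` (`dvd_ct`), so `μ g ∣ n |ρ|`. Since
`gcd (n, P) = 1`, `μ g ∣ |ρ|`. -/
theorem b_dvd' {n P : ℕ} (hnP : Nat.Coprime n P) {c w : OK q} {ρ : ℤ} (hc : c + star c = n * ρ)
    {μ : ℕ} {b₀ : OK q} {Y : ℝ} (hμ : μ ∣ ct c) (hμ0 : 1 ≤ μ)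
    (hne : (BS c w (P * ρ) μ b₀ Y).Nonempty) : μ * Nat.gcd μ (ct c / μ) ∣ ρ.natAbs := by
  have h1 := b_dvd hμ hμ0 hne
  rw [Int.natAbs_mul, Int.natAbs_natCast] at h1
  have h2 : μ * Nat.gcd μ (ct c / μ) ∣ ct c := by
    obtain ⟨q', hq'⟩ := hμ
    rw [hq', Nat.mul_div_cancel_left _ hμ0]
    exact mul_dvd_mul_left _ (Nat.gcd_dvd_right _ _)
  have h3 : ct c ∣ n * ρ.natAbs := by
    obtain ⟨z, hz⟩ := dvd_ct.1 (dvd_refl (ct c))
    have h4 : ((n * ρ : ℤ) : OK q) = (ct c : ℕ) * (z + star z) := by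
      push_cast
      rw [← hc]
      conv_lhs => rw [hz, star_mul', star_natCast]
      ring
    have h5 := BD_int h4
    rw [Int.natCast_dvd, Int.natAbs_mul, Int.natAbs_natCast] at h5
    exact h5
  have h4 := h2.trans h3
  have h5 := Nat.dvd_gcd h1 h4
  rw [Nat.gcd_mul_right, Nat.Coprime.gcd_eq_one hnP.symm, one_mul] at h5
  exact h5

end Pool.Agent.Lib.H80C
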