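import Pool.Agent.Lib.H80C.REL0

/-!
# CJ: conjugation
-/

namespace Pool.Agent.Lib.H80C

open Matrix

variable {q : QF}

/-- Conjugation by `D` in `U(J)`: `D⁻¹ M D` with `D⁻¹ = J Dᴴ J`. -/
def cj (D M : M3 q) : M3 q := JZ q * Dᴴ * JZ q * M * D

/-- The matrix with first column `(z, ζ, 1)`. -/
def DZ (z ζ : OK q) : M3 q := !![z, star ζ, 1; ζ, -1, 0; 1, 0, 0]

lemma CJ_JJ : (JZ q * JZ q : M3 q) = 1 := by
  refine Matrix.ext fun i j => ?_
  fin_cases i <;> fin_cases j <;> simp [JZ, Matrix.mul_apply, Fin.sum_univ_three]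

lemma CJ_inv {D : M3 q} (hD : Dᴴ * JZ q * D = JZ q) : JZ q * Dᴴ * JZ q * D = 1 := by
  calc JZ q * Dᴴ * JZ q * D = JZ q * (Dᴴ * JZ q * D) := by simp only [Matrix.mul_assoc]
    _ = 1 := by rw [hD, CJ_JJ]

lemma CJ_inv' {D : M3 q} (hD : Dᴴ * JZ q * D = JZ q) : D * (JZ q * Dᴴ * JZ q) = 1 :=
  mul_eq_one_comm.1 (CJ_inv hD)

lemma CJ_JH : (JZ q)ᴴ = JZ q := by
  refine Matrix.ext fun i j => ?_
  fin_cases i <;> fin_cases j <;> simp [JZ]

lemma CJ_JD {D : M3 q} (hD : Dᴴ * JZ q * D = JZ q) : D * JZ q * Dᴴ = JZ q := by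
  have h3 := CJ_inv' hD
  calc D * JZ q * Dᴴ = D * (JZ q * Dᴴ * JZ q) * JZ q := by
        simp only [Matrix.mul_assoc]
        rw [CJ_JJ, Matrix.mul_one]
    _ = JZ q := by rw [h3, Matrix.one_mul]

/-- (For all of this file adapt `Lib/H89D/CJ.lean`.) PROOF. Direct computation with
`z + star z = -ζ star ζ`. -/
theorem DZ_unitary {z ζ : OK q} (h : z + star z = -(ζ * star ζ)) :
    (DZ z ζ)ᴴ * JZ q * DZ z ζ = JZ q := by
  refine Matrix.ext fun i j => ?_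
  fin_cases i <;> fin_cases j <;>
    simp [DZ, JZ, Matrix.mul_apply, Fin.sum_univ_three]
  linear_combination h

/-- PROOF. `J Dᴴ J D = 1`. -/
theorem gm_cj {n P : ℕ} {D M : M3 q} (hD : Dᴴ * JZ q * D = JZ q) :
    gm n P (cj D M) = JZ q * Dᴴ * JZ q * gm n P M * D := by
  unfold cj gm
  rw [Matrix.mul_add, Matrix.add_mul, Matrix.mul_smul, Matrix.mul_one, Matrix.smul_mul, CJ_inv hD,
    Matrix.mul_smul, Matrix.smul_mul]

/-- PROOF. `(cj D M)ᴴ J (cj D M) = Dᴴ (Mᴴ J M) D` since `D J Dᴴ = J`. -/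
theorem cj_form {D M : M3 q} (hD : Dᴴ * JZ q * D = JZ q) :
    (cj D M)ᴴ * JZ q * cj D M = Dᴴ * (Mᴴ * JZ q * M) * D := by
  unfold cj
  calc (JZ q * Dᴴ * JZ q * M * D)ᴴ * JZ q * (JZ q * Dᴴ * JZ q * M * D)
      = Dᴴ * Mᴴ * JZ q * D * (JZ q * JZ q) * JZ q * Dᴴ * JZ q * M * D := by
        simp only [Matrix.conjTranspose_mul, Matrix.conjTranspose_conjTranspose, CJ_JH,
          Matrix.mul_assoc]
    _ = Dᴴ * (Mᴴ * JZ q * (D * JZ q * Dᴴ) * JZ q * M) * D := by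
        rw [CJ_JJ]
        simp only [Matrix.mul_assoc, Matrix.one_mul]
    _ = Dᴴ * (Mᴴ * JZ q * M) * D := by
        rw [CJ_JD hD, Matrix.mul_assoc (Mᴴ * JZ q) (JZ q) (JZ q), CJ_JJ, Matrix.mul_one]

/-- PROOF. `gm_cj`; unitarity and determinant are preserved (`(J Dᴴ J) D = 1`, also `D (J Dᴴ J) = 1`). -/
theorem cj_elt {n P : ℕ} {D M : M3 q} (hD : Dᴴ * JZ q * D = JZ q) (hM : Elt n P M) :
    Elt n P (cj D M) := by
  obtain ⟨h1, h2⟩ := hM
  refine ⟨?_, ?_⟩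
  · rw [gm_cj hD]
    have h3 := cj_form (M := gm n P M) hD
    unfold cj at h3
    rw [h3, h1, Matrix.mul_smul, Matrix.smul_mul, hD]
  · rw [gm_cj hD, Matrix.det_mul, Matrix.det_mul, h2, mul_right_comm, ← Matrix.det_mul, CJ_inv hD,
      Matrix.det_one, one_mul]

lemma CJ_entry (D : M3 q) (i k : Fin 3) : (JZ q * Dᴴ * JZ q) i k = star (D k.rev i.rev) := by
  fin_cases i <;> fin_cases k <;>
    simp [JZ, Matrix.mul_apply, Matrix.vecMul, dotProduct, Fin.sum_univ_three]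

/-- PROOF. `gm_cj`; each entry is a sum of nine products; the entries of `J Dᴴ J` are conjugates of
entries of `D`. -/
theorem cj_bdd {n P : ℕ} {D M : M3 q} (hD : Dᴴ * JZ q * D = JZ q) {K H : ℝ}
    (hK : ∀ i j, ab (D i j) ≤ K) (hM : Bdd n P H M) : Bdd n P (9 * K ^ 2 * H) (cj D M) := by
  intro i j
  rw [gm_cj hD]
  have hK0 : 0 ≤ K := (ab_nonneg _).trans (hK 0 0)
  have hX0 : 0 ≤ H := (ab_nonneg _).trans (hM 0 0)
  have hM' : ∀ i j, ab (gm n P M i j) ≤ H := hM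
  generalize gm n P M = g at hM'
  have hterm : ∀ k l : Fin 3, ab ((JZ q * Dᴴ * JZ q) i k * g k l * D l j) ≤ K ^ 2 * H := by
    intro k l
    rw [ab_mul, ab_mul, CJ_entry, ab_star]
    have h1 := hK k.rev i.rev
    have h2 := hM' k l
    have h3 := hK l j
    calc ab (D k.rev i.rev) * ab (g k l) * ab (D l j) ≤ K * H * K := by
          apply mul_le_mul (mul_le_mul h1 h2 (ab_nonneg _) hK0) h3 (ab_nonneg _)
          positivity
      _ = K ^ 2 * H := by ring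
  have h0 : (JZ q * Dᴴ * JZ q * g * D) i j = ∑ l, ∑ k, (JZ q * Dᴴ * JZ q) i k * g k l * D l j := by
    rw [Matrix.mul_apply]
    refine Finset.sum_congr rfl fun l _ => ?_
    rw [Matrix.mul_apply, Finset.sum_mul]
  rw [h0]
  simp only [Fin.sum_univ_three]
  have t := hterm
  calc ab _ ≤ _ := (ab_add_le _ _).trans (add_le_add ((ab_add_le _ _).trans (add_le_add
        ((ab_add_le _ _).trans (add_le_add ((ab_add_le _ _).trans (add_le_add (t 0 0) (t 1 0)))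
          (t 2 0)))
        ((ab_add_le _ _).trans (add_le_add ((ab_add_le _ _).trans (add_le_add (t 0 1) (t 1 1)))
          (t 2 1)))))
        ((ab_add_le _ _).trans (add_le_add ((ab_add_le _ _).trans (add_le_add (t 0 2) (t 1 2)))
          (t 2 2))))
    _ = 9 * K ^ 2 * H := by ring

/-- PROOF. `gm_cj`, the trace is invariant under conjugation. -/
theorem cj_tdd {n P : ℕ} {D M : M3 q} (hD : Dᴴ * JZ q * D = JZ q) {X : ℝ} (hM : Tdd n P X M) :
    Tdd n P X (cj D M) := by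
  unfold Tdd at hM ⊢
  rw [gm_cj hD, Matrix.trace_mul_comm, ← Matrix.mul_assoc, CJ_inv' hD, Matrix.one_mul]
  exact hM

/-- PROOF. `D (cj D M) D⁻¹ = M`. -/
theorem cj_injective {D : M3 q} (hD : Dᴴ * JZ q * D = JZ q) : Function.Injective (cj D) := by
  have h0 : ∀ M : M3 q, D * cj D M * (JZ q * Dᴴ * JZ q) = M := by
    intro M
    unfold cj
    calc D * (JZ q * Dᴴ * JZ q * M * D) * (JZ q * Dᴴ * JZ q)
        = (D * (JZ q * Dᴴ * JZ q)) * M * (D * (JZ q * Dᴴ * JZ q)) := by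
          simp only [Matrix.mul_assoc]
      _ = M := by rw [CJ_inv' hD, Matrix.one_mul, Matrix.mul_one]
  intro M M' h
  rw [← h0 M, h, h0]

/-- PROOF. Entries `0 0` and `1 0` of `elt_skew` (for `M`): `P (star c + c) + n (Mᴴ J M) 0 0 = 0`, with `hc`
and `n ≥ 1`: `(Mᴴ J M) 0 0 = -P ρ`; and `P (star d + b) + n (Mᴴ J M) 1 0 = 0`. -/
theorem form_entries {n P : ℕ} (hn : 1 ≤ n) {M : M3 q} (hM : Elt n P M) {ρ η : ℤ} {τ : OK q}
    (h : RelsM n P M ρ η τ) : (Mᴴ * JZ q * M) 0 0 = -(P * ρ) ∧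
      P * (M 1 0 + star (M 2 1)) = -(n * (Mᴴ * JZ q * M) 1 0) := by
  have hn0 : (n : OK q) ≠ 0 := by
    have : n ≠ 0 := by omega
    exact_mod_cast this
  have h1 := elt_skew hn hM
  have h4 : (Mᴴ * JZ q) 0 0 = star (M 2 0) := by
    simp [JZ, Matrix.mul_apply, Fin.sum_univ_three]
  have h5 : (JZ q * M) 0 0 = M 2 0 := by
    simp [JZ, Matrix.mul_apply, Fin.sum_univ_three]
  have h6 : (Mᴴ * JZ q) 1 0 = star (M 2 1) := by
    simp [JZ, Matrix.mul_apply, Fin.sum_univ_three]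
  have h7 : (JZ q * M) 1 0 = M 1 0 := by
    simp [JZ, Matrix.mul_apply, Fin.sum_univ_three]
  have e1 := congrFun (congrFun h1 0) 0
  have e2 := congrFun (congrFun h1 1) 0
  rw [Matrix.add_apply, Matrix.smul_apply, Matrix.smul_apply, Matrix.add_apply, h4, h5,
    smul_eq_mul, smul_eq_mul, Matrix.zero_apply] at e1
  rw [Matrix.add_apply, Matrix.smul_apply, Matrix.smul_apply, Matrix.add_apply, h6, h7,
    smul_eq_mul, smul_eq_mul, Matrix.zero_apply] at e2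
  have hc := h.hc
  refine ⟨?_, ?_⟩
  · apply mul_left_cancel₀ hn0
    linear_combination e1 - (P : OK q) * hc
  · linear_combination e2

end Pool.Agent.Lib.H80C
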