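import Pool.Agent.Lib.H80C.CJ

/-!
# V1: the eleven isotropic vectors
-/

namespace Pool.Agent.Lib.H80C

open Matrix

variable {q : QF}

/-- The parameters `(z, ζ)` of isotropic vectors `(z, ζ, 1)`: `z + star z = -ζ star ζ`. -/
def VS (q : QF) : List (OK q × OK q) :=
  [(0, 0), (dl q, 0), (-2, 2), (-2, -2), (-8, 4), (-8, -4),
    (-2 * (q.n : OK q), 2 * om q), (-2 * (q.n : OK q), -2 * om q),
    (-8 * (q.n : OK q), 4 * om q), (-8 * (q.n : OK q), -4 * om q)]

/-- The matrices: the identity and the `DZ z ζ`. -/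
def EL (q : QF) : List (M3 q) := 1 :: (VS q).map (fun p => DZ p.1 p.2)

lemma V1_om : om q * star (om q) = (q.n : OK q) := by
  rw [← nm_eq]
  congr 1
  simp [nm, om]

lemma V1_star_ofNat (k : ℕ) : star ((k : ℕ) : OK q) = (k : ℕ) := star_natCast k

lemma V1_star2 : star (2 : OK q) = 2 := by
  have := V1_star_ofNat (q := q) 2
  exact_mod_cast this

lemma V1_star4 : star (4 : OK q) = 4 := by
  have := V1_star_ofNat (q := q) 4
  exact_mod_cast this

lemma V1_star8 : star (8 : OK q) = 8 := by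
  have := V1_star_ofNat (q := q) 8
  exact_mod_cast this

/-- PROOF. `star (dl q) = -dl q`; `om * star om = n`. `DZ_unitary`. -/
theorem EL_unitary {D : M3 q} (hD : D ∈ EL q) : Dᴴ * JZ q * D = JZ q := by
  unfold EL at hD
  rw [List.mem_cons] at hD
  rcases hD with rfl | hD
  · rw [Matrix.conjTranspose_one, Matrix.one_mul, Matrix.mul_one]
  · obtain ⟨p, hp, rfl⟩ := List.mem_map.1 hD
    apply DZ_unitary
    have h := V1_om (q := q)
    have hs : star ((q.n : ℤ) : OK q) = (q.n : ℤ) := star_intCast _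
    simp only [VS, List.mem_cons, List.not_mem_nil, or_false] at hp
    rcases hp with rfl | rfl | rfl | rfl | rfl | rfl | rfl | rfl | rfl | rfl
    · simp
    · simp [star_dl]
    · simp only [star_neg, V1_star2]; ring
    · simp only [star_neg, V1_star2]; ring
    · simp only [star_neg, V1_star8, V1_star4]; ring
    · simp only [star_neg, V1_star8, V1_star4]; ring
    · simp only [star_neg, star_mul', V1_star2, hs]; linear_combination 4 * h
    · simp only [star_neg, star_mul', V1_star2, hs]; linear_combination 4 * h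
    · simp only [star_neg, star_mul', V1_star8, V1_star4, hs]; linear_combination 16 * h
    · simp only [star_neg, star_mul', V1_star8, V1_star4, hs]; linear_combination 16 * h

lemma V1_list (L : List (M3 q)) : ∃ K : ℝ, 1 ≤ K ∧ ∀ D ∈ L, ∀ i j, ab (D i j) ≤ K := by
  induction L with
  | nil => exact ⟨1, le_refl _, by simp⟩
  | cons A L ih =>
    obtain ⟨K, hK, h⟩ := ih
    refine ⟨K + ∑ i : Fin 3, ∑ j : Fin 3, ab (A i j), ?_, ?_⟩
    · have : 0 ≤ ∑ i : Fin 3, ∑ j : Fin 3, ab (A i j) :=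
        Finset.sum_nonneg fun i _ => Finset.sum_nonneg fun j _ => ab_nonneg _
      linarith
    · intro D hD i j
      have h0 : 0 ≤ ∑ i : Fin 3, ∑ j : Fin 3, ab (A i j) :=
        Finset.sum_nonneg fun i _ => Finset.sum_nonneg fun j _ => ab_nonneg _
      rcases List.mem_cons.1 hD with rfl | hD
      · have h1 : ab (D i j) ≤ ∑ j : Fin 3, ab (D i j) :=
          Finset.single_le_sum (f := fun j => ab (D i j)) (fun _ _ => ab_nonneg _) (Finset.mem_univ j)
        have h2 : ∑ j : Fin 3, ab (D i j) ≤ ∑ i : Fin 3, ∑ j : Fin 3, ab (D i j) :=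
          Finset.single_le_sum (f := fun i => ∑ j : Fin 3, ab (D i j))
            (fun _ _ => Finset.sum_nonneg fun _ _ => ab_nonneg _) (Finset.mem_univ i)
        linarith
      · have := h D hD i j
        linarith

/-- PROOF. A finite list. -/
theorem EL_bound (q : QF) : ∃ K : ℝ, 1 ≤ K ∧ ∀ D ∈ EL q, ∀ i j, ab (D i j) ≤ K := V1_list _

/-- the value, real part -/
lemma V1_val (Q : M3 q) (hQ : Qᴴ = Q) (z ζ : OK q) :
    (toC q (((DZ z ζ)ᴴ * Q * DZ z ζ) 0 0)).re =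
      ((toC q z).re ^ 2 + (toC q z).im ^ 2) * (toC q (Q 0 0)).re +
      ((toC q ζ).re ^ 2 + (toC q ζ).im ^ 2) * (toC q (Q 1 1)).re + (toC q (Q 2 2)).re +
      2 * (((toC q z).re * (toC q ζ).re + (toC q z).im * (toC q ζ).im) * (toC q (Q 0 1)).re -
        ((toC q z).re * (toC q ζ).im - (toC q z).im * (toC q ζ).re) * (toC q (Q 0 1)).im) +
      2 * ((toC q z).re * (toC q (Q 0 2)).re + (toC q z).im * (toC q (Q 0 2)).im) +
      2 * ((toC q ζ).re * (toC q (Q 1 2)).re + (toC q ζ).im * (toC q (Q 1 2)).im) := by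
  have h10 : Q 1 0 = star (Q 0 1) := by
    have := congrFun (congrFun hQ 1) 0
    rw [Matrix.conjTranspose_apply] at this
    exact this.symm
  have h20 : Q 2 0 = star (Q 0 2) := by
    have := congrFun (congrFun hQ 2) 0
    rw [Matrix.conjTranspose_apply] at this
    exact this.symm
  have h21 : Q 2 1 = star (Q 1 2) := by
    have := congrFun (congrFun hQ 2) 1
    rw [Matrix.conjTranspose_apply] at this
    exact this.symm
  have h00 : (toC q (Q 0 0)).im = 0 := by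
    have h1 := congrFun (congrFun hQ 0) 0
    rw [Matrix.conjTranspose_apply] at h1
    have h2 := congrArg (fun w => (toC q w).im) h1
    simp only [toC_star, Complex.star_def, Complex.conj_im] at h2
    linarith
  have h11 : (toC q (Q 1 1)).im = 0 := by
    have h1 := congrFun (congrFun hQ 1) 1
    rw [Matrix.conjTranspose_apply] at h1
    have h2 := congrArg (fun w => (toC q w).im) h1
    simp only [toC_star, Complex.star_def, Complex.conj_im] at h2
    linarith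
  have e : ((DZ z ζ)ᴴ * Q * DZ z ζ) 0 0 = (star z * Q 0 0 + star ζ * Q 1 0 + Q 2 0) * z +
      (star z * Q 0 1 + star ζ * Q 1 1 + Q 2 1) * ζ + (star z * Q 0 2 + star ζ * Q 1 2 + Q 2 2) := by
    simp [DZ, Matrix.mul_apply, Fin.sum_univ_three]
  rw [e, h10, h20, h21]
  simp only [map_add, map_mul, toC_star, Complex.star_def, Complex.add_re, Complex.add_im,
    Complex.mul_re, Complex.mul_im, Complex.conj_re, Complex.conj_im, h00, h11]
  ring

/-- pure inequalities -/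
lemma V1_ineq {s t n m A B Cc x1 y1 x2 y2 x3 y3 : ℝ} (hs : 1 ≤ s) (hn : 1 ≤ n)
    (hD : s ^ 2 = 4 * n - t ^ 2) (hm : 0 ≤ m)
    (v1 : |A| ≤ m) (v2 : |Cc| ≤ m) (v3 : |s ^ 2 * A + Cc + 2 * (s * y2)| ≤ m)
    (v4 : |4 * A + 4 * B + Cc - 4 * x2 + (-8 * x1 + 4 * x3)| ≤ m)
    (v5 : |4 * A + 4 * B + Cc - 4 * x2 - (-8 * x1 + 4 * x3)| ≤ m)
    (v6 : |64 * A + 16 * B + Cc - 16 * x2 + (-64 * x1 + 8 * x3)| ≤ m)
    (v7 : |64 * A + 16 * B + Cc - 16 * x2 - (-64 * x1 + 8 * x3)| ≤ m)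
    (v8 : |4 * n ^ 2 * A + 4 * n * B + Cc - 4 * n * x2 +
      (-8 * n * (t / 2 * x1 - s / 2 * y1) + 4 * (t / 2 * x3 + s / 2 * y3))| ≤ m)
    (v9 : |4 * n ^ 2 * A + 4 * n * B + Cc - 4 * n * x2 -
      (-8 * n * (t / 2 * x1 - s / 2 * y1) + 4 * (t / 2 * x3 + s / 2 * y3))| ≤ m)
    (v10 : |64 * n ^ 2 * A + 16 * n * B + Cc - 16 * n * x2 +
      (-64 * n * (t / 2 * x1 - s / 2 * y1) + 8 * (t / 2 * x3 + s / 2 * y3))| ≤ m)
    (v11 : |64 * n ^ 2 * A + 16 * n * B + Cc - 16 * n * x2 -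
      (-64 * n * (t / 2 * x1 - s / 2 * y1) + 8 * (t / 2 * x3 + s / 2 * y3))| ≤ m) :
    |x2 - B| + |y2| ≤ (8 + 4 * n + 2 * |t|) * m ∧ |x1| + |y1| ≤ (8 + 4 * n + 2 * |t|) * m ∧
      |x3| + |y3| ≤ (8 + 4 * n + 2 * |t|) * m := by
  have key : ∀ {y c : ℝ}, |s * y| ≤ c → |y| ≤ c := by
    intro y c h
    rw [abs_mul, abs_of_pos (by linarith)] at h
    nlinarith [abs_nonneg y]
  have ht := abs_nonneg t
  have htm : 0 ≤ |t| * m := mul_nonneg ht hm
  have hnm : m ≤ n * m := by nlinarith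
  rw [abs_le] at v1 v2 v3 v4 v5 v6 v7 v8 v9 v10 v11
  have hs2 : s ^ 2 ≤ 4 * n := by nlinarith [sq_nonneg t]
  have hsA : |s ^ 2 * A| ≤ 4 * n * m := by
    rw [abs_mul, abs_of_nonneg (sq_nonneg s)]
    exact mul_le_mul hs2 (abs_le.2 v1) (abs_nonneg _) (by linarith)
  rw [abs_le] at hsA
  have b1 : |x2 - B| ≤ 2 * m := by
    rw [abs_le]; constructor <;> linarith [v1.1, v1.2, v2.1, v2.2, v4.1, v4.2, v5.1, v5.2]
  have b2 : |y2| ≤ (1 + 2 * n) * m := by
    apply key
    rw [abs_le]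
    constructor <;> nlinarith [v3.1, v3.2, v2.1, v2.2, hsA.1, hsA.2]
  have b3 : |x1| ≤ m := by
    rw [abs_le]
    constructor <;> linarith [v4.1, v4.2, v5.1, v5.2, v6.1, v6.2, v7.1, v7.2]
  have b3' : |x1| ≤ m / 16 := by
    rw [abs_le]
    constructor <;> linarith [v4.1, v4.2, v5.1, v5.2, v6.1, v6.2, v7.1, v7.2]
  have b4 : |x3| ≤ m := by
    rw [abs_le] at b3' ⊢
    constructor <;> linarith [v4.1, v4.2, v5.1, v5.2, b3'.1, b3'.2]
  have b5 : |n * (t / 2 * x1 - s / 2 * y1)| ≤ m / 16 := by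
    rw [abs_le]
    constructor <;> linarith [v8.1, v8.2, v9.1, v9.2, v10.1, v10.2, v11.1, v11.2]
  have b6 : |t / 2 * x1 - s / 2 * y1| ≤ m / 16 := by
    rw [abs_mul, abs_of_pos (by linarith)] at b5
    nlinarith [abs_nonneg (t / 2 * x1 - s / 2 * y1)]
  have b7 : |t / 2 * x3 + s / 2 * y3| ≤ m := by
    rw [abs_le] at b5 ⊢
    constructor <;> linarith [v8.1, v8.2, v9.1, v9.2, b5.1, b5.2]
  have tx : ∀ {x : ℝ}, |x| ≤ m → |t * x| ≤ |t| * m := by
    intro x hx
    rw [abs_mul]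
    exact mul_le_mul_of_nonneg_left hx ht
  have c1 := abs_le.1 (tx b3)
  have c3 := abs_le.1 (tx b4)
  have b8 : |y1| ≤ 2 * m + |t| * m := by
    apply key
    rw [abs_le] at b6 ⊢
    constructor <;> linarith [b6.1, b6.2, c1.1, c1.2]
  have b9 : |y3| ≤ 2 * m + |t| * m := by
    apply key
    rw [abs_le] at b7 ⊢
    constructor <;> linarith [b7.1, b7.2, c3.1, c3.2]
  refine ⟨?_, ?_, ?_⟩ <;> nlinarith

/-- The entries of `Q - q₁₁ J` are bounded by the values. -/
lemma V1_entries (Q : M3 q) (hQ : Qᴴ = Q) {m : ℝ} (hm : 0 ≤ m)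
    (h : ∀ D ∈ EL q, ab ((Dᴴ * Q * D) 0 0) ≤ m) (i j : Fin 3) :
    ab ((Q - Q 1 1 • JZ q) i j) ≤ (8 + 4 * (q.n : ℝ) + 2 * |(q.t : ℝ)|) * m := by
  obtain ⟨s, hs⟩ : ∃ s, s = √(dd q : ℝ) := ⟨_, rfl⟩
  have hdd : (3 : ℝ) ≤ (dd q : ℝ) := by exact_mod_cast three_le_dd q
  have hs1 : 1 ≤ s := by
    rw [hs, Real.one_le_sqrt]
    linarith
  have hs2 : s ^ 2 = 4 * (q.n : ℝ) - (q.t : ℝ) ^ 2 := by
    rw [hs, Real.sq_sqrt (by linarith), dd]
    push_cast
    ring
  have hn1 : (1 : ℝ) ≤ q.n := by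
    have : 1 ≤ q.n := by
      have := q.pos
      nlinarith [sq_nonneg q.t]
    exact_mod_cast this
  have hv : ∀ z ζ : OK q, (z, ζ) ∈ VS q → |(toC q (((DZ z ζ)ᴴ * Q * DZ z ζ) 0 0)).re| ≤ m := by
    intro z ζ hz
    refine (Complex.abs_re_le_norm _).trans (h (DZ z ζ) ?_)
    unfold EL
    rw [List.mem_cons]
    exact Or.inr (List.mem_map.2 ⟨(z, ζ), hz, rfl⟩)
  have r0 : toC q (0 : OK q) = 0 := map_zero _
  have rdr : (toC q (dl q)).re = 0 := by rw [toC_re]; simp [dl]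
  have rdi : (toC q (dl q)).im = s := by rw [toC_im, ← hs]; simp [dl]
  have ror : (toC q (om q)).re = (q.t : ℝ) / 2 := by rw [toC_re]; simp [om]
  have roi : (toC q (om q)).im = s / 2 := by rw [toC_im, ← hs]; simp [om]
  have v1 : |(toC q (Q 0 0)).re| ≤ m := by
    refine (Complex.abs_re_le_norm _).trans ?_
    have h1 := h 1 (by unfold EL; exact List.mem_cons_self)
    rwa [Matrix.conjTranspose_one, Matrix.one_mul, Matrix.mul_one] at h1
  have v2 := hv 0 0 (by simp [VS])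
  have v3 := hv (dl q) 0 (by simp [VS])
  have v4 := hv (-2) 2 (by simp [VS])
  have v5 := hv (-2) (-2) (by simp [VS])
  have v6 := hv (-8) 4 (by simp [VS])
  have v7 := hv (-8) (-4) (by simp [VS])
  have v8 := hv (-2 * (q.n : OK q)) (2 * om q) (by simp [VS])
  have v9 := hv (-2 * (q.n : OK q)) (-2 * om q) (by simp [VS])
  have v10 := hv (-8 * (q.n : OK q)) (4 * om q) (by simp [VS])
  have v11 := hv (-8 * (q.n : OK q)) (-4 * om q) (by simp [VS])
  rw [V1_val Q hQ] at v2 v3 v4 v5 v6 v7 v8 v9 v10 v11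
  have k2 : toC q (2 : OK q) = 2 := map_ofNat _ _
  have k4 : toC q (4 : OK q) = 4 := map_ofNat _ _
  have k8 : toC q (8 : OK q) = 8 := map_ofNat _ _
  have kn : toC q ((q.n : ℤ) : OK q) = ((q.n : ℤ) : ℂ) := map_intCast _ _
  simp only [map_neg, map_mul, map_zero, k2, k4, k8, kn, Complex.neg_re, Complex.neg_im,
    Complex.mul_re, Complex.mul_im, Complex.zero_re, Complex.zero_im, rdr, rdi, ror, roi,
    Complex.intCast_re, Complex.intCast_im, Complex.re_ofNat, Complex.im_ofNat] at v2 v3 v4 v5 v6 v7 v8 v9 v10 v11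
  generalize hA : (toC q (Q 0 0)).re = A at *
  generalize hB : (toC q (Q 1 1)).re = B at *
  generalize hC : (toC q (Q 2 2)).re = Cc at *
  generalize hx1 : (toC q (Q 0 1)).re = x1 at *
  generalize hy1 : (toC q (Q 0 1)).im = y1 at *
  generalize hx2 : (toC q (Q 0 2)).re = x2 at *
  generalize hy2 : (toC q (Q 0 2)).im = y2 at *
  generalize hx3 : (toC q (Q 1 2)).re = x3 at *
  generalize hy3 : (toC q (Q 1 2)).im = y3 at *
  have key := V1_ineq (s := s) (t := (q.t : ℝ)) (n := (q.n : ℝ)) (m := m) (A := A) (B := B)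
    (Cc := Cc) (x1 := x1) (y1 := y1) (x2 := x2) (y2 := y2) (x3 := x3) (y3 := y3) hs1 hn1 hs2 hm v1
    (le_of_eq_of_le (congrArg abs (by ring)) v2)
    (le_of_eq_of_le (congrArg abs (by ring)) v3)
    (le_of_eq_of_le (congrArg abs (by ring)) v4)
    (le_of_eq_of_le (congrArg abs (by ring)) v5)
    (le_of_eq_of_le (congrArg abs (by ring)) v6)
    (le_of_eq_of_le (congrArg abs (by ring)) v7)
    (le_of_eq_of_le (congrArg abs (by
      linear_combination (-(B : ℝ)) * hs2)) v8)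
    (le_of_eq_of_le (congrArg abs (by
      linear_combination (-(B : ℝ)) * hs2)) v9)
    (le_of_eq_of_le (congrArg abs (by
      linear_combination (-4 * (B : ℝ)) * hs2)) v10)
    (le_of_eq_of_le (congrArg abs (by
      linear_combination (-4 * (B : ℝ)) * hs2)) v11)
  have v2' : |Cc| ≤ m := le_of_eq_of_le (congrArg abs (by ring)) v2
  have hnorm : ∀ w : OK q, ab w ≤ |(toC q w).re| + |(toC q w).im| := fun w =>
    Complex.norm_le_abs_re_add_abs_im _
  have him : ∀ k : Fin 3, (toC q (Q k k)).im = 0 := by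
    intro k
    have h1 := congrFun (congrFun hQ k) k
    rw [Matrix.conjTranspose_apply] at h1
    have h2 := congrArg (fun w => (toC q w).im) h1
    simp only [toC_star, Complex.star_def, Complex.conj_im] at h2
    linarith
  have hK : m ≤ (8 + 4 * (q.n : ℝ) + 2 * |(q.t : ℝ)|) * m := by
    have := abs_nonneg (q.t : ℝ)
    nlinarith [mul_nonneg this hm]
  have h10 : Q 1 0 = star (Q 0 1) := by
    have := congrFun (congrFun hQ 1) 0
    rw [Matrix.conjTranspose_apply] at this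
    exact this.symm
  have h20 : Q 2 0 = star (Q 0 2) := by
    have := congrFun (congrFun hQ 2) 0
    rw [Matrix.conjTranspose_apply] at this
    exact this.symm
  have h21 : Q 2 1 = star (Q 1 2) := by
    have := congrFun (congrFun hQ 2) 1
    rw [Matrix.conjTranspose_apply] at this
    exact this.symm
  have h11 : star (Q 1 1) = Q 1 1 := by
    have := congrFun (congrFun hQ 1) 1
    rwa [Matrix.conjTranspose_apply] at this
  have c00 : ab (Q 0 0) ≤ m := by
    have := hnorm (Q 0 0)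
    rw [hA, him, abs_zero, add_zero] at this
    linarith
  have c22 : ab (Q 2 2) ≤ m := by
    have := hnorm (Q 2 2)
    rw [hC, him, abs_zero, add_zero] at this
    linarith
  have c01 : ab (Q 0 1) ≤ |x1| + |y1| := by
    have := hnorm (Q 0 1)
    rwa [hx1, hy1] at this
  have c12 : ab (Q 1 2) ≤ |x3| + |y3| := by
    have := hnorm (Q 1 2)
    rwa [hx3, hy3] at this
  have c02 : ab (Q 0 2 - Q 1 1) ≤ |x2 - B| + |y2| := by
    have := hnorm (Q 0 2 - Q 1 1)
    rwa [map_sub, Complex.sub_re, Complex.sub_im, hx2, hy2, hB, him, sub_zero] at this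
  have c20 : ab (star (Q 0 2) - Q 1 1) = ab (Q 0 2 - Q 1 1) := by
    rw [← ab_star (Q 0 2 - Q 1 1), star_sub, h11]
  rw [Matrix.sub_apply, Matrix.smul_apply, smul_eq_mul]
  fin_cases i <;> fin_cases j
  · simp only [JZ, Fin.zero_eta, Matrix.of_apply, Matrix.cons_val_zero]
    simpa using c00.trans hK
  · simpa [JZ] using c01.trans key.2.1
  · simpa [JZ] using c02.trans key.1
  · simpa [JZ, h10, ab_star] using c01.trans key.2.1
  · simpa [JZ, ab_zero] using hm.trans hK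
  · simpa [JZ] using c12.trans key.2.2
  · simpa [JZ, h20, c20] using c02.trans key.1
  · simpa [JZ, h21, ab_star] using c12.trans key.2.2
  · simpa [JZ] using c22.trans hK

/-- A Hermitian form is controlled by its values at the isotropic vectors, up to multiples of `J`.

PROOF. Work with complex numbers (`toC`). For `v = (z, ζ, 1) = D e₁` the value
`(Dᴴ Q D) 0 0 = vᴴ Q v` is real and equals
`V(z, ζ) = q₀₀ |z|² + q₁₁ |ζ|² + q₂₂ + 2 Re (z̄ ζ q₀₁) + 2 Re (z̄ q₀₂) + 2 Re (ζ̄ q₁₂)`; for `D = 1` it is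
`q₀₀`. Let `D₀ ∈ EL` be the matrix where the absolute value is largest, `m` this value. Then
`|q₀₀| ≤ m`, `|q₂₂| ≤ m` (`(0, 0)`), and with `L = |l|²` for `l = 2` or `l = 2 ω`:
(1) `z = dl`: `|2 Re (d̄l q₀₂)| ≤ m + dd m + m`, i.e. `2 √dd |Im q₀₂| ≤ (2 + dd) m`;
(2) `z = -L/2`, `ζ = ±l`: half the sum is `q₀₀ L²/4 + q₂₂ + L (q₁₁ - Re q₀₂)`, so `|q₁₁ - Re q₀₂| ≤ C m`;
half the difference is `E(l) = -L Re (l q₀₁) + 2 Re (l̄ q₁₂)`, `|E(l)| ≤ m`; also for `2 l` (`L` replaced by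
`4 L`): `E(2 l) = -8 L Re (l q₀₁) + 4 Re (l̄ q₁₂)`, so `6 L Re (l q₀₁) = 2 E(l) - E(2 l)` is bounded by
`3 m`, and then `|Re (l̄ q₁₂)| ≤ m`. With `l = 2` and `l = 2 ω`: `|q₀₁|, |q₁₂| ≤ C m`
(`Re (ω z) = (t/2) Re z - (√dd/2) Im z`).
So all entries of `Q' = Q - q₁₁ J` have absolute value at most `C m`. Since `D₀ᴴ J D₀ = J` has entry
`1 0` equal to zero, `(D₀ᴴ Q D₀) 1 0 = (D₀ᴴ Q' D₀) 1 0` is at most `9 K² C m`, `K` as in `EL_bound`. If `m = 0`
then `Q' = 0`, and `q₁₁` is real, so an integer (`star_eq_self`). -/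
theorem herm_max (q : QF) : ∃ B : ℝ, 0 < B ∧ ∀ Q : M3 q, Qᴴ = Q →
    ∃ D ∈ EL q, ab ((Dᴴ * Q * D) 1 0) ≤ B * ab ((Dᴴ * Q * D) 0 0) ∧
      ((Dᴴ * Q * D) 0 0 = 0 → ∃ μ : ℤ, Q = (μ : OK q) • JZ q) := by
  classical
  obtain ⟨K, hK, hKE⟩ := EL_bound q
  obtain ⟨C, hC⟩ : ∃ C : ℝ, C = 8 + 4 * (q.n : ℝ) + 2 * |(q.t : ℝ)| := ⟨_, rfl⟩
  have hn1 : (1 : ℝ) ≤ q.n := by
    have : 1 ≤ q.n := by
      have := q.pos
      nlinarith [sq_nonneg q.t]
    exact_mod_cast this
  have hC0 : 0 < C := by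
    rw [hC]
    have := abs_nonneg (q.t : ℝ)
    linarith
  refine ⟨9 * K ^ 2 * C, by positivity, ?_⟩
  intro Q hQ
  have hne : (EL q).toFinset.Nonempty := ⟨1, by rw [List.mem_toFinset]; exact List.mem_cons_self⟩
  obtain ⟨D, hD, hmax⟩ := Finset.exists_max_image (EL q).toFinset (fun D => ab ((Dᴴ * Q * D) 0 0)) hne
  rw [List.mem_toFinset] at hD
  obtain ⟨m, hm⟩ : ∃ m, m = ab ((Dᴴ * Q * D) 0 0) := ⟨_, rfl⟩
  have hm0 : 0 ≤ m := by rw [hm]; exact ab_nonneg _
  have hmx : ∀ D' ∈ EL q, ab ((D'ᴴ * Q * D') 0 0) ≤ m := by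
    intro D' hD'
    rw [hm]
    exact hmax D' (List.mem_toFinset.2 hD')
  have hent := V1_entries Q hQ hm0 hmx
  rw [← hC] at hent
  refine ⟨D, hD, ?_, ?_⟩
  · rw [← hm]
    have e1 : (Dᴴ * Q * D) 1 0 = (Dᴴ * (Q - Q 1 1 • JZ q) * D) 1 0 := by
      have e2 : Dᴴ * (Q - Q 1 1 • JZ q) * D = Dᴴ * Q * D - Q 1 1 • JZ q := by
        rw [Matrix.mul_sub, Matrix.sub_mul, Matrix.mul_smul, Matrix.smul_mul, EL_unitary hD]
      rw [e2, Matrix.sub_apply, Matrix.smul_apply]
      simp [JZ]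
    rw [e1]
    generalize Q - Q 1 1 • JZ q = R at hent
    have e3 : (Dᴴ * R * D) 1 0 = ∑ l, (∑ k, star (D k 1) * R k l) * D l 0 := by
      simp only [Matrix.mul_apply, Matrix.conjTranspose_apply]
    rw [e3]
    have hsum : ∀ (f : Fin 3 → OK q), ab (∑ i, f i) ≤ ∑ i, ab (f i) := by
      intro f
      rw [Fin.sum_univ_three, Fin.sum_univ_three]
      have h1 := ab_add_le (f 0 + f 1) (f 2)
      have h2 := ab_add_le (f 0) (f 1)
      linarith
    have hin : ∀ l, ab (∑ k, star (D k 1) * R k l) ≤ 3 * (K * (C * m)) := by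
      intro l
      refine (hsum _).trans ?_
      have : ∀ k ∈ (Finset.univ : Finset (Fin 3)), ab (star (D k 1) * R k l) ≤ K * (C * m) := by
        intro k _
        rw [ab_mul, ab_star]
        exact mul_le_mul (hKE D hD k 1) (hent k l) (ab_nonneg _) (by linarith)
      refine (Finset.sum_le_sum this).trans (le_of_eq ?_)
      simp
    refine (hsum _).trans ?_
    have : ∀ l ∈ (Finset.univ : Finset (Fin 3)),
        ab ((∑ k, star (D k 1) * R k l) * D l 0) ≤ 3 * (K * (C * m)) * K := by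
      intro l _
      rw [ab_mul]
      exact mul_le_mul (hin l) (hKE D hD l 0) (ab_nonneg _) (by positivity)
    refine (Finset.sum_le_sum this).trans (le_of_eq ?_)
    simp
    ring
  · intro h0
    have hm1 : m = 0 := by rw [hm, h0, ab_zero]
    have h11 : star (Q 1 1) = Q 1 1 := by
      have := congrFun (congrFun hQ 1) 1
      rwa [Matrix.conjTranspose_apply] at this
    refine ⟨(Q 1 1).re, ?_⟩
    rw [← star_eq_self h11]
    rw [← sub_eq_zero]
    refine Matrix.ext fun i j => ?_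
    have h1 := hent i j
    rw [hm1, mul_zero] at h1
    have h2 := le_antisymm h1 (ab_nonneg _)
    rw [ab_eq_zero] at h2
    rw [h2]
    rfl

end Pool.Agent.Lib.H80C
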