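import Pool.Agent.Lib.H80C.REL0

/-!
# V2: elements with `Mᴴ J M` proportional to `J`
-/

namespace Pool.Agent.Lib.H80C

open Matrix

variable {q : QF}

lemma V2_JJ : (JZ q * JZ q : M3 q) = 1 := by
  refine Matrix.ext fun i j => ?_
  fin_cases i <;> fin_cases j <;> simp [JZ, Matrix.mul_apply, Fin.sum_univ_three]

lemma V2_det (s : OK q) (g : M3 q) :
    (s • (1 : M3 q) - g).det = s ^ 3 - s ^ 2 * g.trace + s * (adjugate g).trace - g.det := by
  rw [Matrix.det_fin_three, Matrix.det_fin_three, Matrix.trace_fin_three, Matrix.trace_fin_three,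
    Matrix.adjugate_fin_three]
  simp
  ring

lemma V2_adj (M : M3 q) : adjugate M = M * M - M.trace • M + (adjugate M).trace • (1 : M3 q) := by
  rw [Matrix.adjugate_fin_three, Matrix.trace_fin_three, Matrix.trace_fin_three]
  refine Matrix.ext fun i j => ?_
  fin_cases i <;> fin_cases j <;>
    simp [Matrix.mul_apply, Fin.sum_univ_three] <;> ring

/-- The scalar matrices `z` with `z² + P z + P² = 0` (`z = P ζ`, `ζ` a primitive third root of unity). -/
def ZS (q : QF) (n P : ℕ) : Set (M3 q) :=
  {M | ∃ z : OK q, z ^ 2 + P * z + P ^ 2 = 0 ∧ gm n P M = z • (1 : M3 q)}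

/-- PROOF. At most two `z` (a domain; if `z₁ ≠ z₂` are roots then `z₁ + z₂ = -P`), and `M` is determined by
`gm n P M`, `n ≥ 1`. -/
theorem zs_count {n P : ℕ} (hn : 1 ≤ n) : (ZS q n P).Finite ∧ (ZS q n P).ncard ≤ 2 := by
  have hn0 : (n : OK q) ≠ 0 := by
    have : n ≠ 0 := by omega
    exact_mod_cast this
  have hinj : Set.InjOn (fun M : M3 q => gm n P M 0 0) (ZS q n P) := by
    intro M hM M' hM' h
    obtain ⟨z, -, hg⟩ := hM
    obtain ⟨z', -, hg'⟩ := hM'
    have h1 : gm n P M 0 0 = gm n P M' 0 0 := h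
    have hz : z = z' := by
      rw [hg, hg'] at h1
      simpa using h1
    have h2 : gm n P M = gm n P M' := by rw [hg, hg', hz]
    unfold gm at h2
    have h3 := add_left_cancel h2
    refine Matrix.ext fun i j => ?_
    have h4 := congrFun (congrFun h3 i) j
    rw [Matrix.smul_apply, Matrix.smul_apply, smul_eq_mul, smul_eq_mul] at h4
    exact mul_left_cancel₀ hn0 h4
  rcases (ZS q n P).eq_empty_or_nonempty with h0 | ⟨M₁, z₁, hz₁, hg₁⟩
  · rw [h0]
    exact ⟨Set.finite_empty, by simp⟩
  · have hsub : (fun M : M3 q => gm n P M 0 0) '' ZS q n P ⊆ {z₁, -(P : OK q) - z₁} := by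
      rintro _ ⟨M, ⟨z, hz, hg⟩, rfl⟩
      have h1 : (z - z₁) * (z + z₁ + P) = 0 := by linear_combination hz - hz₁
      have h2 : gm n P M 0 0 = z := by rw [hg]; simp
      simp only [h2, Set.mem_insert_iff, Set.mem_singleton_iff]
      rcases mul_eq_zero.1 h1 with h3 | h3
      · exact Or.inl (sub_eq_zero.1 h3)
      · right
        linear_combination h3
    have hf : ({z₁, -(P : OK q) - z₁} : Set (OK q)).Finite := Set.toFinite _
    refine ⟨Set.Finite.of_finite_image (hf.subset hsub) hinj, ?_⟩
    rw [← Set.InjOn.ncard_image hinj]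
    refine (Set.ncard_le_ncard hsub hf).trans ?_
    refine (Set.ncard_insert_le _ _).trans ?_
    rw [Set.ncard_singleton]

/-- (Compare `sq_zero` of `Lib/H89D/V2.lean`.)
PROOF. By `elt_skew`, `P (Mᴴ J + J M) = -n μ J`; multiply by `J` from the left, put `M† = J Mᴴ J`,
`g† = J gᴴ J = P + n M†`: `P (M + M†) = -n μ`. As `gcd (n, P) = 1`, `P` divides `μ` (look at the entry
`0 0` and at `star_eq_self`, integers): `μ = P μ'`, `M + M† = -n μ'`, and `g + g† = s` with the integer
`s = 2 P - n² μ'`. Also `g† g = P²`. So `g² = s g - P²`. With `t = trace g`: `trace g† = star t`, so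
`t + star t = 3 s`. `det g† = star (det g) = P³` and `g† = s - g`; expanding the determinant,
`det (s - g) = s³ - t s² + (trace (adjugate g)) s - det g`, and `adjugate g = P g†` (since `g g† = P²`,
`g adjugate g = P³`) has trace `P star t`. So `s³ - t s² + P star t s = 2 P³`; add the conjugate and use
`t + star t = 3 s`: `2 s³ - 3 s³ + 3 P s² = 4 P³`, i.e. `(s - 2 P)² (s + P) = 0`.
Case `s = 2 P`: `n² μ' = 0`, `μ' = 0`, `μ = 0`, so `Mᴴ J = -J M` and `J Mᴴ J M = 0` give `M² = 0`.
Case `s = -P`: `g² + P g + P² = 0`, so `g³ = P³` (multiply by `g - P`). Cayley-Hamilton: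
`g³ - t g² + P star t g - P³ = 0`, so `-t g² + P star t g = 0`; `g` has a nonzero determinant, so
`t g = P star t` (multiply by the adjugate). `t ≠ 0` as `t + star t = -3 P`. Comparing entries, `g` is a
scalar matrix: its off-diagonal entries vanish and its diagonal entries are equal (to `z`, `t z = P star t`),
and `z² + P z + P² = 0`. -/
theorem scal {n P : ℕ} (hn : 1 ≤ n) (hP : 1 ≤ P) (hnP : Nat.Coprime n P) {M : M3 q}
    (h : Elt n P M) {μ : ℤ} (hμ : Mᴴ * JZ q * M = (μ : OK q) • JZ q) :
    (M * M = 0 ∧ Mᴴ * JZ q = -(JZ q * M)) ∨ M ∈ ZS q n P := by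
  have hsk := elt_skew hn h
  obtain ⟨hu, hd⟩ := h
  have hP0 : (P : OK q) ≠ 0 := by
    have : P ≠ 0 := by omega
    exact_mod_cast this
  have hPZ : (P : ℤ) ≠ 0 := by omega
  rw [hμ] at hsk
  -- `P` divides `μ`
  have hPμ : (P : ℤ) ∣ μ := by
    have h1 := congrFun (congrFun hsk 0) 2
    have h2 : (P : OK q) * ((Mᴴ * JZ q + JZ q * M) 0 2) = ((-(n * μ) : ℤ) : OK q) := by
      simp only [Matrix.add_apply, Matrix.smul_apply, smul_eq_mul, Matrix.zero_apply] at h1 ⊢
      have h3 : JZ q 0 2 = 1 := by simp [JZ]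
      rw [h3] at h1
      push_cast
      linear_combination h1
    have h3 := congrArg QuadraticAlgebra.re h2
    rw [QuadraticAlgebra.re_intCast, Int.cast_id] at h3
    have h4 : ((P : OK q) * ((Mᴴ * JZ q + JZ q * M) 0 2)).re =
        (P : ℤ) * ((Mᴴ * JZ q + JZ q * M) 0 2).re := by
      simp [QuadraticAlgebra.re_mul]
    rw [h4] at h3
    have h5 : (P : ℤ) ∣ n * μ := by
      rw [← dvd_neg, ← h3]
      exact dvd_mul_right _ _
    have h6 : IsCoprime (P : ℤ) (n : ℤ) := by
      rw [Nat.isCoprime_iff_coprime]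
      exact hnP.symm
    exact h6.dvd_of_dvd_mul_left h5
  obtain ⟨μ', hμ'⟩ := hPμ
  have hsk2 : Mᴴ * JZ q = -(JZ q * M) - ((n : OK q) * (μ' : OK q)) • JZ q := by
    have h1 : (P : OK q) • (Mᴴ * JZ q + JZ q * M + ((n : OK q) * (μ' : OK q)) • JZ q) = 0 := by
      rw [smul_add, ← hsk, hμ']
      congr 1
      rw [smul_smul, smul_smul]
      congr 1
      push_cast
      ring
    have h2 := (smul_eq_zero.1 h1).resolve_left hP0
    have h3 : Mᴴ * JZ q + JZ q * M + ((n : OK q) * (μ' : OK q)) • JZ q -
      (JZ q * M + ((n : OK q) * (μ' : OK q)) • JZ q) = 0 - (JZ q * M + ((n : OK q) * (μ' : OK q)) • JZ q) := by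
      rw [h2]
    have h4 : Mᴴ * JZ q + JZ q * M + ((n : OK q) * (μ' : OK q)) • JZ q -
      (JZ q * M + ((n : OK q) * (μ' : OK q)) • JZ q) = Mᴴ * JZ q := by abel
    rw [h4] at h3
    rw [h3]
    abel
  set g : M3 q := gm n P M with hg
  set s : ℤ := 2 * P - (n : ℤ) ^ 2 * μ' with hsd
  have hgH : gᴴ * JZ q = (s : OK q) • JZ q - JZ q * g := by
    have h2 : gᴴ = (P : OK q) • (1 : M3 q) + (n : OK q) • Mᴴ := by
      rw [hg, gm, conjTranspose_add, conjTranspose_smul, conjTranspose_one, conjTranspose_smul,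
        star_natCast, star_natCast]
    rw [h2, hg, gm, Matrix.add_mul, Matrix.smul_mul, Matrix.smul_mul, hsk2, Matrix.mul_add,
      Matrix.mul_smul, Matrix.mul_smul, Matrix.one_mul, Matrix.mul_one, hsd]
    push_cast
    refine Matrix.ext fun i j => ?_
    simp only [Matrix.sub_apply, Matrix.add_apply, Matrix.smul_apply, Matrix.neg_apply,
      smul_eq_mul]
    ring
  have hsg : g * ((s : OK q) • (1 : M3 q) - g) = ((P : OK q) ^ 2) • (1 : M3 q) := by
    have h1 : JZ q * (g * ((s : OK q) • (1 : M3 q) - g)) = JZ q * (((P : OK q) ^ 2) • (1 : M3 q)) := by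
      rw [Matrix.mul_smul, Matrix.mul_one, ← hu, hgH, Matrix.sub_mul, Matrix.smul_mul,
        Matrix.mul_sub, Matrix.mul_sub, Matrix.mul_smul, Matrix.mul_one, Matrix.mul_smul,
        Matrix.mul_assoc]
    have h2 := congrArg (fun A => JZ q * A) h1
    simp only [← Matrix.mul_assoc, V2_JJ, Matrix.one_mul] at h2
    rw [← h2]
  have hadj : adjugate g = (P : OK q) • ((s : OK q) • (1 : M3 q) - g) := by
    have h1 : ((P : OK q) ^ 2) • adjugate g =
        ((P : OK q) ^ 2) • ((P : OK q) • ((s : OK q) • (1 : M3 q) - g)) := by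
      calc ((P : OK q) ^ 2) • adjugate g = adjugate g * (((P : OK q) ^ 2) • (1 : M3 q)) := by
            rw [Matrix.mul_smul, Matrix.mul_one]
        _ = adjugate g * (g * ((s : OK q) • (1 : M3 q) - g)) := by rw [hsg]
        _ = ((P : OK q) ^ 3) • ((s : OK q) • (1 : M3 q) - g) := by
            rw [← Matrix.mul_assoc, Matrix.adjugate_mul, hd, Matrix.smul_mul, Matrix.one_mul]
        _ = _ := by rw [smul_smul]; congr 1
    refine Matrix.ext fun i j => ?_
    have h2 := congrFun (congrFun h1 i) j
    rw [Matrix.smul_apply, Matrix.smul_apply (A := (P : OK q) • ((s : OK q) • (1 : M3 q) - g)),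
      smul_eq_mul, smul_eq_mul] at h2
    exact mul_left_cancel₀ (pow_ne_zero 2 hP0) h2
  have htr : ((s : OK q) • (1 : M3 q) - g).trace = 3 * s - g.trace := by
    rw [Matrix.trace_sub, Matrix.trace_smul, Matrix.trace_one]
    simp
    ring
  have ht : star g.trace = 3 * s - g.trace := by
    have h1 : gᴴ = ((s : OK q) • JZ q - JZ q * g) * JZ q := by
      rw [← hgH, Matrix.mul_assoc, V2_JJ, Matrix.mul_one]
    rw [← Matrix.trace_conjTranspose, h1, Matrix.sub_mul, Matrix.smul_mul, V2_JJ,
      Matrix.trace_sub, Matrix.trace_mul_comm (JZ q * g), ← Matrix.mul_assoc, V2_JJ,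
      Matrix.one_mul, Matrix.trace_smul, Matrix.trace_one]
    simp
    ring
  have hdet : ((s : OK q) • (1 : M3 q) - g).det = (P : OK q) ^ 3 := by
    have h6 := congrArg Matrix.det hsg
    rw [Matrix.det_mul, hd, Matrix.det_smul, Matrix.det_one, mul_one] at h6
    have h7 : (P : OK q) ^ 3 * ((s : OK q) • (1 : M3 q) - g).det =
        (P : OK q) ^ 3 * (P : OK q) ^ 3 := by
      rw [h6]
      simp
      ring
    exact mul_left_cancel₀ (pow_ne_zero 3 hP0) h7
  have htadj : (adjugate g).trace = P * (3 * s - g.trace) := by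
    rw [hadj, Matrix.trace_smul, htr, smul_eq_mul]
  rw [V2_det, htadj, hd] at hdet
  have hdet' := congrArg star hdet
  have hstar : star ((s : OK q) ^ 3 - (s : OK q) ^ 2 * g.trace + s * (P * (3 * s - g.trace)) -
      (P : OK q) ^ 3) = (s : OK q) ^ 3 - (s : OK q) ^ 2 * star g.trace +
        s * (P * (3 * s - star g.trace)) - (P : OK q) ^ 3 := by
    have e1 : star ((s : ℤ) : OK q) = (s : ℤ) := star_intCast _
    have e2 : star ((P : ℕ) : OK q) = (P : ℕ) := star_natCast _
    have e3 : star (3 : OK q) = 3 := by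
      have := star_natCast (R := OK q) 3
      exact_mod_cast this
    simp only [star_sub, star_add, star_mul', star_pow, e1, e2, e3]
  have hstar2 : star ((P : OK q) ^ 3) = (P : OK q) ^ 3 := by
    rw [star_pow, star_natCast]
  rw [hstar, hstar2, ht] at hdet'
  have hs0 : (s - 2 * P) ^ 2 * (s + P) = 0 := by
    have : (((s - 2 * P) ^ 2 * (s + P) : ℤ) : OK q) = ((0 : ℤ) : OK q) := by
      push_cast
      linear_combination -hdet - hdet'
    exact_mod_cast this
  rcases mul_eq_zero.1 hs0 with h1 | h1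
  · left
    have h2 : s - 2 * P = 0 := pow_eq_zero_iff (two_ne_zero) |>.mp h1
    have h3 : μ' = 0 := by
      have h10 : (n : ℤ) ^ 2 * μ' = 0 := by omega
      rcases mul_eq_zero.mp h10 with h11 | h11
      · have : (n : ℤ) = 0 := by simpa using h11
        omega
      · exact h11
    rw [h3] at hsk2
    simp only [Int.cast_zero, mul_zero, zero_smul, sub_zero] at hsk2
    refine ⟨?_, hsk2⟩
    rw [hμ', h3, hsk2] at hμ
    simp only [mul_zero, Int.cast_zero, zero_smul] at hμ
    have h4 := congrArg (fun A => JZ q * A) hμ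
    simp only [Matrix.neg_mul, Matrix.mul_neg, Matrix.mul_zero, Matrix.mul_assoc] at h4
    rw [← Matrix.mul_assoc, V2_JJ, Matrix.one_mul] at h4
    exact neg_eq_zero.1 h4
  · right
    have h2 : (s : OK q) = -(P : OK q) := by
      have : s = -(P : ℤ) := by omega
      rw [this]
      push_cast
      ring
    rw [h2] at hsg ht hadj htadj
    have hgg : g * g = -((P : OK q) • g) - ((P : OK q) ^ 2) • (1 : M3 q) := by
      rw [← hsg, Matrix.mul_sub, Matrix.mul_smul, Matrix.mul_one, neg_smul]
      abel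
    have hadj2 := V2_adj g
    have htg : g.trace • g = ((P : OK q) * star g.trace) • (1 : M3 q) := by
      rw [htadj, hadj, hgg, ← ht] at hadj2
      have h3 : (P : OK q) • (-(P : OK q) • (1 : M3 q) - g) =
        -((P : OK q) • g) - ((P : OK q) ^ 2) • (1 : M3 q) := by
        refine Matrix.ext fun i j => ?_
        simp only [Matrix.sub_apply, Matrix.smul_apply, Matrix.neg_apply, smul_eq_mul]
        ring
      rw [h3] at hadj2
      refine Matrix.ext fun i j => ?_
      have h4 := congrFun (congrFun hadj2 i) j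
      simp only [Matrix.sub_apply, Matrix.add_apply, Matrix.smul_apply, Matrix.neg_apply,
        smul_eq_mul] at h4 ⊢
      linear_combination h4
    have ht0 : g.trace ≠ 0 := by
      intro h3
      rw [h3] at ht
      simp only [star_zero, sub_zero] at ht
      have h4 : ((3 * P : ℕ) : OK q) = 0 := by
        push_cast
        linear_combination ht
      rw [Nat.cast_eq_zero] at h4
      omega
    have hent : ∀ i j, g.trace * g i j = ((P : OK q) * star g.trace) * (1 : M3 q) i j := by
      intro i j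
      have h3 := congrFun (congrFun htg i) j
      simpa only [Matrix.smul_apply, smul_eq_mul] using h3
    refine ⟨g 0 0, ?_, ?_⟩
    · have h3 := congrFun (congrFun hgg 0) 0
      have h01 : g 0 1 = 0 := by
        have := hent 0 1
        simp at this
        exact this.resolve_left ht0
      have h02 : g 0 2 = 0 := by
        have := hent 0 2
        simp at this
        exact this.resolve_left ht0
      rw [Matrix.mul_apply, Fin.sum_univ_three, h01, h02] at h3
      simp only [Matrix.sub_apply, Matrix.smul_apply, Matrix.neg_apply, smul_eq_mul,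
        Matrix.one_apply_eq] at h3
      linear_combination h3
    · refine Matrix.ext fun i j => ?_
      rw [Matrix.smul_apply, smul_eq_mul]
      apply mul_left_cancel₀ ht0
      have h3 := hent 0 0
      rw [Matrix.one_apply_eq] at h3
      rw [hent i j]
      linear_combination (-((1 : M3 q) i j)) * h3

end Pool.Agent.Lib.H80C
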