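import Pool.Agent.Lib.H80C.REL
import Pool.Agent.Lib.H80C.V1
import Pool.Agent.Lib.H80C.V2
import Pool.Agent.Lib.H80C.CJ

/-!
# CA1: the dichotomy
-/

namespace Pool.Agent.Lib.H80C

open Matrix

variable {q : QF}

/-- The dichotomy. (Compare `Lib/H89D/CA1.lean`.)

PROOF. `Q = Mᴴ J M` is Hermitian; take `D` as in `herm_max` and let `M' = cj D M`; `cj_elt`,
`rels_of_elt` give `ρ, η, τ` with `RelsM n P M' ρ η τ`. By `cj_form`, `form_entries` (for `M'`):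
`(Dᴴ Q D) 0 0 = -P ρ` and `P (M' 1 0 + star (M' 2 1)) = -n (Dᴴ Q D) 1 0`, so
`P ab (M' 1 0 + star (M' 2 1)) = n ab ((Dᴴ Q D) 1 0) ≤ n B P |ρ|`. If `ρ ≠ 0` we are in the third case. If
`ρ = 0` then `Q = μ J`; `scal`. -/
theorem dichotomy (q : QF) : ∃ B : ℝ, 0 < B ∧ ∀ n P : ℕ, 1 ≤ n → 1 ≤ P → Nat.Coprime n P →
    ∀ M : M3 q, Elt n P M → (M * M = 0 ∧ Mᴴ * JZ q = -(JZ q * M)) ∨ M ∈ ZS q n P ∨
      ∃ D ∈ EL q, ∃ (ρ η : ℤ) (τ : OK q), RelsM n P (cj D M) ρ η τ ∧ ρ ≠ 0 ∧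
        ab (cj D M 1 0 + star (cj D M 2 1)) ≤ B * n * |(ρ : ℝ)| := by
  obtain ⟨B, hB, hh⟩ := herm_max q
  refine ⟨B, hB, fun n P hn hP hnP M hM => ?_⟩
  have hQ : (Mᴴ * JZ q * M)ᴴ = Mᴴ * JZ q * M := by
    rw [Matrix.conjTranspose_mul, Matrix.conjTranspose_mul, Matrix.conjTranspose_conjTranspose,
      CJ_JH, Matrix.mul_assoc]
  obtain ⟨D, hD, h1, h2⟩ := hh _ hQ
  have hu := EL_unitary hD
  have hE := cj_elt hu hM
  obtain ⟨ρ, η, τ, hr⟩ := rels_of_elt hn hP hnP hE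
  obtain ⟨f1, f2⟩ := form_entries hn hE hr
  rw [cj_form hu] at f1 f2
  have hP0 : (0 : ℝ) < P := by exact_mod_cast hP
  by_cases hρ : ρ = 0
  · rw [hρ] at f1
    obtain ⟨μ, hμ⟩ := h2 (by rw [f1]; simp)
    rcases scal hn hP hnP hM hμ with h3 | h3
    · exact Or.inl h3
    · exact Or.inr (Or.inl h3)
  · refine Or.inr (Or.inr ⟨D, hD, ρ, η, τ, hr, hρ, ?_⟩)
    have e1 : ab ((Dᴴ * (Mᴴ * JZ q * M) * D) 0 0) = P * |(ρ : ℝ)| := by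
      rw [f1, ab_neg, ab_mul, ab_natCast, ab_intCast]
    have e2 : P * ab (cj D M 1 0 + star (cj D M 2 1)) =
        n * ab ((Dᴴ * (Mᴴ * JZ q * M) * D) 1 0) := by
      have h3 := congrArg ab f2
      rw [ab_mul, ab_neg, ab_mul, ab_natCast, ab_natCast] at h3
      exact h3
    rw [e1] at h1
    have h4 : (P : ℝ) * ab (cj D M 1 0 + star (cj D M 2 1)) ≤ P * (B * n * |(ρ : ℝ)|) := by
      rw [e2]
      calc (n : ℝ) * ab ((Dᴴ * (Mᴴ * JZ q * M) * D) 1 0) ≤ n * (B * (P * |(ρ : ℝ)|)) :=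
            mul_le_mul_of_nonneg_left h1 (Nat.cast_nonneg n)
        _ = P * (B * n * |(ρ : ℝ)|) := by ring
    exact le_of_mul_le_mul_left h4 hP0

end Pool.Agent.Lib.H80C
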