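import Mathlib

/-!
# Counting elements of `SU(2,1)` over imaginary quadratic orders: definitions

`OK q = ℤ[ω]`, `ω² = t ω - n`, is an imaginary quadratic order. We count matrices
`g = P + n M` (`P`, `n` coprime positive integers, `M` a matrix over `OK q`) with
`gᴴ J g = P² J`, `det g = P³`. For `P = 1` these are the elements of the principal congruence
subgroup `Γ(n)` of `SU(2,1; OK q)`; for `P = p ^ j` the matrices `p ^ j γ`, `γ ∈ SU(2,1; OK q [1/p])`,
`γ ≡ 1` modulo `n`. See PROOF.md.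
-/

namespace Pool.Agent.Lib.H80C

open Matrix

/-- Parameters of an imaginary quadratic order. -/
structure QF where
  /-- trace of `ω` -/
  t : ℤ
  /-- norm of `ω` -/
  n : ℤ
  /-- the discriminant is negative -/
  pos : 0 < 4 * n - t ^ 2

/-- Absolute value of the discriminant. -/
def dd (q : QF) : ℤ := 4 * q.n - q.t ^ 2

/-- The order `ℤ[ω]`; elements `⟨x, y⟩ = x + y ω`, `star` is complex conjugation. -/
abbrev OK (q : QF) : Type := QuadraticAlgebra ℤ (-q.n) q.t

variable {q : QF}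

lemma dd_pos (q : QF) : 0 < dd q := q.pos

/-- The norm `z star z`. -/
def nm (z : OK q) : ℤ := z.re ^ 2 + q.t * (z.re * z.im) + q.n * z.im ^ 2

lemma nm_eq (z : OK q) : ((nm z : ℤ) : OK q) = z * star z := by
  apply QuadraticAlgebra.ext
  · rw [QuadraticAlgebra.re_intCast, Int.cast_id, QuadraticAlgebra.re_mul, QuadraticAlgebra.re_star,
      QuadraticAlgebra.im_star, nm]
    ring
  · rw [QuadraticAlgebra.im_intCast, QuadraticAlgebra.im_mul, QuadraticAlgebra.re_star,
      QuadraticAlgebra.im_star]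
    ring

/-- `ω` as a complex number. -/
noncomputable def omC (q : QF) : ℂ := ⟨(q.t : ℝ) / 2, √(dd q : ℝ) / 2⟩

lemma omC_sq (q : QF) : omC q * omC q = q.t * omC q - q.n := by
  have h : √(dd q : ℝ) * √(dd q : ℝ) = 4 * q.n - q.t ^ 2 := by
    rw [Real.mul_self_sqrt (by exact_mod_cast (dd_pos q).le), dd]
    push_cast
    ring
  apply Complex.ext
  · simp only [omC, Complex.mul_re, Complex.sub_re, Complex.intCast_re, Complex.intCast_im]
    linear_combination -(1 / 4 : ℝ) * h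
  · simp only [omC, Complex.mul_im, Complex.sub_im, Complex.intCast_re, Complex.intCast_im]
    ring

/-- The embedding into the complex numbers. -/
noncomputable def toC (q : QF) : OK q →+* ℂ where
  toFun z := z.re + z.im * omC q
  map_one' := by simp [QuadraticAlgebra.re_one, QuadraticAlgebra.im_one]
  map_mul' z w := by
    have h := omC_sq q
    simp only [QuadraticAlgebra.re_mul, QuadraticAlgebra.im_mul]
    push_cast
    linear_combination (-(z.im : ℂ) * w.im) * h
  map_zero' := by simp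
  map_add' z w := by
    simp only [QuadraticAlgebra.re_add, QuadraticAlgebra.im_add]
    push_cast
    ring

lemma toC_apply (z : OK q) : toC q z = z.re + z.im * omC q := rfl

lemma toC_re (z : OK q) : (toC q z).re = z.re + z.im * q.t / 2 := by
  simp [toC_apply, omC]
  ring

lemma toC_im (z : OK q) : (toC q z).im = z.im * √(dd q : ℝ) / 2 := by
  simp [toC_apply, omC]
  ring

lemma toC_star (z : OK q) : toC q (star z) = star (toC q z) := by
  apply Complex.ext
  · rw [toC_re, Complex.star_def, Complex.conj_re, toC_re]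
    simp
    ring
  · rw [toC_im, Complex.star_def, Complex.conj_im, toC_im]
    simp
    ring

/-- Complex absolute value. -/
noncomputable def ab (z : OK q) : ℝ := ‖toC q z‖

/-- The content: the largest integer dividing `z`. -/
def ct (z : OK q) : ℕ := Int.gcd z.re z.im

/-- The square root of minus the discriminant, `2 ω - t`. -/
def dl (q : QF) : OK q := ⟨-q.t, 2⟩

lemma star_dl (q : QF) : star (dl q) = -dl q := by
  ext <;> simp [dl]
  ring

lemma dl_mul (q : QF) : dl q * star (dl q) = (dd q : ℤ) := by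
  apply QuadraticAlgebra.ext
  · rw [QuadraticAlgebra.re_intCast, Int.cast_id, QuadraticAlgebra.re_mul, QuadraticAlgebra.re_star,
      QuadraticAlgebra.im_star, dd]
    simp only [dl]
    ring
  · rw [QuadraticAlgebra.im_intCast, QuadraticAlgebra.im_mul, QuadraticAlgebra.re_star,
      QuadraticAlgebra.im_star]
    simp only [dl]
    ring

/-- The trace `z + star z`. -/
def tr (z : OK q) : ℤ := 2 * z.re + q.t * z.im

lemma tr_eq (z : OK q) : ((tr z : ℤ) : OK q) = z + star z := by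
  apply QuadraticAlgebra.ext
  · rw [QuadraticAlgebra.re_intCast, Int.cast_id, QuadraticAlgebra.re_add,
      QuadraticAlgebra.re_star, tr]
    ring
  · rw [QuadraticAlgebra.im_intCast, QuadraticAlgebra.im_add, QuadraticAlgebra.im_star]
    ring

/-- The generator `ω`. -/
def om (q : QF) : OK q := ⟨0, 1⟩

lemma eq_add_om (z : OK q) : z = (z.re : ℤ) + (z.im : ℤ) * om q := by
  apply QuadraticAlgebra.ext
  · simp [om]
  · simp [om]

/-- `3 × 3` matrices over the order. -/
abbrev M3 (q : QF) : Type := Matrix (Fin 3) (Fin 3) (OK q)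

/-- The Hermitian matrix. -/
def JZ (q : QF) : M3 q := !![0, 0, 1; 0, 1, 0; 1, 0, 0]

/-- The matrix `P + n M`. -/
def gm (n P : ℕ) (M : M3 q) : M3 q := (P : OK q) • (1 : M3 q) + (n : OK q) • M

/-- `g = P + n M` satisfies `gᴴ J g = P² J`, `det g = P³`. -/
def Elt (n P : ℕ) (M : M3 q) : Prop :=
  (gm n P M)ᴴ * JZ q * gm n P M = ((P : OK q) ^ 2) • JZ q ∧ (gm n P M).det = (P : OK q) ^ 3

/-- All entries of `P + n M` have absolute value at most `H`. -/
def Bdd (n P : ℕ) (H : ℝ) (M : M3 q) : Prop := ∀ i j, ab (gm n P M i j) ≤ H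

/-- The trace of `P + n M` has absolute value at most `X`. -/
def Tdd (n P : ℕ) (X : ℝ) (M : M3 q) : Prop := ab (gm n P M).trace ≤ X

/-- The relations between the entries `a f g; b h k; c d e` of `M`. -/
structure Rels (n P : ℕ) (a f g b h k c d e : OK q) (ρ η : ℤ) (τ : OK q) : Prop where
  hρ : b * d = P * ρ + c * h
  hc : c + star c = n * ρ
  ha : a * star c + star a * c = -(P * ρ) - b * star b
  he : e * star c + star e * c = -(P * ρ) - d * star d
  hτ : a + e + h = n * τ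
  hi : ∃ m : OK q, τ - star τ = n * m
  hf : P * (d + star b) + n * a * d = n * c * f
  hk : P * (b + star d) + n * b * e = n * c * k
  hη : h + star h = n * η
  hg : g * c = P * (τ - η) + a * e

/-- The relations for a matrix. -/
def RelsM (n P : ℕ) (M : M3 q) (ρ η : ℤ) (τ : OK q) : Prop :=
  Rels n P (M 0 0) (M 0 1) (M 0 2) (M 1 0) (M 1 1) (M 1 2) (M 2 0) (M 2 1) (M 2 2) ρ η τ

/-- The quantity `w = b c̄ - d̄ c`. -/
def ww (M : M3 q) : OK q := M 1 0 * star (M 2 0) - star (M 2 1) * M 2 0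

/-- The matrices satisfying the relations with `ρ ≠ 0`, `|b + d̄| ≤ B n |ρ|`, with entries of
`P + n M` bounded by `H` and trace bounded by `X`. -/
def SB (q : QF) (B : ℝ) (n P : ℕ) (H X : ℝ) : Set (M3 q) :=
  {M | ∃ ρ η τ, RelsM n P M ρ η τ ∧ ρ ≠ 0 ∧
    ab (M 1 0 + star (M 2 1)) ≤ B * n * |(ρ : ℝ)| ∧ Bdd n P H M ∧ Tdd n P X M}

/-- The elements of `SB` with given `c`, `τ`, `w`, `b`, `a`. -/
def PP (B : ℝ) (n P : ℕ) (H X : ℝ) (c τ w b a : OK q) : Prop :=
  ∃ (M : M3 q) (ρ η : ℤ), RelsM n P M ρ η τ ∧ ρ ≠ 0 ∧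
    ab (M 1 0 + star (M 2 1)) ≤ B * n * |(ρ : ℝ)| ∧ Bdd n P H M ∧ Tdd n P X M ∧
    M 2 0 = c ∧ ww M = w ∧ M 1 0 = b ∧ M 0 0 = a

/-- The possible lower left entries `c`. -/
def CC (q : QF) (n : ℕ) (H : ℝ) : Set (OK q) :=
  {c | (∃ ρ : ℤ, ρ ≠ 0 ∧ c + star c = n * ρ) ∧ n * ab c ≤ H}

/-! ### Basic facts on `ab` -/

lemma ab_nonneg (z : OK q) : 0 ≤ ab z := norm_nonneg _

lemma ab_mul (z w : OK q) : ab (z * w) = ab z * ab w := by
  unfold ab
  rw [map_mul, norm_mul]

lemma ab_add_le (z w : OK q) : ab (z + w) ≤ ab z + ab w := by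
  unfold ab
  rw [map_add]
  exact norm_add_le _ _

lemma ab_sub_le (z w : OK q) : ab (z - w) ≤ ab z + ab w := by
  unfold ab
  rw [map_sub]
  exact norm_sub_le _ _

lemma ab_neg (z : OK q) : ab (-z) = ab z := by
  unfold ab
  rw [map_neg, norm_neg]

lemma ab_zero : ab (0 : OK q) = 0 := by
  unfold ab
  rw [map_zero, norm_zero]

lemma ab_one : ab (1 : OK q) = 1 := by
  unfold ab
  rw [map_one, norm_one]

lemma ab_natCast (n : ℕ) : ab (n : OK q) = n := by
  unfold ab
  rw [map_natCast]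
  simp

lemma ab_intCast (n : ℤ) : ab (n : OK q) = |(n : ℝ)| := by
  unfold ab
  rw [map_intCast]
  simp

lemma ab_star (z : OK q) : ab (star z) = ab z := by
  unfold ab
  rw [toC_star, norm_star]

lemma ab_sq (z : OK q) : ab z ^ 2 = (nm z : ℝ) := by
  have h1 := congrArg (toC q) (nm_eq z)
  rw [map_mul, toC_star, map_intCast, Complex.star_def, Complex.mul_conj, Complex.normSq_eq_norm_sq] at h1
  unfold ab
  exact_mod_cast h1.symm

lemma nm_nonneg (z : OK q) : 0 ≤ nm z := by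
  have h := ab_sq z
  have h2 : (0 : ℝ) ≤ (nm z : ℝ) := by rw [← h]; positivity
  exact_mod_cast h2

lemma sqrt_dd_pos (q : QF) : 0 < √(dd q : ℝ) := Real.sqrt_pos.2 (by exact_mod_cast dd_pos q)

lemma three_le_dd (q : QF) : 3 ≤ dd q := by
  have h := q.pos
  unfold dd
  by_contra hcon
  push Not at hcon
  have h1 : 4 * q.n - q.t ^ 2 = 1 ∨ 4 * q.n - q.t ^ 2 = 2 := by omega
  have h2 : q.t ^ 2 % 4 = 0 ∨ q.t ^ 2 % 4 = 1 := by
    rcases Int.emod_two_eq_zero_or_one q.t with h3 | h3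
    · left
      obtain ⟨k, hk⟩ : ∃ k, q.t = 2 * k := ⟨q.t / 2, by omega⟩
      rw [hk]
      have : (2 * k) ^ 2 = 4 * (k ^ 2) := by ring
      omega
    · right
      obtain ⟨k, hk⟩ : ∃ k, q.t = 2 * k + 1 := ⟨q.t / 2, by omega⟩
      rw [hk]
      have : (2 * k + 1) ^ 2 = 4 * (k ^ 2 + k) + 1 := by ring
      omega
  omega

lemma toC_injective : Function.Injective (toC q) := by
  intro z w h
  have h1 := congrArg Complex.im h
  have h2 := congrArg Complex.re h
  rw [toC_im, toC_im] at h1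
  rw [toC_re, toC_re] at h2
  have hs := sqrt_dd_pos q
  have h3 : (z.im : ℝ) = w.im := by
    have : (z.im : ℝ) * √(dd q : ℝ) = w.im * √(dd q : ℝ) := by linarith
    exact mul_right_cancel₀ hs.ne' this
  rw [h3] at h2
  have h4 : (z.re : ℝ) = w.re := by linarith
  exact QuadraticAlgebra.ext (by exact_mod_cast h4) (by exact_mod_cast h3)

lemma ab_eq_zero {z : OK q} : ab z = 0 ↔ z = 0 := by
  unfold ab
  rw [norm_eq_zero]
  constructor
  · intro h
    apply toC_injective
    rw [h, map_zero]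
  · rintro rfl
    exact map_zero _

lemma nm_eq_zero {z : OK q} : nm z = 0 ↔ z = 0 := by
  rw [← ab_eq_zero]
  have h := ab_sq z
  constructor
  · intro h1
    rw [h1] at h
    simpa using h
  · intro h1
    rw [h1] at h
    have : (nm z : ℝ) = 0 := by rw [← h]; norm_num
    exact_mod_cast this

lemma one_le_ab {z : OK q} (hz : z ≠ 0) : 1 ≤ ab z := by
  have h0 : nm z ≠ 0 := fun h => hz (nm_eq_zero.1 h)
  have h1 : (1 : ℤ) ≤ nm z := by have := nm_nonneg z; omega
  have h2 : (1 : ℝ) ≤ ab z ^ 2 := by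
    rw [ab_sq]
    exact_mod_cast h1
  nlinarith [ab_nonneg z]

lemma ab_pos {z : OK q} (hz : z ≠ 0) : 0 < ab z := lt_of_lt_of_le one_pos (one_le_ab hz)

instance : NoZeroDivisors (OK q) where
  eq_zero_or_eq_zero_of_mul_eq_zero {z w} h := by
    have h1 := congrArg ab h
    rw [ab_mul, ab_zero, mul_eq_zero] at h1
    rcases h1 with h1 | h1
    · exact Or.inl (ab_eq_zero.1 h1)
    · exact Or.inr (ab_eq_zero.1 h1)

instance : CharZero (OK q) where
  cast_injective := by
    intro m n h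
    have := congrArg QuadraticAlgebra.re h
    simpa using this

instance : IsDomain (OK q) := NoZeroDivisors.to_isDomain _

lemma abs_im_le (z : OK q) : |(z.im : ℝ)| ≤ 2 * ab z := by
  have h := Complex.abs_im_le_norm (toC q z)
  rw [toC_im, abs_div, abs_mul, abs_of_pos (sqrt_dd_pos q), abs_of_pos (by norm_num : (0 : ℝ) < 2)] at h
  have h1 : (1 : ℝ) ≤ √(dd q : ℝ) := by
    rw [Real.one_le_sqrt]
    have := three_le_dd q
    exact_mod_cast (by omega : (1 : ℤ) ≤ dd q)
  have h2 := abs_nonneg (z.im : ℝ)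
  unfold ab
  nlinarith

lemma abs_re_le (z : OK q) : |(z.re : ℝ)| ≤ (1 + |(q.t : ℝ)|) * ab z := by
  have h := Complex.abs_re_le_norm (toC q z)
  rw [toC_re] at h
  have h1 := abs_im_le z
  have h2 : |(z.re : ℝ)| ≤ |(z.re : ℝ) + z.im * q.t / 2| + |(z.im : ℝ) * q.t / 2| := by
    calc |(z.re : ℝ)| = |((z.re : ℝ) + z.im * q.t / 2) - z.im * q.t / 2| := by ring_nf
      _ ≤ _ := abs_sub _ _
  rw [abs_div, abs_mul, abs_of_pos (by norm_num : (0 : ℝ) < 2)] at h2
  have h3 := abs_nonneg (q.t : ℝ)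
  have h4 : |(z.im : ℝ)| * |(q.t : ℝ)| ≤ 2 * ab z * |(q.t : ℝ)| := mul_le_mul_of_nonneg_right h1 h3
  have h5 : ab z = ‖toC q z‖ := rfl
  rw [← h5] at h
  nlinarith

lemma ab_le_add (z : OK q) : ab z ≤ |(z.re : ℝ)| + (1 + dd q) * (1 + |(q.t : ℝ)|) * |(z.im : ℝ)| := by
  have h := Complex.norm_le_abs_re_add_abs_im (toC q z)
  rw [toC_re, toC_im] at h
  have h1 : |(z.re : ℝ) + z.im * q.t / 2| ≤ |(z.re : ℝ)| + |(z.im : ℝ)| * |(q.t : ℝ)| / 2 := by
    refine (abs_add_le _ _).trans ?_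
    rw [abs_div, abs_mul, abs_of_pos (by norm_num : (0 : ℝ) < 2)]
  have h2 : |(z.im : ℝ) * √(dd q : ℝ) / 2| = |(z.im : ℝ)| * √(dd q : ℝ) / 2 := by
    rw [abs_div, abs_mul, abs_of_pos (sqrt_dd_pos q), abs_of_pos (by norm_num : (0 : ℝ) < 2)]
  have hD : (3 : ℝ) ≤ dd q := by exact_mod_cast three_le_dd q
  have h3 : √(dd q : ℝ) ≤ dd q := by
    rw [Real.sqrt_le_left (by linarith)]
    nlinarith
  have h4 := abs_nonneg (q.t : ℝ)
  have h5 := abs_nonneg (z.im : ℝ)
  have h6 : ab z = ‖toC q z‖ := rfl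
  rw [h2] at h
  rw [← h6] at h
  have h7 : |(z.im : ℝ)| * √(dd q : ℝ) ≤ |(z.im : ℝ)| * dd q := mul_le_mul_of_nonneg_left h3 h5
  have h8 : 0 ≤ |(z.im : ℝ)| * |(q.t : ℝ)| := by positivity
  have h9 : 0 ≤ |(z.im : ℝ)| * |(q.t : ℝ)| * dd q := by positivity
  nlinarith

lemma star_eq_self {z : OK q} (h : star z = z) : z = (z.re : ℤ) := by
  have h1 := congrArg QuadraticAlgebra.im h
  simp at h1
  ext
  · simp
  · simp
    omega

lemma star_eq_neg {z : OK q} (h : star z = -z) : 2 * z = (z.im : ℤ) * dl q := by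
  have h1 := congrArg QuadraticAlgebra.re h
  simp at h1
  ext
  · simp [dl, QuadraticAlgebra.re_mul]
    have : (2 : OK q).re = 2 := rfl
    have : (2 : OK q).im = 0 := rfl
    simp [*]
    linarith
  · simp [dl, QuadraticAlgebra.im_mul]
    have : (2 : OK q).re = 2 := rfl
    have : (2 : OK q).im = 0 := rfl
    simp [*]
    ring

lemma dvd_ct {μ : ℕ} {z : OK q} : μ ∣ ct z ↔ ∃ z' : OK q, z = μ * z' := by
  unfold ct
  constructor
  · intro h
    have h1 : (μ : ℤ) ∣ z.re := (Int.natCast_dvd_natCast.2 h).trans (Int.gcd_dvd_left _ _)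
    have h2 : (μ : ℤ) ∣ z.im := (Int.natCast_dvd_natCast.2 h).trans (Int.gcd_dvd_right _ _)
    obtain ⟨x, hx⟩ := h1
    obtain ⟨y, hy⟩ := h2
    refine ⟨⟨x, y⟩, ?_⟩
    ext
    · simp [hx]
    · simp [hy]
  · rintro ⟨z', rfl⟩
    apply Int.dvd_gcd
    · exact ⟨z'.re, by simp [QuadraticAlgebra.re_mul]⟩
    · exact ⟨z'.im, by simp [QuadraticAlgebra.im_mul]⟩

lemma ct_ne_zero {z : OK q} (hz : z ≠ 0) : ct z ≠ 0 := by
  intro h
  unfold ct at h
  rw [Int.gcd_eq_zero_iff] at h
  exact hz (QuadraticAlgebra.ext h.1 h.2)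

end Pool.Agent.Lib.H80C
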