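import Pool.Agent.Lib.H80C.BC
import Pool.Agent.Lib.H80C.AC
import Pool.Agent.Lib.H89D.Defs

/-!
# FB: the number of `(b, a)` for given `c`, `τ`, `w`
-/

namespace Pool.Agent.Lib.H80C

variable {q : QF}

theorem FB_fiber {B : Set (OK q)} (hB : B.Finite) (T : Set (OK q × OK q)) (hT : ∀ p ∈ T, p.1 ∈ B)
    (K : ℝ) (h : ∀ b ∈ B, {a | (b, a) ∈ T}.Finite ∧ ({a | (b, a) ∈ T}.ncard : ℝ) ≤ K) :
    T.Finite ∧ (T.ncard : ℝ) ≤ B.ncard * K := by
  classical
  have hsub : T = ⋃ b ∈ hB.toFinset, (fun a => (b, a)) '' {a | (b, a) ∈ T} := by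
    ext ⟨b, a⟩
    simp only [Set.Finite.mem_toFinset, Set.mem_iUnion, Set.mem_image, Set.mem_ofPred_eq,
      Prod.mk.injEq, exists_prop]
    constructor
    · intro hp
      exact ⟨b, hT _ hp, a, hp, rfl, rfl⟩
    · rintro ⟨b', -, a', hp, rfl, rfl⟩
      exact hp
  have hfin : ∀ b ∈ hB.toFinset, ((fun a => (b, a)) '' {a | (b, a) ∈ T}).Finite := by
    intro b hb
    exact ((h b ((Set.Finite.mem_toFinset hB).1 hb)).1).image _
  refine ⟨?_, ?_⟩
  · rw [hsub]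
    exact Set.Finite.biUnion (Finset.finite_toSet _) hfin
  · have h1 : (T.ncard : ℝ) ≤ ∑ b ∈ hB.toFinset,
        (((fun a => (b, a)) '' {a | (b, a) ∈ T}).ncard : ℝ) := by
      conv_lhs => rw [hsub]
      exact_mod_cast Finset.set_ncard_biUnion_le _ _
    refine h1.trans ?_
    have h2 : ∀ b ∈ hB.toFinset, (((fun a => (b, a)) '' {a | (b, a) ∈ T}).ncard : ℝ) ≤ K := by
      intro b hb
      have h3 := h b ((Set.Finite.mem_toFinset hB).1 hb)
      refine le_trans ?_ h3.2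
      exact_mod_cast Set.ncard_image_le h3.1
    refine (Finset.sum_le_sum h2).trans (le_of_eq ?_)
    rw [Finset.sum_const, nsmul_eq_mul, Set.ncard_eq_toFinset_card _ hB]

lemma FB_ww {n P : ℕ} {c τ w : OK q} {ρ : ℤ} (hρ : c + star c = n * ρ) {M : M3 q}
    (hc : M 2 0 = c) (hw : ww M = w) :
    w = n * ρ * M 1 0 - (M 1 0 + star (M 2 1)) * c := by
  rw [← hw, ww, hc]
  linear_combination (M 1 0) * hρ

lemma FB_b {B : ℝ} {n P : ℕ} {H X : ℝ} (hn : 1 ≤ n)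
    {c τ w : OK q} {ρ : ℤ} (hρ : c + star c = n * ρ) {b₁ a₁ b a : OK q}
    (h₁ : PP B n P H X c τ w b₁ a₁) (h : PP B n P H X c τ w b a) :
    ab (b - b₁) ≤ 2 * B * ab c := by
  obtain ⟨M, r, η, hR, hr0, hB, h1, h2, hc, hw, hb, ha⟩ := h
  obtain ⟨M₁, r₁, η₁, hR₁, hr0₁, hB₁, h1₁, h2₁, hc₁, hw₁, hb₁, ha₁⟩ := h₁
  have hn0 : (n : OK q) ≠ 0 := by
    have : n ≠ 0 := by omega
    exact_mod_cast this
  have hρ' : ∀ r : ℤ, c + star c = n * r → r = ρ := by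
    intro r hr
    rw [hρ] at hr
    have := mul_left_cancel₀ hn0 hr
    exact_mod_cast this.symm
  have hcc := hR.hc
  have hcc₁ := hR₁.hc
  rw [hc] at hcc
  rw [hc₁] at hcc₁
  have e1 := hρ' r hcc
  have e2 := hρ' r₁ hcc₁
  subst e1
  subst e2
  have w1 := FB_ww (n := n) (P := P) (τ := τ) hρ hc hw
  have w2 := FB_ww (n := n) (P := P) (τ := τ) hρ hc₁ hw₁
  have key : ((n : OK q) * (r₁ : OK q)) * (b - b₁) =
      ((M 1 0 + star (M 2 1)) - (M₁ 1 0 + star (M₁ 2 1))) * c := by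
    rw [hb] at w1 ⊢
    rw [hb₁] at w2 ⊢
    linear_combination w2 - w1
  have h3 := congrArg ab key
  rw [ab_mul, ab_mul, ab_mul, ab_natCast, ab_intCast] at h3
  have h4 := ab_sub_le (M 1 0 + star (M 2 1)) (M₁ 1 0 + star (M₁ 2 1))
  have hnr : (0 : ℝ) < n := by
    have : 0 < n := by omega
    exact_mod_cast this
  have hrr : (0 : ℝ) < |(r₁ : ℝ)| := by
    rw [abs_pos]
    exact_mod_cast hr0
  have habc := ab_nonneg c
  have h5 : (n : ℝ) * |(r₁ : ℝ)| * ab (b - b₁) ≤ (n : ℝ) * |(r₁ : ℝ)| * (2 * B * ab c) := by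
    rw [h3]
    calc ab (M 1 0 + star (M 2 1) - (M₁ 1 0 + star (M₁ 2 1))) * ab c
        ≤ (B * n * |(r₁ : ℝ)| + B * n * |(r₁ : ℝ)|) * ab c :=
          mul_le_mul_of_nonneg_right (by linarith) habc
      _ = _ := by ring
  exact le_of_mul_le_mul_left h5 (by positivity)

theorem FB_elt {B : ℝ} {n P : ℕ} {H X : ℝ} (hn : 1 ≤ n) (hH : 1 ≤ H)
    {c τ w : OK q} {ρ : ℤ} (hρ : c + star c = n * ρ) {b₁ a₁ b a : OK q}
    (h₁ : PP B n P H X c τ w b₁ a₁) (h : PP B n P H X c τ w b a) :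
    c ≠ 0 ∧ n * ab c ≤ H ∧ ∃ μ : ℕ, 1 ≤ μ ∧ μ ∣ ct c ∧
      b ∈ BS c w (P * ρ) μ b₁ (2 * B * ab c) ∧
      {a | PP B n P H X c τ w b a}.Finite ∧
      ({a | PP B n P H X c τ w b a}.ncard : ℝ) ≤ 1 + 8 * dd q * (H / (n * ab c)) * μ := by
  have hsize := FB_b hn hρ h₁ h
  obtain ⟨M, ρ', η, hR, hρ0, hB, h1, h2, hc, hw, hb, ha⟩ := h
  have hn0 : (n : OK q) ≠ 0 := by
    have : n ≠ 0 := by omega
    exact_mod_cast this
  have hnr : (0 : ℝ) < n := by
    have : 0 < n := by omega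
    exact_mod_cast this
  have hcc := hR.hc
  have hρρ := hR.hρ
  have hff := hR.hf
  have hkk := hR.hk
  have hττ := hR.hτ
  rw [hc] at hcc hρρ hff hkk
  rw [hb] at hρρ hff hkk
  rw [ha] at hff hττ
  have hw' : b * star c - star (M 2 1) * c = w := by
    rw [← hw, ww, hb, hc]
  have hρ' : ∀ r : ℤ, c + star c = n * r → r = ρ := by
    intro r hr
    rw [hρ] at hr
    have := mul_left_cancel₀ hn0 hr
    exact_mod_cast this.symm
  have hρeq := hρ' ρ' hcc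
  subst hρeq
  have s1 : c ≠ 0 := by
    intro h0
    rw [h0] at hρ
    simp only [star_zero, add_zero] at hρ
    have h3 : (ρ' : OK q) = 0 := by
      rcases mul_eq_zero.1 hρ.symm with h4 | h4
      · exact absurd h4 hn0
      · exact h4
    exact hρ0 (by exact_mod_cast h3)
  have s2 : n * ab c ≤ H := by
    have h3 := h1 2 0
    have h4 : gm n P M 2 0 = n * c := by
      simp [gm, hc]
    rw [h4, ab_mul, ab_natCast] at h3
    exact h3
  have habc : 0 < ab c := ab_pos s1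
  have hct : ct c ≠ 0 := ct_ne_zero s1
  obtain ⟨μ, hμ⟩ : ∃ μ : ℕ, μ = Nat.gcd (Nat.gcd (ct b) (ct c)) (ct (M 2 1)) := ⟨_, rfl⟩
  have hμ0 : 1 ≤ μ := by
    rw [Nat.one_le_iff_ne_zero, hμ]
    intro h
    rw [Nat.gcd_eq_zero_iff, Nat.gcd_eq_zero_iff] at h
    exact hct h.1.2
  have hH0 : 0 ≤ H / (n * ab c) := by positivity
  have hY : 0 ≤ 2 * H / n := by positivity
  obtain ⟨hf, hcard⟩ := a_count b c (M 2 1) s1 (-(P * ρ') - b * star b) (a * M 2 1 - c * M 0 1)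
    (a * b + c * M 1 2) a _ hY
  rw [← hμ] at hcard
  have hsub : {a | PP B n P H X c τ w b a} ⊆ {a' : OK q | ab (a' - a) ≤ 2 * H / n ∧
      a' * star c + star a' * c = -(P * ρ') - b * star b ∧
      (∃ f, a' * M 2 1 - c * f = a * M 2 1 - c * M 0 1) ∧
      ∃ k, a' * b - c * k = a * b + c * M 1 2} := by
    rintro a' ⟨M', ρ'', η', hR', hρ0', hB', h1', h2', hc', hw', hb', ha'⟩
    have t4 : ab (a' - a) ≤ 2 * H / n := by
      have e1 : gm n P M' 0 0 - gm n P M 0 0 = n * (a' - a) := by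
        simp only [gm, Matrix.add_apply, Matrix.smul_apply, smul_eq_mul]
        rw [ha, ha']
        ring
      have e2 := ab_sub_le (gm n P M' 0 0) (gm n P M 0 0)
      rw [e1, ab_mul, ab_natCast] at e2
      have e3 := h1' 0 0
      have e4 := h1 0 0
      rw [le_div_iff₀ hnr]
      linarith
    have kc := hR'.hc
    have kρ := hR'.hρ
    have kf := hR'.hf
    have kk := hR'.hk
    have kτ := hR'.hτ
    have ka := hR'.ha
    rw [hc'] at kc kρ kf kk ka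
    rw [hb'] at kρ kf kk ka
    rw [ha'] at kf kτ ka
    have hρe := hρ' ρ'' kc
    subst hρe
    have hw'' : b * star c - star (M' 2 1) * c = w := by
      rw [← hw', ww, hb', hc']
    have hd : M' 2 1 = M 2 1 := by
      have h2 : star (M' 2 1) * c = star (M 2 1) * c := by
        have := hw''.trans ((by assumption : b * star c - star (M 2 1) * c = w)).symm
        linear_combination -this
      exact star_injective (mul_right_cancel₀ s1 h2)
    rw [hd] at kρ kf kk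
    have hh : M' 1 1 = M 1 1 := by
      apply mul_left_cancel₀ s1
      linear_combination hρρ - kρ
    rw [hh] at kτ
    refine ⟨t4, ka, ⟨M' 0 1, ?_⟩, ⟨-M' 1 2, ?_⟩⟩
    · apply mul_left_cancel₀ hn0
      linear_combination kf - hff
    · apply mul_left_cancel₀ hn0
      linear_combination hkk - kk + n * b * kτ - n * b * hττ
  refine ⟨s1, s2, μ, hμ0, ?_, ⟨hsize, M 2 1, M 1 1, ?_, hw', ?_, ?_⟩, hf.subset hsub, ?_⟩
  · rw [hμ]
    exact (Nat.gcd_dvd_left _ _).trans (Nat.gcd_dvd_right _ _)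
  · rw [hρρ]
    push_cast
    ring
  · rw [hμ]
    exact (Nat.gcd_dvd_left _ _).trans (Nat.gcd_dvd_left _ _)
  · rw [hμ]
    exact Nat.gcd_dvd_right _ _
  · refine le_trans (by exact_mod_cast Set.ncard_le_ncard hsub hf) (hcard.trans (le_of_eq ?_))
    field_simp
    ring

/-- The number of `(b, a)` for given `c`, `τ`, `w`. (Adapt `fib` of `Lib/H89D/FB.lean`; `FB_fiber` there.
The sizes are different here, see below.)

PROOF. `ρ ≠ 0` gives `c ≠ 0`. Suppose that the set is not empty, so that `n ab c ≤ H` (entry `2 0` of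
`P + n M`). Put `e = ct c`. The integer `ρ` in `PP` is the given one (`hc`, `n ≥ 1`). For `(b, a)` in the
set, `d` is determined by `b` (`star d c = b star c - w`), `h` by `c h = b d - P ρ`.
SIZE OF `b`: `w = b star c - star d c = b (c + star c) - (b + star d) c = n ρ b - (b + star d) c`, so for
two elements `n ρ (b - b₁) = ((b + star d) - (b₁ + star d₁)) c` and `n |ρ| ab (b - b₁) ≤ 2 B n |ρ| ab c`:
`ab (b - b₁) ≤ 2 B ab c`. Let `μ = gcd (ct b, ct c, ct d)`, a divisor of `e`: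
`b ∈ BS c w (P ρ) μ b₁ Y` with `Y = 2 B ab c`, `b₁` a fixed element of the set. So
`μ gcd (μ, e / μ) ∣ ρ` (`b_dvd'`), and for each `μ` there are at most
`C (e / μ) ^ (1 + ε) gcd (μ, e / μ) (1 + 2 B)²` elements `b` (`b_count`).
SIZE OF `a`: `P + n a` is an entry of `P + n M`, so `n ab (a - a₁) ≤ 2 H`. For given `b` (with this `μ`)
the `a` lie in the set of `a_count` with `Y = 2 H / n`, `R = -(P ρ) - b star b` (`ha`); `D`: from `hf`,
`n (a d - c f) = -P (d + star b)` is the same for all, so `a d - c f` is; `B`: from `hk` and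
`e = n τ - h - a` (entry `2 2`) the quantity `b e - c k` is the same for all, so `a b + c k` is
(replace `k` by `-k`). So at most `1 + 8 dd q (H / n) μ / ab c ≤ 9 dd q μ H / (n ab c)` elements `a`. Sum
over `μ`: `(e / μ) ^ (1 + ε) μ ≤ e ^ (1 + ε)`. -/
theorem fib (q : QF) {ε B : ℝ} (hε : 0 < ε) (hB : 0 < B) : ∃ C : ℝ, 0 < C ∧
    ∀ n P : ℕ, 1 ≤ n → 1 ≤ P → Nat.Coprime n P → ∀ H X : ℝ, 1 ≤ H →
    ∀ (c τ w : OK q) (ρ : ℤ), ρ ≠ 0 → c + star c = n * ρ →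
      {p : OK q × OK q | PP B n P H X c τ w p.1 p.2}.Finite ∧
      ({p : OK q × OK q | PP B n P H X c τ w p.1 p.2}.ncard : ℝ) ≤
        C * (ct c : ℝ) ^ (1 + ε) * H89D.RS (ct c) ρ.natAbs * (H / (n * ab c)) := by
  classical
  obtain ⟨C₀, hC₀, hbc⟩ := b_count q hε
  have hddr : (1 : ℝ) ≤ (dd q : ℝ) := by
    have := three_le_dd q
    exact_mod_cast (by omega : (1 : ℤ) ≤ dd q)
  refine ⟨9 * dd q * C₀ * (1 + 2 * B) ^ 2, by positivity, ?_⟩
  intro n P hn hP hnP H X hH c τ w ρ hρ0 hρ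
  obtain ⟨T, hT⟩ : ∃ T : Set (OK q × OK q), T = {p : OK q × OK q | PP B n P H X c τ w p.1 p.2} :=
    ⟨_, rfl⟩
  rw [← hT]
  rcases T.eq_empty_or_nonempty with h0 | ⟨p₀, hp₀⟩
  · rw [h0]
    refine ⟨Set.finite_empty, ?_⟩
    rw [Set.ncard_empty, Nat.cast_zero]
    have := ab_nonneg c
    positivity
  have hp₀' : PP B n P H X c τ w p₀.1 p₀.2 := by
    rw [hT] at hp₀
    exact hp₀
  obtain ⟨hc, hcX, -⟩ := FB_elt hn hH hρ hp₀' hp₀'
  have habc : 0 < ab c := ab_pos hc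
  have hnr : (1 : ℝ) ≤ n := by exact_mod_cast hn
  have hnc : 0 < n * ab c := by positivity
  obtain ⟨Z, hZ⟩ : ∃ Z, Z = H / (n * ab c) := ⟨_, rfl⟩
  have hZ1 : 1 ≤ Z := by rw [hZ, one_le_div hnc]; exact hcX
  obtain ⟨e, he⟩ : ∃ e, e = ct c := ⟨_, rfl⟩
  have he0 : e ≠ 0 := by rw [he]; exact ct_ne_zero hc
  obtain ⟨D, hD⟩ : ∃ D : Finset ℕ, D = e.divisors.filter
    (fun u => u * Nat.gcd u (e / u) ∣ ρ.natAbs) := ⟨_, rfl⟩
  obtain ⟨Y, hY⟩ : ∃ Y, Y = 2 * B * ab c := ⟨_, rfl⟩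
  have hY0 : 0 ≤ Y := by rw [hY]; positivity
  obtain ⟨U, hU⟩ : ∃ U : ℕ → Set (OK q × OK q), ∀ μ, U μ = {p | p ∈ T ∧
    p.1 ∈ BS c w (P * ρ) μ p₀.1 Y ∧ {a | PP B n P H X c τ w p.1 a}.Finite ∧
      ({a | PP B n P H X c τ w p.1 a}.ncard : ℝ) ≤ 1 + 8 * dd q * Z * μ} := ⟨_, fun _ => rfl⟩
  have hcover : T ⊆ ⋃ μ ∈ D, U μ := by
    intro p hp
    have hp' : PP B n P H X c τ w p.1 p.2 := by
      rw [hT] at hp
      exact hp
    obtain ⟨-, -, μ, h1, h2, h3, h4, h5⟩ := FB_elt hn hH hρ hp₀' hp'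
    rw [← hZ] at h5
    rw [← hY] at h3
    rw [← he] at h2
    rw [Set.mem_iUnion₂]
    refine ⟨μ, ?_, ?_⟩
    · rw [hD, Finset.mem_filter, Nat.mem_divisors]
      refine ⟨⟨h2, he0⟩, ?_⟩
      rw [he] at h2 ⊢
      exact b_dvd' hnP hρ h2 h1 ⟨_, h3⟩
    · rw [hU]
      exact ⟨hp, h3, h4, h5⟩
  have hUb : ∀ μ ∈ D, (U μ).Finite ∧ ((U μ).ncard : ℝ) ≤
      (C₀ * (((e / μ : ℕ) : ℝ) ^ (1 + ε)) * Nat.gcd μ (e / μ) * (1 + Y / ab c) ^ 2) *
        (1 + 8 * dd q * Z * μ) := by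
    intro μ hμ
    rw [hD, Finset.mem_filter, Nat.mem_divisors] at hμ
    have hμ1 : 1 ≤ μ := Nat.pos_of_dvd_of_pos hμ.1.1 (Nat.pos_of_ne_zero he0)
    have hb := hbc c w hc (P * ρ) μ hμ1 (by rw [← he]; exact hμ.1.1) p₀.1 Y hY0
    rw [← he] at hb
    have hK : 0 ≤ 1 + 8 * dd q * Z * (μ : ℝ) := by positivity
    have h1 := FB_fiber hb.1 (U μ) (fun p hp => by
      rw [hU] at hp
      exact hp.2.1) (1 + 8 * dd q * Z * μ) (by
      intro b _
      rcases Set.eq_empty_or_nonempty {a | (b, a) ∈ U μ} with h2 | ⟨a, ha⟩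
      · rw [h2]
        refine ⟨Set.finite_empty, ?_⟩
        rw [Set.ncard_empty, Nat.cast_zero]
        exact hK
      · have ha' : (b, a) ∈ U μ := ha
        rw [hU] at ha'
        obtain ⟨-, -, h3, h4⟩ := ha'
        have hsub : {a | (b, a) ∈ U μ} ⊆ {a | PP B n P H X c τ w b a} := by
          intro a' ha'
          have ha'' : (b, a') ∈ U μ := ha'
          rw [hU, Set.mem_ofPred_eq, hT] at ha''
          exact ha''.1
        refine ⟨h3.subset hsub, le_trans ?_ h4⟩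
        exact_mod_cast Set.ncard_le_ncard hsub h3)
    refine ⟨h1.1, h1.2.trans ?_⟩
    exact mul_le_mul_of_nonneg_right hb.2 hK
  have hUfin : (⋃ μ ∈ D, U μ).Finite :=
    Set.Finite.biUnion (Finset.finite_toSet _) fun μ hμ => (hUb μ hμ).1
  refine ⟨hUfin.subset hcover, ?_⟩
  have hqr : (0 : ℝ) < e := by exact_mod_cast Nat.pos_of_ne_zero he0
  have hterm : ∀ μ ∈ D, ((U μ).ncard : ℝ) ≤
      9 * dd q * C₀ * (1 + 2 * B) ^ 2 * (e : ℝ) ^ (1 + ε) * Z * (Nat.gcd μ (e / μ) : ℕ) := by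
    intro μ hμ
    refine (hUb μ hμ).2.trans ?_
    rw [hD, Finset.mem_filter, Nat.mem_divisors] at hμ
    have hμ1 : 1 ≤ μ := Nat.pos_of_dvd_of_pos hμ.1.1 (Nat.pos_of_ne_zero he0)
    have hμr : (1 : ℝ) ≤ μ := by exact_mod_cast hμ1
    have e1 : Y / ab c = 2 * B := by
      rw [hY]
      field_simp
    have e2 : ((e / μ : ℕ) : ℝ) ^ (1 + ε) * μ ≤ (e : ℝ) ^ (1 + ε) := by
      have e3 : (e : ℝ) = ((e / μ : ℕ) : ℝ) * μ := by
        exact_mod_cast (Nat.div_mul_cancel hμ.1.1).symm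
      have e4 : (μ : ℝ) ≤ (μ : ℝ) ^ (1 + ε) := by
        conv_lhs => rw [← Real.rpow_one (μ : ℝ)]
        exact Real.rpow_le_rpow_of_exponent_le hμr (by linarith)
      conv_rhs => rw [e3, Real.mul_rpow (by positivity) (by positivity)]
      exact mul_le_mul_of_nonneg_left e4 (by positivity)
    rw [e1]
    have e6 : 1 + 8 * dd q * Z * (μ : ℝ) ≤ 9 * dd q * Z * μ := by
      have h1 : 1 ≤ (dd q : ℝ) * Z := by nlinarith
      have h2 : 1 ≤ (dd q : ℝ) * Z * μ := by nlinarith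
      linarith
    have hgn : (0 : ℝ) ≤ (Nat.gcd μ (e / μ) : ℕ) := Nat.cast_nonneg _
    have hqn : (0 : ℝ) ≤ ((e / μ : ℕ) : ℝ) ^ (1 + ε) := by positivity
    have hZ0 : 0 ≤ Z := by linarith
    have hd0 : 0 ≤ (dd q : ℝ) := by linarith
    calc C₀ * ((e / μ : ℕ) : ℝ) ^ (1 + ε) * (Nat.gcd μ (e / μ) : ℕ) * (1 + 2 * B) ^ 2 *
          (1 + 8 * dd q * Z * μ)
        ≤ C₀ * ((e / μ : ℕ) : ℝ) ^ (1 + ε) * (Nat.gcd μ (e / μ) : ℕ) * (1 + 2 * B) ^ 2 *
          (9 * dd q * Z * μ) := by gcongr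
      _ = 9 * dd q * C₀ * (1 + 2 * B) ^ 2 * Z * (Nat.gcd μ (e / μ) : ℕ) *
          (((e / μ : ℕ) : ℝ) ^ (1 + ε) * μ) := by ring
      _ ≤ 9 * dd q * C₀ * (1 + 2 * B) ^ 2 * Z * (Nat.gcd μ (e / μ) : ℕ) * (e : ℝ) ^ (1 + ε) := by
        gcongr
      _ = _ := by ring
  have h1 : (T.ncard : ℝ) ≤ ∑ μ ∈ D, ((U μ).ncard : ℝ) := by
    have h2 := (Set.ncard_le_ncard hcover hUfin).trans (Finset.set_ncard_biUnion_le D U)
    exact_mod_cast h2
  refine h1.trans ((Finset.sum_le_sum hterm).trans (le_of_eq ?_))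
  rw [← Finset.mul_sum, ← Nat.cast_sum]
  have h3 : H89D.RS (ct c) ρ.natAbs = ∑ μ ∈ D, Nat.gcd μ (e / μ) := by
    rw [hD, ← he]
    rfl
  rw [h3, ← he, ← hZ]
  ring

end Pool.Agent.Lib.H80C
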