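import Pool.Agent.Lib.H80C.Defs

/-!
# R2A: primitive elements of given norm
-/

namespace Pool.Agent.Lib.H80C

variable {q : QF}

lemma R2A_finite (q : QF) (R : ℤ) : {w : OK q | nm w = R}.Finite := by
  set B : ℤ := ⌈(1 + |(q.t : ℝ)|) * (1 + |(R : ℝ)|)⌉ + ⌈2 * (1 + |(R : ℝ)|)⌉ with hB
  have h : {w : OK q | nm w = R} ⊆ (fun p : ℤ × ℤ => (⟨p.1, p.2⟩ : OK q)) ''
      ((Set.Icc (-B) B) ×ˢ (Set.Icc (-B) B)) := by
    intro w hw
    have hw' : nm w = R := hw
    have h1 := ab_sq w
    rw [hw'] at h1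
    have h0 := ab_nonneg w
    have h2 : ab w ≤ 1 + |(R : ℝ)| := by
      have := le_abs_self (R : ℝ)
      nlinarith [abs_nonneg (R : ℝ)]
    have h3 := abs_im_le w
    have h4 := abs_re_le w
    have ht := abs_nonneg (q.t : ℝ)
    have hR := abs_nonneg (R : ℝ)
    have c1 := Int.le_ceil ((1 + |(q.t : ℝ)|) * (1 + |(R : ℝ)|))
    have c2 := Int.le_ceil (2 * (1 + |(R : ℝ)|))
    have c1' : (0 : ℝ) ≤ (⌈(1 + |(q.t : ℝ)|) * (1 + |(R : ℝ)|)⌉ : ℝ) := by
      refine le_trans ?_ c1
      positivity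
    have c2' : (0 : ℝ) ≤ (⌈2 * (1 + |(R : ℝ)|)⌉ : ℝ) := by
      refine le_trans ?_ c2
      positivity
    have hBr : (B : ℝ) = (⌈(1 + |(q.t : ℝ)|) * (1 + |(R : ℝ)|)⌉ : ℝ) + (⌈2 * (1 + |(R : ℝ)|)⌉ : ℝ) := by
      rw [hB]; push_cast; ring
    have h5 : |w.im| ≤ B := by
      have : |(w.im : ℝ)| ≤ B := by
        rw [hBr]
        nlinarith
      exact_mod_cast this
    have h6 : |w.re| ≤ B := by
      have : |(w.re : ℝ)| ≤ B := by
        rw [hBr]
        have : (1 + |(q.t : ℝ)|) * ab w ≤ (1 + |(q.t : ℝ)|) * (1 + |(R : ℝ)|) :=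
          mul_le_mul_of_nonneg_left h2 (by positivity)
        linarith
      exact_mod_cast this
    exact ⟨(w.re, w.im), ⟨⟨(abs_le.1 h6).1, (abs_le.1 h6).2⟩,
      ⟨(abs_le.1 h5).1, (abs_le.1 h5).2⟩⟩, rfl⟩
  exact (((Set.finite_Icc _ _).prod (Set.finite_Icc _ _)).image _).subset h

lemma R2A_nm_mul (z w : OK q) : nm (z * w) = nm z * nm w := by
  have h : (((nm (z * w) : ℤ)) : OK q) = ((nm z * nm w : ℤ) : OK q) := by
    rw [nm_eq, Int.cast_mul, nm_eq, nm_eq, star_mul]
    ring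
  exact_mod_cast h

lemma R2A_nm_star (z : OK q) : nm (star z) = nm z := by
  have h : (((nm (star z) : ℤ)) : OK q) = ((nm z : ℤ) : OK q) := by
    rw [nm_eq, nm_eq, star_star]
    ring
  exact_mod_cast h

lemma R2A_nm_natCast (m : ℕ) : nm (m : OK q) = (m : ℤ) * m := by
  unfold nm
  simp
  ring

lemma R2A_y_unit (m : ℕ) (w : OK q) (hw : nm w = m) (hc : ct w = 1) :
    IsUnit ((w.im : ℤ) : ZMod m) := by
  rw [ZMod.coe_int_isUnit_iff_isCoprime]
  have h1 : IsCoprime w.re w.im := Int.isCoprime_iff_gcd_eq_one.2 hc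
  unfold nm at hw
  have h2 : (m : ℤ) = w.re * w.re + w.im * (q.t * w.re + q.n * w.im) := by linarith
  rw [h2]
  exact (h1.mul_left h1).add_mul_left_left _

/-- The ratio of the real and the imaginary part modulo `m`. -/
def R2A_s (m : ℕ) (w : OK q) : ZMod m := (w.re : ZMod m) * (w.im : ZMod m)⁻¹

lemma R2A_s_spec (m : ℕ) (w : OK q) (hw : nm w = m) (hc : ct w = 1) :
    R2A_s m w * (w.im : ZMod m) = (w.re : ZMod m) := by
  unfold R2A_s
  rw [mul_assoc, ZMod.inv_mul_of_unit _ (R2A_y_unit m w hw hc), mul_one]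

lemma R2A_norm_cast (m : ℕ) (w : OK q) (hw : nm w = m) :
    (w.re : ZMod m) * (w.re : ZMod m) + (q.t : ZMod m) * ((w.re : ZMod m) * (w.im : ZMod m)) +
      (q.n : ZMod m) * ((w.im : ZMod m) * (w.im : ZMod m)) = 0 := by
  unfold nm at hw
  have h2 : w.re * w.re + q.t * (w.re * w.im) + q.n * (w.im * w.im) = (m : ℤ) := by linarith
  have h3 : ((w.re * w.re + q.t * (w.re * w.im) + q.n * (w.im * w.im) : ℤ) : ZMod m) =
    ((m : ℤ) : ZMod m) := by rw [h2]
  push_cast at h3
  rw [h3]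
  simp

lemma R2A_s_sq (m : ℕ) (w : OK q) (hw : nm w = m) (hc : ct w = 1) :
    R2A_s m w * R2A_s m w + (q.t : ZMod m) * R2A_s m w + (q.n : ZMod m) = 0 := by
  have h1 := R2A_s_spec m w hw hc
  have h2 := R2A_norm_cast m w hw
  have h3 := R2A_y_unit m w hw hc
  have h4 : (R2A_s m w * R2A_s m w + (q.t : ZMod m) * R2A_s m w + (q.n : ZMod m)) *
      ((w.im : ZMod m) * (w.im : ZMod m)) = 0 := by
    rw [← h2, ← h1]
    ring
  exact ((h3.mul h3).mul_left_eq_zero).1 h4

lemma R2A_same (m : ℕ) (hm : 1 ≤ m) (w w' : OK q) (hw : nm w = m) (hc : ct w = 1)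
    (hw' : nm w' = m) (hc' : ct w' = 1) (hs : R2A_s m w = R2A_s m w') :
    ∃ u : OK q, nm u = 1 ∧ w' = u * w := by
  have h1 := R2A_s_spec m w hw hc
  have h1' := R2A_s_spec m w' hw' hc'
  rw [← hs] at h1'
  have hsq := R2A_s_sq m w hw hc
  have hre : ((w'.re * w.re + q.t * (w'.re * w.im) + q.n * (w'.im * w.im) : ℤ) : ZMod m) = 0 := by
    push_cast
    rw [← h1, ← h1']
    linear_combination ((w.im : ZMod m) * (w'.im : ZMod m)) * hsq
  have him : ((w'.im * w.re - w'.re * w.im : ℤ) : ZMod m) = 0 := by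
    push_cast
    rw [← h1, ← h1']
    ring
  rw [ZMod.intCast_zmod_eq_zero_iff_dvd] at hre him
  obtain ⟨p, hp⟩ := hre
  obtain ⟨r, hr⟩ := him
  have hmul : w' * star w = (m : OK q) * ⟨p, r⟩ := by
    apply QuadraticAlgebra.ext
    · simp [QuadraticAlgebra.re_mul]
      linarith
    · simp [QuadraticAlgebra.im_mul]
      linarith
  have hm0 : (m : ℤ) ≠ 0 := by exact_mod_cast (by omega : m ≠ 0)
  refine ⟨⟨p, r⟩, ?_, ?_⟩
  · have h2 := congrArg nm hmul
    rw [R2A_nm_mul, R2A_nm_mul, R2A_nm_star, hw, hw', R2A_nm_natCast] at h2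
    have h4 : ((m : ℤ) * m) * (nm (⟨p, r⟩ : OK q)) = (m : ℤ) * m * 1 := by
      rw [mul_one]; exact h2.symm
    exact mul_left_cancel₀ (mul_ne_zero hm0 hm0) h4
  · have h5 : w * star w = (m : OK q) := by
      have := nm_eq w
      rw [← this, hw]
      simp
    have hmZ : (m : OK q) ≠ 0 := by
      intro h
      have : ((m : ℕ) : OK q) = 0 := h
      rw [Nat.cast_eq_zero] at this
      omega
    apply mul_left_cancel₀ hmZ
    calc (m : OK q) * w' = w' * (w * star w) := by rw [h5, mul_comm]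
      _ = (w' * star w) * w := by ring
      _ = (m : OK q) * (⟨p, r⟩ * w) := by rw [hmul]; ring

lemma R2A_torsion (m : ℕ) (hm : 1 ≤ m) (N : ℕ) (hN : 1 ≤ N) :
    ∃ T : Finset (ZMod m), T.card ≤ N ∧ ∀ t : ZMod m, (N : ZMod m) * t = 0 → t ∈ T := by
  have : NeZero m := ⟨by omega⟩
  classical
  refine ⟨Finset.univ.filter (fun t : ZMod m => (N : ZMod m) * t = 0), ?_, ?_⟩
  · have key : ∀ t : ZMod m, (N : ZMod m) * t = 0 → ∃ k, N * t.val = m * k ∧ k < N := by
      intro t ht
      have h1 : ((N * t.val : ℕ) : ZMod m) = 0 := by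
        push_cast
        rw [ZMod.natCast_zmod_val]
        exact ht
      rw [ZMod.natCast_eq_zero_iff] at h1
      have h2 : t.val < m := ZMod.val_lt t
      obtain ⟨k, hk⟩ := h1
      refine ⟨k, hk, ?_⟩
      by_contra h
      have h3 : m * N ≤ m * k := Nat.mul_le_mul_left m (by omega)
      have h4 : N * t.val < N * m := Nat.mul_lt_mul_of_pos_left h2 (by omega)
      rw [mul_comm m N] at h3
      omega
    calc (Finset.univ.filter (fun t : ZMod m => (N : ZMod m) * t = 0)).card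
        ≤ (Finset.range N).card := by
          refine Finset.card_le_card_of_injOn (fun t => N * t.val / m) ?_ ?_
          · intro t ht
            rw [Finset.mem_coe, Finset.mem_filter] at ht
            obtain ⟨k, hk, hk2⟩ := key t ht.2
            simp only [Finset.coe_range, Set.mem_Iio]
            rw [hk, Nat.mul_div_cancel_left _ (by omega)]
            exact hk2
          · intro t ht t' ht' h
            rw [Finset.mem_coe, Finset.mem_filter] at ht ht'
            obtain ⟨k, hk, hk2⟩ := key t ht.2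
            obtain ⟨k', hk', hk2'⟩ := key t' ht'.2
            simp only at h
            rw [hk, hk', Nat.mul_div_cancel_left _ (by omega), Nat.mul_div_cancel_left _ (by omega)] at h
            rw [h, ← hk'] at hk
            exact ZMod.val_injective m (Nat.eq_of_mul_eq_mul_left (by omega) hk)
      _ = N := Finset.card_range N
  · intro t ht
    rw [Finset.mem_filter]
    exact ⟨Finset.mem_univ _, ht⟩

lemma R2A_roots (q : QF) (m : ℕ) (hm : 1 ≤ m) (A : Finset (ZMod m))
    (hA : ∀ s ∈ A, s * s + (q.t : ZMod m) * s + (q.n : ZMod m) = 0) :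
    A.card ≤ (dd q).toNat * m.divisors.card := by
  have : NeZero m := ⟨by omega⟩
  have hdd := dd_pos q
  rcases A.eq_empty_or_nonempty with h0 | ⟨s₀, hs₀⟩
  · rw [h0]; simp
  let f : ZMod m → ℕ := fun s => Nat.gcd (s - s₀).val m
  have him : A.image f ⊆ m.divisors := by
    intro u hu
    rw [Finset.mem_image] at hu
    obtain ⟨s, _, rfl⟩ := hu
    rw [Nat.mem_divisors]
    exact ⟨Nat.gcd_dvd_right _ _, by omega⟩
  obtain ⟨T, hT, hT2⟩ := R2A_torsion m hm (dd q).toNat (by omega)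
  refine (Finset.card_le_mul_card_image A (dd q).toNat ?_).trans
    (Nat.mul_le_mul_left _ (Finset.card_le_card him))
  intro u hu
  rw [Finset.mem_image] at hu
  obtain ⟨s₁, hs₁, hu₁⟩ := hu
  refine le_trans ?_ hT
  refine Finset.card_le_card_of_injOn (fun s => s - s₁) ?_ ?_
  · intro s hs
    rw [Finset.mem_coe, Finset.mem_filter] at hs
    obtain ⟨hs, hsu⟩ := hs
    apply hT2
    -- integer representatives
    have hum : u ∣ m := by rw [← hsu]; exact Nat.gcd_dvd_right _ _
    obtain ⟨v, hv⟩ := hum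
    have hu0 : 0 < u := by
      rcases Nat.eq_zero_or_pos u with h | h
      · rw [h] at hv; omega
      · exact h
    -- key facts
    have key : ∀ s ∈ A, f s = u → (u : ℤ) ∣ ((s.val : ℤ) - (s₀.val : ℤ)) ∧
        (v : ℤ) ∣ ((s.val : ℤ) + (s₀.val : ℤ) + q.t) := by
      intro s hs hsu
      have e1 : (((s - s₀).val : ℕ) : ZMod m) = s - s₀ := ZMod.natCast_zmod_val _
      have e2 : ((s.val : ℕ) : ZMod m) = s := ZMod.natCast_zmod_val _
      have e3 : ((s₀.val : ℕ) : ZMod m) = s₀ := ZMod.natCast_zmod_val _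
      have e4 : (m : ℤ) ∣ ((s - s₀).val : ℤ) - ((s.val : ℤ) - (s₀.val : ℤ)) := by
        rw [← ZMod.intCast_zmod_eq_zero_iff_dvd]
        push_cast
        rw [e1, e2, e3]
        ring
      have e5 : (m : ℤ) ∣ ((s - s₀).val : ℤ) * ((s.val : ℤ) + (s₀.val : ℤ) + q.t) := by
        rw [← ZMod.intCast_zmod_eq_zero_iff_dvd]
        push_cast
        rw [e1, e2, e3]
        linear_combination hA s hs - hA s₀ hs₀
      have hgu : Nat.gcd (s - s₀).val m = u := hsu
      have humZ : (u : ℤ) ∣ (m : ℤ) := by rw [hv]; push_cast; exact dvd_mul_right _ _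
      have hu1 : (u : ℤ) ∣ ((s - s₀).val : ℤ) := by
        rw [← hgu]
        exact_mod_cast Nat.gcd_dvd_left _ _
      refine ⟨?_, ?_⟩
      · have h := dvd_sub hu1 (humZ.trans e4)
        have h2 : ((s - s₀).val : ℤ) - (((s - s₀).val : ℤ) - ((s.val : ℤ) - (s₀.val : ℤ))) =
          (s.val : ℤ) - (s₀.val : ℤ) := by ring
        rwa [h2] at h
      · obtain ⟨c, hc⟩ : u ∣ (s - s₀).val := by rw [← hgu]; exact Nat.gcd_dvd_left _ _
        have hcop : Nat.Coprime c v := by
          have h1 : Nat.gcd (u * c) (u * v) = u := by rw [← hc, ← hv]; exact hgu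
          rw [Nat.gcd_mul_left] at h1
          have h2 : u * Nat.gcd c v = u * 1 := by rw [mul_one]; exact h1
          exact Nat.eq_of_mul_eq_mul_left hu0 h2
        have e6 : ((u : ℤ) * v) ∣ (u : ℤ) * ((c : ℤ) * ((s.val : ℤ) + (s₀.val : ℤ) + q.t)) := by
          have : ((s - s₀).val : ℤ) = (u : ℤ) * c := by rw [hc]; push_cast; ring
          have hvZ : (m : ℤ) = (u : ℤ) * v := by exact_mod_cast hv
          rw [this, hvZ, mul_assoc] at e5
          exact e5
        have e7 := Int.dvd_of_mul_dvd_mul_left (by exact_mod_cast hu0.ne') e6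
        have e8 : IsCoprime (v : ℤ) (c : ℤ) := by
          rw [Nat.isCoprime_iff_coprime]
          exact hcop.symm
        exact e8.dvd_of_dvd_mul_left e7
    obtain ⟨k1, k2⟩ := key s hs hsu
    obtain ⟨l1, l2⟩ := key s₁ hs₁ hu₁
    -- `m` divides `(2 s₀ + t) ^ 2 + dd`
    have hs0u : (m : ℤ) ∣ (2 * (s₀.val : ℤ) + q.t) * (2 * (s₀.val : ℤ) + q.t) + dd q := by
      have e3 : ((s₀.val : ℕ) : ZMod m) = s₀ := ZMod.natCast_zmod_val _
      rw [← ZMod.intCast_zmod_eq_zero_iff_dvd, dd]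
      push_cast
      rw [e3]
      linear_combination 4 * hA s₀ hs₀
    set D : ℤ := (s.val : ℤ) - (s₁.val : ℤ) with hD
    have d1 : (u : ℤ) ∣ D := by
      have := dvd_sub k1 l1
      have h2 : ((s.val : ℤ) - (s₀.val : ℤ)) - ((s₁.val : ℤ) - (s₀.val : ℤ)) = D := by
        rw [hD]; ring
      rwa [h2] at this
    have d2 : (v : ℤ) ∣ D := by
      have := dvd_sub k2 l2
      have h2 : ((s.val : ℤ) + (s₀.val : ℤ) + q.t) - ((s₁.val : ℤ) + (s₀.val : ℤ) + q.t) = D := by
        rw [hD]; ring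
      rwa [h2] at this
    -- u v | gcd(u,v) * D
    have d3 : ((u : ℤ) * v) ∣ (Int.gcd u v : ℤ) * D := by
      rw [Int.gcd_eq_gcd_ab]
      have : ((u : ℤ) * Int.gcdA u v + v * Int.gcdB u v) * D =
        (u : ℤ) * D * Int.gcdA u v + v * D * Int.gcdB u v := by ring
      rw [this]
      refine dvd_add (Dvd.dvd.mul_right (mul_dvd_mul_left _ d2) _) (Dvd.dvd.mul_right ?_ _)
      rw [mul_comm (u : ℤ) v]
      exact mul_dvd_mul_left _ d1
    have d4 : (Int.gcd u v : ℤ) ∣ dd q := by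
      have g1 : (Int.gcd u v : ℤ) ∣ (u : ℤ) := Int.gcd_dvd_left _ _
      have g2 : (Int.gcd u v : ℤ) ∣ (v : ℤ) := Int.gcd_dvd_right _ _
      have g3 := dvd_sub (g2.trans k2) (g1.trans k1)
      have g4 : ((s.val : ℤ) + (s₀.val : ℤ) + q.t) - ((s.val : ℤ) - (s₀.val : ℤ)) =
          2 * (s₀.val : ℤ) + q.t := by
        ring
      rw [g4] at g3
      have g5 : (Int.gcd u v : ℤ) ∣ (m : ℤ) := by
        refine g1.trans ?_
        rw [hv]; push_cast; exact dvd_mul_right _ _
      have g6 := g5.trans hs0u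
      exact (dvd_add_right (Dvd.dvd.mul_right g3 _)).1 g6
    have d5 : (m : ℤ) ∣ dd q * D := by
      have : (m : ℤ) = (u : ℤ) * v := by rw [hv]; push_cast; ring
      rw [this]
      exact d3.trans (mul_dvd_mul_right d4 D)
    have d6 := (ZMod.intCast_zmod_eq_zero_iff_dvd (dd q * D) m).2 d5
    rw [hD] at d6
    push_cast at d6
    rw [ZMod.natCast_zmod_val, ZMod.natCast_zmod_val] at d6
    have d7 : (((dd q).toNat : ℕ) : ZMod m) = ((dd q : ℤ) : ZMod m) := by
      have h : (((dd q).toNat : ℕ) : ℤ) = dd q := Int.toNat_of_nonneg hdd.le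
      rw [← Int.cast_natCast (R := ZMod m), h]
    rw [d7]
    exact d6
  · intro a _ b _ hab
    exact sub_left_injective hab

/-- Number of primitive elements of norm `m`. (Adapt `Lib/H89D/R2A.lean`.)

PROOF. Let `w = x + y ω`, `x² + t x y + n y² = m`, `gcd (x, y) = 1`. Then `y` is a unit modulo `m`
(a prime dividing `y` and `m` divides `x`); let `s = x / y` in `ZMod m`, so `s² + t s + n = 0`.
(1) If `w`, `w'` have the same `s` then `w' * star w` is divisible by `m`: its coordinates are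
`x' x + t x' y + n y' y ≡ y y' (s² + t s + n) = 0` and `y' x - x' y ≡ 0`. So `w' * star w = m u`; norms:
`nm u = 1`; and `w' * m = w' * star w * w = m * u * w` gives `w' = u w`. There are finitely many `u`
with `nm u = 1` (`ab u = 1`, `abs_re_le`, `abs_im_le`), say `C₁`. So at most `C₁` elements `w` for
each `s`.
(2) The number of roots `s` of `s² + t s + n` in `ZMod m` is at most `dd q * d(m)`: fix one root `s₀`
(integer representatives). For a root `s` put `u = gcd (s - s₀, m)`; since `m` divides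
`(s - s₀) (s + s₀ + t)`, `m / u` divides `s + s₀ + t`. So `s` is determined modulo
`lcm (u, m / u) = m / e`, `e = gcd (u, m / u)`: at most `e` values of `s` modulo `m` for each `u`. And
`e` divides `2 s₀ + t = (s + s₀ + t) - (s - s₀)`, `e² ∣ m`, and `m` divides
`(2 s₀ + t)² + dd q = 4 (s₀² + t s₀ + n)`; so `e² ∣ dd q` and `e ≤ dd q`. -/
theorem r2_prim (q : QF) : ∃ C : ℕ, ∀ m : ℕ, 1 ≤ m →
    {w : OK q | nm w = m ∧ ct w = 1}.Finite ∧
      {w : OK q | nm w = m ∧ ct w = 1}.ncard ≤ C * m.divisors.card := by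
  classical
  have hU := R2A_finite q 1
  set U := hU.toFinset with hUdef
  refine ⟨U.card * (dd q).toNat, ?_⟩
  intro m hm
  have hfin : {w : OK q | nm w = m ∧ ct w = 1}.Finite :=
    (R2A_finite q m).subset (fun w hw => hw.1)
  refine ⟨hfin, ?_⟩
  rw [Set.ncard_eq_toFinset_card _ hfin]
  set S := hfin.toFinset with hS
  have hmem : ∀ w, w ∈ S ↔ (nm w = m ∧ ct w = 1) := by
    intro w
    rw [hS, Set.Finite.mem_toFinset]
    rfl
  have : NeZero m := ⟨by omega⟩
  have h1 : S.card ≤ U.card * (S.image (R2A_s m)).card := by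
    refine Finset.card_le_mul_card_image S U.card ?_
    intro s hs
    rw [Finset.mem_image] at hs
    obtain ⟨w₀, hw₀, hs₀⟩ := hs
    have h2 : (S.filter (fun w => R2A_s m w = s)) ⊆ U.image (fun u => u * w₀) := by
      intro w hw
      rw [Finset.mem_filter, hmem] at hw
      rw [hmem] at hw₀
      obtain ⟨u, hu, hu2⟩ := R2A_same m hm w₀ w hw₀.1 hw₀.2 hw.1.1 hw.1.2 (by rw [hs₀, hw.2])
      rw [Finset.mem_image]
      refine ⟨u, ?_, hu2.symm⟩
      rw [hUdef, Set.Finite.mem_toFinset]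
      exact hu
    exact (Finset.card_le_card h2).trans Finset.card_image_le
  have h3 : (S.image (R2A_s m)).card ≤ (dd q).toNat * m.divisors.card := by
    apply R2A_roots q m hm
    intro s hs
    rw [Finset.mem_image] at hs
    obtain ⟨w₀, hw₀, rfl⟩ := hs
    rw [hmem] at hw₀
    exact R2A_s_sq m w₀ hw₀.1 hw₀.2
  calc S.card ≤ U.card * (S.image (R2A_s m)).card := h1
    _ ≤ U.card * ((dd q).toNat * m.divisors.card) := Nat.mul_le_mul_left _ h3
    _ = U.card * (dd q).toNat * m.divisors.card := by ring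

end Pool.Agent.Lib.H80C
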