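import Pool.Agent.Lib.H80C.R2A

/-!
# R2B: elements of given norm
-/

namespace Pool.Agent.Lib.H80C

/-- Number of elements of norm `R ≥ 1`. (Adapt `Lib/H89D/R2B.lean`.)

PROOF. `w ↦ g = ct w`: `g² ∣ R` (so `g ∣ R`), `w = g w'` (`dvd_ct`), `w'` primitive of norm `R / g²`;
by `r2_prim` there are at most `C d(R / g²) ≤ C d(R)` for each divisor `g` of `R`. -/
theorem r2_bound (q : QF) : ∃ C : ℕ, ∀ R : ℕ, 1 ≤ R →
    {w : OK q | nm w = R}.Finite ∧ {w : OK q | nm w = R}.ncard ≤ C * R.divisors.card ^ 2 := by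
  obtain ⟨C, hC⟩ := r2_prim q
  refine ⟨C, ?_⟩
  intro R hR
  have hfin : {w : OK q | nm w = R}.Finite := R2A_finite q R
  refine ⟨hfin, ?_⟩
  rw [Set.ncard_eq_toFinset_card _ hfin]
  set S := hfin.toFinset with hS
  have hmem : ∀ w, w ∈ S ↔ nm w = R := by
    intro w
    rw [hS, Set.Finite.mem_toFinset]
    rfl
  have hfac : ∀ w, w ∈ S → ∃ x y : ℤ, w.re = (ct w : ℤ) * x ∧ w.im = (ct w : ℤ) * y ∧
      (R : ℤ) = (ct w : ℤ) ^ 2 * (x ^ 2 + q.t * (x * y) + q.n * y ^ 2) := by
    intro w hw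
    rw [hmem] at hw
    unfold nm at hw
    obtain ⟨x, hx⟩ : (ct w : ℤ) ∣ w.re := Int.gcd_dvd_left _ _
    obtain ⟨y, hy⟩ : (ct w : ℤ) ∣ w.im := Int.gcd_dvd_right _ _
    refine ⟨x, y, hx, hy, ?_⟩
    generalize (ct w : ℤ) = g at hx hy ⊢
    rw [← hw, hx, hy]
    ring
  have him : S.image ct ⊆ R.divisors := by
    intro g hg
    rw [Finset.mem_image] at hg
    obtain ⟨w, hw, rfl⟩ := hg
    rw [Nat.mem_divisors]
    refine ⟨?_, by omega⟩
    obtain ⟨x, y, _, _, h⟩ := hfac w hw
    have h1 : (ct w : ℤ) ∣ (R : ℤ) := by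
      rw [h, sq, mul_assoc]
      exact dvd_mul_right _ _
    exact_mod_cast h1
  have key : S.card ≤ (C * R.divisors.card) * (S.image ct).card := by
    refine Finset.card_le_mul_card_image S _ ?_
    intro g hg
    rw [Finset.mem_image] at hg
    obtain ⟨w₀, hw₀, hg₀⟩ := hg
    obtain ⟨x₀, y₀, _, _, h₀⟩ := hfac w₀ hw₀
    rw [hg₀] at h₀
    -- the quotient
    have hn : 0 ≤ x₀ ^ 2 + q.t * (x₀ * y₀) + q.n * y₀ ^ 2 := nm_nonneg (q := q) ⟨x₀, y₀⟩
    obtain ⟨k, hk⟩ := Int.eq_ofNat_of_zero_le hn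
    have hRk : R = g ^ 2 * k := by
      rw [hk] at h₀
      exact_mod_cast h₀
    have hk0 : 1 ≤ k := by
      rcases Nat.eq_zero_or_pos k with h | h
      · rw [h] at hRk; simp at hRk; omega
      · exact h
    have hg0 : g ≠ 0 := by
      intro h
      rw [h] at hRk
      simp at hRk
      omega
    have hgZ : (g : ℤ) ≠ 0 := by exact_mod_cast hg0
    obtain ⟨hf, hc⟩ := hC k hk0
    have hdk : k.divisors.card ≤ R.divisors.card := by
      apply Finset.card_le_card
      apply Nat.divisors_subset_of_dvd (by omega)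
      rw [hRk]
      exact dvd_mul_left _ _
    refine le_trans ?_ (hc.trans (Nat.mul_le_mul_left C hdk))
    rw [Set.ncard_eq_toFinset_card _ hf]
    refine Finset.card_le_card_of_injOn (fun w : OK q => (⟨w.re / g, w.im / g⟩ : OK q)) ?_ ?_
    · intro w hw
      rw [Finset.mem_coe, Finset.mem_filter] at hw
      obtain ⟨hw, hwg⟩ := hw
      obtain ⟨x, y, hx, hy, h⟩ := hfac w hw
      rw [hwg] at hx hy h
      simp only [Finset.mem_coe, Set.Finite.mem_toFinset, Set.mem_ofPred_eq]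
      rw [hx, hy, Int.mul_ediv_cancel_left _ hgZ, Int.mul_ediv_cancel_left _ hgZ]
      constructor
      · unfold nm
        have h1 : (g : ℤ) ^ 2 * (x ^ 2 + q.t * (x * y) + q.n * y ^ 2) = (g : ℤ) ^ 2 * k := by
          rw [← h, hRk]
          push_cast
          ring
        exact mul_left_cancel₀ (pow_ne_zero 2 hgZ) h1
      · have h1 : ct w = g := hwg
        unfold ct at h1
        rw [hx, hy, Int.gcd_mul_left] at h1
        simp only [Int.natAbs_natCast] at h1
        have h2 : g * Int.gcd x y = g * 1 := by rw [mul_one]; exact h1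
        exact Nat.eq_of_mul_eq_mul_left (by omega) h2
    · intro w hw w' hw' hww
      rw [Finset.mem_coe, Finset.mem_filter] at hw hw'
      obtain ⟨x, y, hx, hy, _⟩ := hfac w hw.1
      obtain ⟨x', y', hx', hy', _⟩ := hfac w' hw'.1
      rw [hw.2] at hx hy
      rw [hw'.2] at hx' hy'
      have h1 := congrArg QuadraticAlgebra.re hww
      have h2 := congrArg QuadraticAlgebra.im hww
      simp only at h1 h2
      rw [hx, hx', Int.mul_ediv_cancel_left _ hgZ, Int.mul_ediv_cancel_left _ hgZ] at h1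
      rw [hy, hy', Int.mul_ediv_cancel_left _ hgZ, Int.mul_ediv_cancel_left _ hgZ] at h2
      apply QuadraticAlgebra.ext
      · rw [hx, hx', h1]
      · rw [hy, hy', h2]
  calc S.card ≤ (C * R.divisors.card) * (S.image ct).card := key
    _ ≤ (C * R.divisors.card) * R.divisors.card := Nat.mul_le_mul_left _ (Finset.card_le_card him)
    _ = C * R.divisors.card ^ 2 := by ring

end Pool.Agent.Lib.H80C
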