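import Pool.Agent.Lib.H80C.R2B
import Pool.Agent.Lib.H21AP.DivisorBound

/-!
# R2C: elements of given norm, the bound in terms of powers
-/

namespace Pool.Agent.Lib.H80C

/-- The bound in terms of powers.

PROOF. `R < 0`: no `w` (`nm_nonneg`); `R = 0`: only `w = 0` (`nm_eq_zero`); `R ≥ 1`: `r2_bound` and
`Pool.Agent.Lib.H21AP.divisor_bound` (file H21AP/DivisorBound.lean) with `ε / 2`. -/
theorem r2_eps (q : QF) {ε : ℝ} (hε : 0 < ε) : ∃ C : ℝ, 0 < C ∧ ∀ X : ℝ, 1 ≤ X → ∀ R : ℤ,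
    (R : ℝ) ≤ X → {w : OK q | nm w = R}.Finite ∧ ({w : OK q | nm w = R}.ncard : ℝ) ≤ C * X ^ ε := by
  obtain ⟨K, hK⟩ := r2_bound q
  obtain ⟨C, hC, hd⟩ := Pool.Agent.Lib.H21AP.divisor_bound (half_pos hε)
  refine ⟨K * C ^ 2 + 1, by positivity, ?_⟩
  intro X hX R hR
  refine ⟨R2A_finite q R, ?_⟩
  have hX1 : 1 ≤ X ^ ε := Real.one_le_rpow hX hε.le
  have hC2 : 0 ≤ K * C ^ 2 := by positivity
  rcases lt_trichotomy R 0 with h | h | h
  · have h0 : {w : OK q | nm w = R} = ∅ := by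
      ext w
      simp only [Set.mem_ofPred_eq, Set.mem_empty_iff_false, iff_false]
      intro hw
      have := nm_nonneg w
      omega
    rw [h0, Set.ncard_empty]
    push_cast
    positivity
  · have h0 : {w : OK q | nm w = R} = {0} := by
      ext w
      simp only [Set.mem_ofPred_eq, Set.mem_singleton_iff]
      rw [h]
      exact nm_eq_zero
    rw [h0, Set.ncard_singleton]
    push_cast
    nlinarith
  · obtain ⟨n, rfl⟩ := Int.eq_ofNat_of_zero_le h.le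
    have hn : 1 ≤ n := by omega
    obtain ⟨_, h1⟩ := hK n hn
    have h2 := hd n hn
    have hn0 : (0 : ℝ) ≤ n := by positivity
    have h3 : ((n : ℝ) ^ (ε / 2)) ^ 2 = (n : ℝ) ^ ε := by
      rw [← Real.rpow_natCast, ← Real.rpow_mul hn0]
      congr 1
      push_cast
      ring
    have h4 : (n : ℝ) ^ ε ≤ X ^ ε := by
      apply Real.rpow_le_rpow hn0 _ hε.le
      exact_mod_cast hR
    have h5 : ((n.divisors.card : ℝ)) ^ 2 ≤ C ^ 2 * X ^ ε := by
      calc ((n.divisors.card : ℝ)) ^ 2 ≤ (C * (n : ℝ) ^ (ε / 2)) ^ 2 :=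
            pow_le_pow_left₀ (by positivity) h2 2
        _ = C ^ 2 * (n : ℝ) ^ ε := by rw [mul_pow, h3]
        _ ≤ C ^ 2 * X ^ ε := mul_le_mul_of_nonneg_left h4 (by positivity)
    have h6 : ({w : OK q | nm w = (n : ℤ)}.ncard : ℝ) ≤ K * (n.divisors.card : ℝ) ^ 2 := by
      exact_mod_cast h1
    calc ({w : OK q | nm w = (n : ℤ)}.ncard : ℝ) ≤ K * (n.divisors.card : ℝ) ^ 2 := h6
      _ ≤ K * (C ^ 2 * X ^ ε) := mul_le_mul_of_nonneg_left h5 (by positivity)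
      _ ≤ (K * C ^ 2 + 1) * X ^ ε := by nlinarith

end Pool.Agent.Lib.H80C
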