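import Pool.Agent.Lib.H80C.REL0

/-!
# REL: the relations
-/

namespace Pool.Agent.Lib.H80C

open Matrix

variable {q : QF}

theorem REL_adj {P : ℕ} (hP : 1 ≤ P) {A F G B H K C D E : OK q}
    (h1 : (!![A, F, G; B, H, K; C, D, E] : M3 q)ᴴ * JZ q * !![A, F, G; B, H, K; C, D, E] =
      ((P : OK q) ^ 2) • JZ q)
    (h2 : (!![A, F, G; B, H, K; C, D, E] : M3 q).det = (P : OK q) ^ 3) :
    P * star C = B * D - H * C ∧ P * star B = F * C - A * D ∧ P * star D = K * C - B * E ∧
      P * star H = A * E - G * C ∧ star A * C + star B * B + star C * A = 0 ∧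
      C * star E + D * star D + E * star C = 0 ∧
      (H * E - K * D) + (A * E - G * C) + (A * H - F * B) = P * (star A + star H + star E) ∧
      A * H * E - A * K * D - F * B * E + F * K * C + G * B * D - G * H * C = (P : OK q) ^ 3 := by
  have hP0 : (P : OK q) ≠ 0 := by
    have : P ≠ 0 := by omega
    exact_mod_cast this
  have hJ : JZ q * JZ q = 1 := by
    refine Matrix.ext fun i j => ?_
    fin_cases i <;> fin_cases j <;> simp [JZ, Matrix.mul_apply, Fin.sum_univ_three]
  obtain ⟨X, hX⟩ : ∃ X : M3 q, X = !![A, F, G; B, H, K; C, D, E] := ⟨_, rfl⟩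
  rw [← hX] at h1 h2
  have e1 : (JZ q * Xᴴ * JZ q) * X = ((P : OK q) ^ 2) • (1 : M3 q) := by
    rw [mul_assoc (JZ q), mul_assoc (JZ q), h1, Matrix.mul_smul, hJ]
  have e2 : adjugate X = (P : OK q) • (JZ q * Xᴴ * JZ q) := by
    have h3 := mul_adjugate X
    rw [h2] at h3
    have h4 : ((P : OK q) ^ 2) • adjugate X = ((P : OK q) ^ 2) • ((P : OK q) • (JZ q * Xᴴ * JZ q)) := by
      calc ((P : OK q) ^ 2) • adjugate X = (JZ q * Xᴴ * JZ q) * X * adjugate X := by
            rw [e1, Matrix.smul_mul, Matrix.one_mul]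
        _ = (JZ q * Xᴴ * JZ q) * (((P : OK q) ^ 3) • (1 : M3 q)) := by
            rw [Matrix.mul_assoc (JZ q * Xᴴ * JZ q), h3]
        _ = _ := by
            rw [Matrix.mul_smul, Matrix.mul_one, smul_smul]
            rfl
    refine Matrix.ext fun i j => ?_
    have h5 := congrFun (congrFun h4 i) j
    rw [Matrix.smul_apply, Matrix.smul_apply, smul_eq_mul, smul_eq_mul] at h5
    exact mul_left_cancel₀ (pow_ne_zero 2 hP0) h5
  have e3 : X * JZ q * Xᴴ = ((P : OK q) ^ 2) • JZ q := by
    have h3 := mul_adjugate X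
    rw [h2, e2, Matrix.mul_smul] at h3
    have h6 : (P : OK q) • (X * JZ q * Xᴴ) = (P : OK q) • (((P : OK q) ^ 2) • JZ q) := by
      have h7 : X * JZ q * Xᴴ = (X * (JZ q * Xᴴ * JZ q)) * JZ q := by
        simp only [mul_assoc]
        rw [hJ, mul_one]
      rw [h7, ← Matrix.smul_mul, h3, Matrix.smul_mul, Matrix.one_mul, smul_smul]
      congr 1
      ring
    refine Matrix.ext fun i j => ?_
    have h5 := congrFun (congrFun h6 i) j
    rw [Matrix.smul_apply, Matrix.smul_apply, smul_eq_mul, smul_eq_mul] at h5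
    exact mul_left_cancel₀ hP0 h5
  rw [hX] at e2 e3 h1 h2
  have q := fun i j => congrFun (congrFun e2 i) j
  have q1 := fun i j => congrFun (congrFun h1 i) j
  have q3 := fun i j => congrFun (congrFun e3 i) j
  rw [adjugate_fin_three] at q
  have q20 := q 2 0
  have q21 := q 2 1
  have q10 := q 1 0
  have q11 := q 1 1
  have q00 := q 0 0
  have q22 := q 2 2
  have p00 := q1 0 0
  have r22 := q3 2 2
  simp [JZ, Matrix.mul_apply, Matrix.vecMul, dotProduct, Fin.sum_univ_three,
    Matrix.conjTranspose_apply] at q20 q21 q10 q11 q00 q22 p00 r22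
  refine ⟨?_, ?_, ?_, ?_, ?_, ?_, ?_, ?_⟩
  · linear_combination -q20
  · linear_combination -q21
  · linear_combination -q10
  · linear_combination -q11
  · linear_combination p00
  · linear_combination r22
  · linear_combination q00 + q11 + q22
  · rw [det_fin_three] at h2
    simpa using h2

theorem REL_real {n : ℕ} (hn : 1 ≤ n) {x y : OK q} (h : y = n * x) (hy : star y = y) :
    ∃ r : ℤ, x = r := by
  have hn0 : (n : OK q) ≠ 0 := by
    have : n ≠ 0 := by omega
    exact_mod_cast this
  have h1 : star x = x := by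
    apply mul_left_cancel₀ hn0
    rw [← h, ← hy, h, star_mul', star_natCast]
  exact ⟨x.re, star_eq_self h1⟩

theorem REL_div {n P : ℕ} (hnP : Nat.Coprime n P) {x y : OK q} (h : P * x = n * y) :
    ∃ z : OK q, x = n * z := by
  obtain ⟨u, v, huv⟩ : ∃ u v : ℤ, u * n + v * P = 1 := by
    have := Nat.isCoprime_iff_coprime.2 hnP
    exact this
  have huv' : (u : OK q) * n + v * P = 1 := by
    exact_mod_cast congrArg (Int.cast : ℤ → OK q) huv
  refine ⟨u * x + v * y, ?_⟩
  linear_combination (v : OK q) * h - x * huv'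

/-- The relations hold. (Adapt `Lib/H89D/REL.lean`.)

PROOF. `g = P + n M` has `adjugate g = P J gᴴ J` (since `J gᴴ J g = P²` and `g adjugate g = P³`), and
`g J gᴴ = P² J`. Comparing the entries, `g = !![A, F, G; B, H, K; C, D, E]` (entry `i j` of `J gᴴ J` is
`star (g (2 - j) (2 - i))`): `P star C = B D - H C`, `P star B = F C - A D`, `P star D = K C - B E`,
`P star H = A E - G C`, `star A C + star B B + star C A = 0`, `C star E + D star D + E star C = 0`.
Insert `A = P + n a`, `B = n b`, ... and divide by powers of `n`, `P`. Since `gcd (n, P) = 1`, an element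
`x` of the order with `P x` divisible by `n` is divisible by `n` (Bézout), and by `n²` likewise.
`ρ`: `P (c + star c) = n (b d - c h)`, so `c + star c = n ρ` with `ρ` real, hence an integer
(`star_eq_self`), and `b d - c h = P ρ`. `ha`, `he`: the two norm relations, divided by `n²` after
inserting `hc`. `hf, hk`: the relations for `star B`, `star D`. The relation for `star H`, with
`T = a + e + h`: `P T = P (h + star h) + n (g c - a e)`. The trace of the adjugate is `P star (trace g)`:
`3 P² + 2 n P T + n² e₂(M) = 3 P² + n P star T`, so `P (star T - 2 T) = n e₂(M)`. The determinant: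
`P³ + n P² T + n² P e₂(M) + n³ det M = P³`, so `P² (T - star T) = n² det M`. The first gives
`T ≡ h + star h`, so `T ≡ star T`, modulo `n`, the second `star T ≡ 2 T`; so `T ≡ 0` modulo `n`, `T = n τ`
(`hτ`); `T - star T` is divisible by `n²`, so `τ - star τ` is divisible by `n` (`hi`). `h + star h` is
congruent to `T`, so divisible by `n`: `= n η` with `η` an integer; and `P τ = P η + (g c - a e)`. -/
theorem rels_of_elt {n P : ℕ} (hn : 1 ≤ n) (hP : 1 ≤ P) (hnP : Nat.Coprime n P) {M : M3 q}
    (h : Elt n P M) : ∃ (ρ η : ℤ) (τ : OK q), RelsM n P M ρ η τ := by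
  obtain ⟨h1, h2⟩ := h
  have hn0 : (n : OK q) ≠ 0 := by
    have : n ≠ 0 := by omega
    exact_mod_cast this
  have hP0 : (P : OK q) ≠ 0 := by
    have : P ≠ 0 := by omega
    exact_mod_cast this
  have hg : (gm n P M : M3 q) = !![P + n * M 0 0, n * M 0 1, n * M 0 2;
      n * M 1 0, P + n * M 1 1, n * M 1 2; n * M 2 0, n * M 2 1, P + n * M 2 2] := by
    unfold gm
    ext i j : 1
    fin_cases i <;> fin_cases j <;> simp
  rw [hg] at h1 h2
  obtain ⟨r1, r2, r3, r4, r5, r6, r7, r8⟩ := REL_adj hP h1 h2
  clear h1 h2 hg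
  unfold RelsM
  generalize M 0 0 = a at *
  generalize M 0 1 = f at *
  generalize M 0 2 = g at *
  generalize M 1 0 = b at *
  generalize M 1 1 = h at *
  generalize M 1 2 = k at *
  generalize M 2 0 = c at *
  generalize M 2 1 = d at *
  generalize M 2 2 = e at *
  simp only [star_mul', star_add, star_natCast] at r1 r2 r3 r4 r5 r6 r7
  have t1 : P * (c + star c) = n * (b * d - c * h) := by
    apply mul_left_cancel₀ hn0
    linear_combination r1
  obtain ⟨z, hz⟩ := REL_div hnP t1
  obtain ⟨ρ, hρ⟩ := REL_real hn hz (by rw [star_add, star_star, add_comm])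
  rw [hρ] at hz
  have hρ' : b * d = P * ρ + c * h := by
    apply mul_left_cancel₀ hn0
    linear_combination (P : OK q) * hz - t1
  -- eta
  have s4 : P * (h + star h) = P * (a + e + h) + n * (a * e - g * c) := by
    apply mul_left_cancel₀ hn0
    linear_combination r4
  have s7 : P * (star a + star h + star e - 2 * (a + h + e)) =
      n * (h * e - k * d + (a * e - g * c) + (a * h - f * b)) := by
    apply mul_left_cancel₀ hn0
    linear_combination -r7
  have s8 : P * (star a + star e + star h - (a + e + h)) =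
      n * ((a * e - g * c) - star (a * e - g * c)) := by
    have h3 := congrArg star s4
    simp only [star_add, star_star, star_mul', star_natCast] at h3
    linear_combination s4 - h3
  have s9 : P * (a + e + h) = n * (((a * e - g * c) - star (a * e - g * c)) -
      (h * e - k * d + (a * e - g * c) + (a * h - f * b))) := by
    linear_combination s8 - s7
  obtain ⟨τ, hτ⟩ := REL_div hnP s9
  have s10 : P * (h + star h) = n * (P * τ + (a * e - g * c)) := by
    linear_combination s4 + (P : OK q) * hτ
  obtain ⟨y, hy⟩ := REL_div hnP s10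
  obtain ⟨η, hη⟩ := REL_real hn hy (by rw [star_add, star_star, add_comm])
  rw [hη] at hy
  have hTs := congrArg star hτ
  simp only [star_add, star_mul', star_natCast] at hTs
  have s11 : P * (P * (τ - star τ)) =
      n * (a * h * e - a * k * d - f * b * e + f * k * c + g * b * d - g * h * c) := by
    apply mul_left_cancel₀ hn0
    apply mul_left_cancel₀ hn0
    linear_combination -(n : OK q) * P ^ 2 * hτ + n * P ^ 2 * hTs - n * P * s7 - r8
  obtain ⟨x1, hx1⟩ := REL_div hnP s11
  obtain ⟨x2, hx2⟩ := REL_div hnP hx1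
  refine ⟨ρ, η, τ, hρ', hz, ?_, ?_, hτ, ⟨x2, hx2⟩, ?_, ?_, hy, ?_⟩
  · apply mul_left_cancel₀ hn0
    apply mul_left_cancel₀ hn0
    linear_combination r5 - n * P * hz
  · apply mul_left_cancel₀ hn0
    apply mul_left_cancel₀ hn0
    linear_combination r6 - n * P * hz
  · apply mul_left_cancel₀ hn0
    linear_combination r2
  · apply mul_left_cancel₀ hn0
    linear_combination r3
  · apply mul_left_cancel₀ hn0
    linear_combination s10 - (P : OK q) * hy

end Pool.Agent.Lib.H80C
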