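import Pool.Agent.Lib.H80C.Defs

/-!
# REL0: the unitarity relation
-/

namespace Pool.Agent.Lib.H80C

open Matrix

variable {q : QF}

/-- PROOF. Expand `(P + n Mᴴ) J (P + n M) = P² J` and divide by `n ≥ 1`. (Adapt `Lib/H89D/REL0.lean`.) -/
theorem elt_skew {n P : ℕ} (hn : 1 ≤ n) {M : M3 q} (h : Elt n P M) :
    (P : OK q) • (Mᴴ * JZ q + JZ q * M) + (n : OK q) • (Mᴴ * JZ q * M) = 0 := by
  have hn0 : (n : OK q) ≠ 0 := by
    have : n ≠ 0 := by omega
    exact_mod_cast this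
  have h1 := h.1
  unfold gm at h1
  have h2 : ((P : OK q) • (1 : M3 q) + (n : OK q) • M)ᴴ =
      (P : OK q) • (1 : M3 q) + (n : OK q) • Mᴴ := by
    rw [conjTranspose_add, conjTranspose_smul, conjTranspose_one, conjTranspose_smul,
      star_natCast, star_natCast]
  rw [h2] at h1
  have h3 : (n : OK q) • ((P : OK q) • (Mᴴ * JZ q + JZ q * M) + (n : OK q) • (Mᴴ * JZ q * M)) = 0 := by
    have h4 : ((P : OK q) • (1 : M3 q) + (n : OK q) • Mᴴ) * JZ q *
        ((P : OK q) • (1 : M3 q) + (n : OK q) • M) = ((P : OK q) ^ 2) • JZ q +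
        (n : OK q) • ((P : OK q) • (Mᴴ * JZ q + JZ q * M) + (n : OK q) • (Mᴴ * JZ q * M)) := by
      simp only [add_mul, mul_add, one_mul, mul_one, smul_mul_assoc, mul_smul_comm, smul_add,
        smul_smul]
      rw [mul_comm (P : OK q) (n : OK q), sq]
      abel
    rw [h4] at h1
    exact add_eq_left.1 h1
  exact (smul_eq_zero.1 h3).resolve_left hn0

end Pool.Agent.Lib.H80C
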